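import Mathlib

/-!
# The derivatives of `arctan`, `√(1 + x)` and `exp`
-/

set_option autoImplicit false

namespace Pool.Agent.W2helper30.PN

open Polynomial Filter Topology

/-- the numerators of the derivatives of `1 / (1 + x ^ 2)` -/
noncomputable def pq : ℕ → ℚ[X]
  | 0 => 1
  | k + 1 => derivative (pq k) * (1 + X ^ 2) - C (2 * ((k : ℚ) + 1)) * X * pq k

lemma iter_inv_sq (k : ℕ) : iteratedDeriv k (fun x : ℝ => (1 + x ^ 2)⁻¹) =
    fun x : ℝ => aeval x (pq k) / (1 + x ^ 2) ^ (k + 1) := by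
  induction k with
  | zero =>
    funext x
    rw [iteratedDeriv_zero, pq, map_one, zero_add, pow_one, one_div]
  | succ k ih =>
    rw [iteratedDeriv_succ, ih]
    funext x
    have h0 : (0 : ℝ) < 1 + x ^ 2 := by positivity
    have h1 : HasDerivAt (fun x : ℝ => aeval x (pq k)) (aeval x (derivative (pq k))) x :=
      (pq k).hasDerivAt_aeval x
    have h2 : HasDerivAt (fun x : ℝ => (1 + x ^ 2) ^ (k + 1))
        (((k + 1 : ℕ) : ℝ) * (1 + x ^ 2) ^ k * (2 * x)) x := by
      have h3 : HasDerivAt (fun x : ℝ => 1 + x ^ 2) (2 * x) x := by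
        simpa using (hasDerivAt_pow 2 x).const_add 1
      refine (h3.fun_pow (k + 1)).congr_deriv ?_
      rw [Nat.add_sub_cancel]
    have h3 := h1.fun_div h2 (by positivity)
    rw [h3.deriv, pq]
    simp only [map_sub, map_mul, map_add, map_one, map_pow, aeval_X, aeval_C]
    have e1 : (algebraMap ℚ ℝ) 2 = 2 := map_ofNat _ 2
    have e2 : (algebraMap ℚ ℝ) (k : ℚ) = k := map_natCast _ k
    rw [e1, e2, div_eq_div_iff (by positivity) (by positivity)]
    push_cast
    ring

lemma iter_arctan (k : ℕ) (x : ℝ) : iteratedDeriv (k + 1) (fun x => 4 * Real.arctan x) x =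
    4 * (aeval x (pq k) / (1 + x ^ 2) ^ (k + 1)) := by
  rw [iteratedDeriv_succ']
  have h1 : deriv (fun x => 4 * Real.arctan x) = fun x : ℝ => 4 * (1 + x ^ 2)⁻¹ := by
    funext x
    rw [deriv_const_mul_field, Real.deriv_arctan]
    simp only [one_div]
  rw [h1, iteratedDeriv_const_mul_field, iter_inv_sq]

/-- the coefficients of the derivatives of `√(1 + x)` -/
noncomputable def sq' : ℕ → ℚ
  | 0 => 1
  | k + 1 => sq' k * (1 / 2 - k)

lemma iter_sqrt (k : ℕ) : ∀ x : ℝ, -1 < x → iteratedDeriv k (fun x : ℝ => √(1 + x)) x =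
    (sq' k : ℝ) * √(1 + x) / (1 + x) ^ k := by
  induction k with
  | zero =>
    intro x _
    simp [sq']
  | succ k ih =>
    intro x hx
    rw [iteratedDeriv_succ]
    have h0 : 0 < 1 + x := by linarith
    have h1 : iteratedDeriv k (fun x : ℝ => √(1 + x)) =ᶠ[𝓝 x]
        fun x => (sq' k : ℝ) * √(1 + x) / (1 + x) ^ k := by
      filter_upwards [lt_mem_nhds hx] with y hy
      exact ih y hy
    rw [h1.deriv_eq]
    have h2 : HasDerivAt (fun x : ℝ => 1 + x) 1 x := by
      simpa using (hasDerivAt_id x).const_add 1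
    have h3 : HasDerivAt (fun x : ℝ => √(1 + x)) (1 / (2 * √(1 + x))) x := h2.sqrt h0.ne'
    have h4 : HasDerivAt (fun x : ℝ => (1 + x) ^ k) ((k : ℝ) * (1 + x) ^ (k - 1)) x := by
      refine (h2.fun_pow k).congr_deriv ?_
      rw [mul_one]
    have h5 := (h3.const_mul (sq' k : ℝ)).fun_div h4 (by positivity)
    rw [h5.deriv]
    obtain ⟨s, hs⟩ : ∃ s : ℝ, s = √(1 + x) := ⟨_, rfl⟩
    have hs0 : 0 < s := by
      rw [hs]
      exact Real.sqrt_pos.2 h0
    have hs2 : 1 + x = s ^ 2 := by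
      rw [hs, Real.sq_sqrt h0.le]
    rw [sq', ← hs, hs2]
    push_cast
    rcases Nat.eq_zero_or_pos k with hk | hk
    · subst hk
      simp only [CharP.cast_eq_zero, zero_mul, mul_zero, sub_zero, pow_zero, mul_one, one_pow,
        div_one, zero_add, pow_one]
      field_simp
    · obtain ⟨j, rfl⟩ : ∃ j, k = j + 1 := ⟨k - 1, by omega⟩
      rw [Nat.add_sub_cancel]
      push_cast
      field_simp
      ring

end Pool.Agent.W2helper30.PN
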