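import Pool.Agent.W2helper30.PN.Lin
import Pool.Agent.R473.EC.AlgMeas

/-!
# Families of analytic functions whose derivatives are algebraic over `ℚ(t)`
-/

set_option autoImplicit false

namespace Pool.Agent.W2helper30.PN

open Finset Filter Topology
open Pool.Agent.R473.EC (MeasR meas_alg)

/-- nonzero integral combinations are not too small -/
def NotSmall {R : ℕ} (x : Fin R → ℝ) (E : ℕ) (c : ℝ) : Prop :=
  ∀ (h : Fin R → ℤ) (X : ℝ), 1 ≤ X → (∀ i, |(h i : ℝ)| ≤ X) → ∑ i, (h i : ℝ) * x i ≠ 0 →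
    c ≤ X ^ E * |∑ i, (h i : ℝ) * x i|

/-- numbers algebraic over `ℚ(t)` -/
theorem notSmall {t : ℝ} (ht : MeasR t) {R : ℕ} (x : Fin R → ℝ)
    (hx : ∀ i, IsAlgebraic (IntermediateField.adjoin ℚ ({t} : Set ℝ)) (x i)) :
    ∃ (E : ℕ) (c : ℝ), 0 < c ∧ NotSmall x E c := by
  classical
  obtain ⟨W, hW⟩ : ∃ W : Submodule ℚ ℝ, W = Submodule.span ℚ (Set.range x) := ⟨_, rfl⟩
  have hfin : Module.Finite ℚ W := by
    rw [hW]
    exact FiniteDimensional.span_of_finite ℚ (Set.finite_range x)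
  have hxW : ∀ i, x i ∈ W := fun i => by
    rw [hW]
    exact Submodule.subset_span ⟨i, rfl⟩
  have halg : ∀ y ∈ W, IsAlgebraic (IntermediateField.adjoin ℚ ({t} : Set ℝ)) y := by
    intro y hy
    rw [hW] at hy
    induction hy using Submodule.span_induction with
    | mem y hy =>
      obtain ⟨i, rfl⟩ := hy
      exact hx i
    | zero => exact isAlgebraic_zero
    | add y z _ _ hy hz => exact hy.add hz
    | smul q y _ hy =>
      rw [Rat.smul_def]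
      have h1 : IsAlgebraic (IntermediateField.adjoin ℚ ({t} : Set ℝ)) ((q : ℚ) : ℝ) := by
        have h2 : IsAlgebraic ℚ ((q : ℚ) : ℝ) := isAlgebraic_algebraMap (A := ℝ) q
        exact h2.tower_top _
      exact h1.mul hy
  rcases Nat.eq_zero_or_pos (Module.finrank ℚ W) with hn | hn
  · refine ⟨0, 1, one_pos, fun h X _ _ hne => absurd ?_ hne⟩
    have h1 : W = ⊥ := Submodule.finrank_eq_zero.1 hn
    refine Finset.sum_eq_zero fun i _ => ?_
    have h2 := hxW i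
    rw [h1, Submodule.mem_bot] at h2
    rw [h2, mul_zero]
  obtain ⟨m, hm⟩ : ∃ m, Module.finrank ℚ W = m + 1 := ⟨_, (Nat.sub_add_cancel hn).symm⟩
  obtain ⟨b, -⟩ : ∃ b : Module.Basis (Fin (m + 1)) ℚ W, True :=
    ⟨Module.finBasisOfFinrankEq ℚ W hm, trivial⟩
  obtain ⟨y, hy⟩ : ∃ y : Fin (m + 1) → ℝ, y = fun l => ((b l : W) : ℝ) := ⟨_, rfl⟩
  have hli : LinearIndependent ℚ y := by
    rw [hy]
    exact b.linearIndependent.map' W.subtype (Submodule.ker_subtype W)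
  obtain ⟨w, c, hw, hc, hmeas⟩ := meas_alg t ht y (fun l => by
    rw [hy]
    exact halg _ (b l).2) hli
  -- coordinates
  obtain ⟨q, hq⟩ : ∃ q : Fin R → Fin (m + 1) → ℚ, q = fun i l => b.repr ⟨x i, hxW i⟩ l := ⟨_, rfl⟩
  have hxq : ∀ i, x i = ∑ l, (q i l : ℝ) * y l := by
    intro i
    have h1 := b.sum_repr ⟨x i, hxW i⟩
    have h2 := congrArg (fun z : W => (z : ℝ)) h1
    simp only [Submodule.coe_sum, Submodule.coe_smul] at h2
    rw [← h2, hq, hy]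
    refine Finset.sum_congr rfl fun l _ => ?_
    rw [Rat.smul_def]
  obtain ⟨D, hD⟩ : ∃ D : ℕ, D = ∏ p : Fin R × Fin (m + 1), (q p.1 p.2).den := ⟨_, rfl⟩
  have hD0 : 0 < D := by
    rw [hD]
    exact Finset.prod_pos fun p _ => (q p.1 p.2).den_pos
  have hDR : (1 : ℝ) ≤ D := by exact_mod_cast hD0
  obtain ⟨z, hz⟩ : ∃ z : Fin R → Fin (m + 1) → ℤ, ∀ i l, (z i l : ℝ) = D * q i l := by
    have h1 : ∀ i l, ∃ z : ℤ, (z : ℝ) = D * q i l := by
      intro i l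
      have h2 : (q i l).den ∣ D := by
        rw [hD]
        exact Finset.dvd_prod_of_mem (fun p : Fin R × Fin (m + 1) => (q p.1 p.2).den)
          (Finset.mem_univ (i, l))
      obtain ⟨e, he⟩ := h2
      refine ⟨(q i l).num * e, ?_⟩
      have h3 : ((q i l).den : ℝ) * (q i l : ℝ) = ((q i l).num : ℝ) := by
        have h4 := Rat.den_mul_eq_num (q i l)
        exact_mod_cast h4
      rw [he]
      push_cast
      rw [← h3]
      ring
    choose z hz using h1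
    exact ⟨z, hz⟩
  obtain ⟨Y, hY⟩ : ∃ Y : ℝ, Y = 1 + ∑ l, ∑ i, |(z i l : ℝ)| := ⟨_, rfl⟩
  have hY1 : 1 ≤ Y := by
    rw [hY]
    have : 0 ≤ ∑ l, ∑ i, |(z i l : ℝ)| := sum_nonneg fun l _ => sum_nonneg fun i _ => abs_nonneg _
    linarith
  have hY0 : 0 < Y := by linarith
  refine ⟨⌈w⌉₊, c / (Y ^ w * D), by positivity, fun h X hX hhX hne => ?_⟩
  obtain ⟨g, hg⟩ : ∃ g : Fin (m + 1) → ℤ, g = fun l => ∑ i, h i * z i l := ⟨_, rfl⟩
  have hgs : ∑ l, (g l : ℝ) * y l = D * ∑ i, (h i : ℝ) * x i := by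
    rw [hg]
    push_cast
    simp only [hxq, Finset.mul_sum, Finset.sum_mul]
    rw [Finset.sum_comm]
    refine Finset.sum_congr rfl fun i _ => Finset.sum_congr rfl fun l _ => ?_
    rw [hz]
    ring
  have hg0 : g ≠ 0 := by
    rintro rfl
    have h1 : (0 : ℝ) = D * ∑ i, (h i : ℝ) * x i := by
      rw [← hgs]
      simp
    rcases mul_eq_zero.1 h1.symm with h2 | h2
    · linarith
    · exact hne h2
  have hgX : ∀ l, |(g l : ℝ)| ≤ X * Y := by
    intro l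
    rw [hg]
    push_cast
    refine (abs_sum_le_sum_abs _ _).trans ?_
    calc ∑ i, |(h i : ℝ) * (z i l : ℝ)| ≤ ∑ i, X * |(z i l : ℝ)| := by
          refine sum_le_sum fun i _ => ?_
          rw [abs_mul]
          exact mul_le_mul_of_nonneg_right (hhX i) (abs_nonneg _)
      _ = X * ∑ i, |(z i l : ℝ)| := by rw [mul_sum]
      _ ≤ X * Y := by
          refine mul_le_mul_of_nonneg_left ?_ (by linarith)
          rw [hY]
          have h1 := single_le_sum (f := fun l => ∑ i, |(z i l : ℝ)|)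
            (fun l _ => sum_nonneg fun i _ => abs_nonneg _) (mem_univ l)
          linarith
  have h1 := hmeas g hg0 (X * Y) (by nlinarith) hgX
  rw [hgs, abs_mul, abs_of_pos (by linarith : (0 : ℝ) < D), Real.mul_rpow (by linarith) hY0.le] at h1
  have h2 : X ^ w ≤ X ^ ⌈w⌉₊ := by
    rw [← Real.rpow_natCast]
    exact Real.rpow_le_rpow_of_exponent_le hX (Nat.le_ceil w)
  rw [div_le_iff₀ (by positivity)]
  calc c ≤ X ^ w * Y ^ w * (D * |∑ i, (h i : ℝ) * x i|) := h1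
    _ ≤ X ^ ⌈w⌉₊ * Y ^ w * (D * |∑ i, (h i : ℝ) * x i|) := by gcongr
    _ = _ := by ring

/-- a bound for the index of the first nonzero value -/
theorem exists_K {R : ℕ} (D : ℕ → Fin R → ℝ)
    (hD : ∀ h : Fin R → ℤ, h ≠ 0 → ∃ k, 1 ≤ k ∧ ∑ i, (h i : ℝ) * D k i ≠ 0) :
    ∃ K : ℕ, ∀ h : Fin R → ℤ, h ≠ 0 → ∃ k, 1 ≤ k ∧ k ≤ K ∧ ∑ i, (h i : ℝ) * D k i ≠ 0 := by
  classical
  obtain ⟨φ, hφ⟩ : ∃ φ : ℕ → ((Fin R → ℚ) →ₗ[ℚ] ℝ), ∀ k q, φ k q = ∑ i, (q i : ℝ) * D k i := by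
    refine ⟨fun k => ∑ i, (LinearMap.proj i : (Fin R → ℚ) →ₗ[ℚ] ℚ).smulRight (D k i), ?_⟩
    intro k q
    rw [LinearMap.sum_apply]
    refine Finset.sum_congr rfl fun i _ => ?_
    rw [LinearMap.smulRight_apply, LinearMap.proj_apply, Rat.smul_def]
  obtain ⟨U, hU⟩ : ∃ U : ℕ → Submodule ℚ (Fin R → ℚ), ∀ k q, q ∈ U k ↔
      ∀ l, 1 ≤ l → l ≤ k → φ l q = 0 := by
    refine ⟨fun k => ⨅ l ∈ Finset.Icc 1 k, LinearMap.ker (φ l), ?_⟩
    intro k q
    simp only [Submodule.mem_iInf, Finset.mem_Icc, LinearMap.mem_ker, and_imp]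
  have hanti : ∀ a b, a ≤ b → U b ≤ U a := by
    intro a b hab q hq
    rw [hU] at hq ⊢
    exact fun l h1 h2 => hq l h1 (h2.trans hab)
  obtain ⟨K, hK⟩ := IsArtinian.monotone_stabilizes (R := ℚ) (M := Fin R → ℚ)
    ⟨fun k => OrderDual.toDual (U k), fun a b hab => hanti a b hab⟩
  refine ⟨K, fun h hh => ?_⟩
  by_contra hcon
  push Not at hcon
  obtain ⟨k, hk1, hk2⟩ := hD h hh
  have h1 : (fun i => (h i : ℚ)) ∈ U K := by
    rw [hU]
    intro l hl1 hl2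
    rw [hφ]
    have := hcon l hl1 hl2
    simpa using this
  have h2 : (fun i => (h i : ℚ)) ∈ U k := by
    rcases le_total k K with hkK | hkK
    · exact hanti k K hkK h1
    · have h3 : U K = U k := hK k hkK
      rwa [← h3]
  rw [hU] at h2
  have h3 := h2 k hk1 le_rfl
  rw [hφ] at h3
  apply hk2
  simpa using h3

/-- the general criterion -/
theorem tame_of {R : ℕ} (f : Fin R → ℝ → ℝ) (x0 : ℝ)
    (hD : ∀ h : Fin R → ℤ, h ≠ 0 → ∃ k, 1 ≤ k ∧ ∑ i, (h i : ℝ) * iteratedDeriv k (f i) x0 ≠ 0)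
    (hE : ∀ k, 1 ≤ k → ∃ (E : ℕ) (c : ℝ), 0 < c ∧ NotSmall (fun i => iteratedDeriv k (f i) x0) E c) :
    ∃ (K E : ℕ) (c : ℝ), 0 < c ∧ TameAt f x0 K E c := by
  classical
  obtain ⟨K, hK⟩ := exists_K (fun k i => iteratedDeriv k (f i) x0) hD
  have hE' : ∀ k : ℕ, ∃ (E : ℕ) (c : ℝ), 0 < c ∧ (1 ≤ k →
      NotSmall (fun i => iteratedDeriv k (f i) x0) E c) := by
    intro k
    rcases Nat.eq_zero_or_pos k with hk | hk
    · exact ⟨0, 1, one_pos, fun h => by omega⟩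
    · obtain ⟨E, c, hc, h⟩ := hE k hk
      exact ⟨E, c, hc, fun _ => h⟩
  choose E c hc hN using hE'
  have hmin : ∀ k, k ∈ range (K + 1) → ∏ k ∈ range (K + 1), min (c k) 1 ≤ c k := by
    intro k hk
    rw [← Finset.mul_prod_erase _ _ hk]
    have h1 : ∏ k ∈ (range (K + 1)).erase k, min (c k) 1 ≤ 1 :=
      Finset.prod_le_one (fun j _ => (lt_min (hc j) one_pos).le) fun j _ => min_le_right _ _
    have h2 : 0 ≤ ∏ k ∈ (range (K + 1)).erase k, min (c k) 1 :=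
      Finset.prod_nonneg fun j _ => (lt_min (hc j) one_pos).le
    calc min (c k) 1 * ∏ k ∈ (range (K + 1)).erase k, min (c k) 1 ≤ c k * 1 := by
          refine mul_le_mul (min_le_left _ _) h1 h2 (hc k).le
      _ = c k := mul_one _
  refine ⟨K, ∑ k ∈ range (K + 1), E k, ∏ k ∈ range (K + 1), min (c k) 1,
    Finset.prod_pos fun k _ => lt_min (hc k) one_pos, fun h X hh hX hhX => ?_⟩
  have hex : ∃ k, 1 ≤ k ∧ ∑ i, (h i : ℝ) * iteratedDeriv k (f i) x0 ≠ 0 := by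
    obtain ⟨k, h1, _, h3⟩ := hK h hh
    exact ⟨k, h1, h3⟩
  obtain ⟨k', hk'1, hk'2, hk'3⟩ := hK h hh
  refine ⟨Nat.find hex, (Nat.find_spec hex).1, (Nat.find_min' hex ⟨hk'1, hk'3⟩).trans hk'2,
    fun l hl1 hl2 => ?_, ?_⟩
  · have h1 := Nat.find_min hex hl2
    push Not at h1
    exact h1 hl1
  · have hkK : Nat.find hex ≤ K := (Nat.find_min' hex ⟨hk'1, hk'3⟩).trans hk'2
    have hmem : Nat.find hex ∈ range (K + 1) := by
      rw [Finset.mem_range]
      omega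
    have h1 := hN (Nat.find hex) (Nat.find_spec hex).1 h X hX hhX (Nat.find_spec hex).2
    refine (hmin _ hmem).trans (h1.trans ?_)
    have h2 : E (Nat.find hex) ≤ ∑ k ∈ range (K + 1), E k :=
      single_le_sum (fun _ _ => Nat.zero_le _) hmem
    have h3 : X ^ E (Nat.find hex) ≤ X ^ ∑ k ∈ range (K + 1), E k := pow_le_pow_right₀ hX h2
    exact mul_le_mul_of_nonneg_right h3 (abs_nonneg _)

/-- nonconstant combinations have a nonzero derivative -/
theorem deriv_ne {R : ℕ} (f : Fin R → ℝ → ℝ) (x0 : ℝ) (hf : ∀ i, AnalyticAt ℝ (f i) x0)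
    (h : Fin R → ℤ) (hne : ∀ C : ℝ, ¬ ∀ᶠ x in 𝓝 x0, ∑ i, (h i : ℝ) * f i x = C) :
    ∃ k, 1 ≤ k ∧ ∑ i, (h i : ℝ) * iteratedDeriv k (f i) x0 ≠ 0 := by
  by_contra hcon
  push Not at hcon
  obtain ⟨A, P, hF⟩ := fam hf
  apply hne (∑ i, (h i : ℝ) * tc (f i) x0 0)
  have hP := hF.P1
  have hP0 : 0 < P := by linarith
  rw [Metric.eventually_nhds_iff]
  refine ⟨1 / P, by positivity, fun x hx => ?_⟩
  rw [Real.dist_eq] at hx
  have h1 : |x - x0| * P ≤ 1 := by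
    rw [lt_div_iff₀ hP0] at hx
    exact hx.le
  have h2 : HasSum (fun k => ∑ i, (h i : ℝ) * (tc (f i) x0 k * (x - x0) ^ k))
      (∑ i, (h i : ℝ) * f i (x0 + (x - x0))) :=
    hasSum_sum fun i _ => (hF.sum i (x - x0) h1).mul_left _
  have h3 : HasSum (fun k => ∑ i, (h i : ℝ) * (tc (f i) x0 k * (x - x0) ^ k))
      (∑ i, (h i : ℝ) * (tc (f i) x0 0 * (x - x0) ^ 0)) := by
    refine hasSum_single 0 fun k hk => ?_
    have h4 := hcon k (by omega)
    have h5 : ∑ i, (h i : ℝ) * (tc (f i) x0 k * (x - x0) ^ k) =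
        (∑ i, (h i : ℝ) * iteratedDeriv k (f i) x0) * ((x - x0) ^ k / k.factorial) := by
      rw [Finset.sum_mul]
      refine Finset.sum_congr rfl fun i _ => ?_
      unfold tc
      ring
    rw [h5, h4, zero_mul]
  have h4 := h2.unique h3
  rw [add_sub_cancel] at h4
  rw [h4]
  simp

end Pool.Agent.W2helper30.PN
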