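import Pool.Agent.W2helper30.PN.All
import Pool.Agent.W2helper30.PN.Meas
import Pool.Agent.W2helper30.PN.Der
import Pool.Agent.R473.EC.Pi
import Pool.Agent.TH456.TM.E

/-!
# The main theorem and its instances
-/

set_option autoImplicit false

namespace Pool.Agent.W2helper30.PN

open Finset Filter Topology
open Pool.Agent.R473.EC (MeasR measR_of measR_pi)
open Pool.Agent.N586.JT (NwT)

open Classical in
/-- the conclusion -/
def Conc {R : ℕ} (f : Fin R → ℝ → ℝ) (x0 : ℝ) : Prop :=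
  ∃ C : ℝ, ∀ δ β : ℝ, 0 < δ → 0 < β → 2 * δ + β < 1 → ∀ (B w r : ℕ) (ε : ℝ), 1 ≤ r → 0 < ε →
    ∃ N0 : ℕ, ∀ N : ℕ, N0 ≤ N →
      (((Finset.Ioc N (2 * N)).filter (fun m : ℕ => ¬ ∀ (b : ℕ) (a0 : Fin r → ℤ)
        (a : Fin r → Fin R → ℤ) (v : Fin r → ℕ), 2 ≤ b → b ≤ B →
        Sml (Real.exp ((Real.log N) ^ β)) a0 a v → NwT b w ((Real.log N) ^ (1 + δ)) ε
        (C * Real.log N) (lf f x0 a0 a v m))).card : ℝ) ≤
        N * Real.exp (-(Real.log N) ^ β)

theorem conc_of {R : ℕ} {f : Fin R → ℝ → ℝ} {x0 : ℝ} (hf : ∀ i, AnalyticAt ℝ (f i) x0)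
    (ht : ∃ (K E : ℕ) (c : ℝ), 0 < c ∧ TameAt f x0 K E c) : Conc f x0 := by
  obtain ⟨A, P, hF⟩ := fam hf
  obtain ⟨K, E, c, hc, ht⟩ := ht
  exact ⟨4 * K + 5, fun δ β hδ hβ hδβ B w r ε hr hε =>
    nt_all f x0 A P hF K E c hc ht δ β hδ hβ hδβ B w r hr ε hε⟩

/-- one function -/
theorem tame_single (f : ℝ → ℝ) (x0 : ℝ) (hf : AnalyticAt ℝ f x0)
    (hne : ∀ C : ℝ, ¬ ∀ᶠ x in 𝓝 x0, f x = C) :
    ∃ (K E : ℕ) (c : ℝ), 0 < c ∧ TameAt (fun _ : Fin 1 => f) x0 K E c := by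
  refine tame_of _ x0 ?_ ?_
  · intro h hh
    have h0 : h 0 ≠ 0 := by
      intro h0
      apply hh
      funext i
      rw [Fin.eq_zero i, h0]
      rfl
    refine deriv_ne (fun _ : Fin 1 => f) x0 (fun _ => hf) h fun C hC => ?_
    apply hne (C / h 0)
    filter_upwards [hC] with x hx
    rw [Fin.sum_univ_one] at hx
    have h1 : (h 0 : ℝ) ≠ 0 := by exact_mod_cast h0
    field_simp
    linarith
  · intro k _
    by_cases hk : iteratedDeriv k f x0 = 0
    · refine ⟨0, 1, one_pos, fun h X _ _ hne => ?_⟩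
      rw [Fin.sum_univ_one] at hne
      simp only [hk, mul_zero] at hne
      exact absurd rfl hne
    · refine ⟨0, |iteratedDeriv k f x0|, abs_pos.2 hk, fun h X _ _ hne => ?_⟩
      rw [Fin.sum_univ_one] at hne ⊢
      have h0 : h 0 ≠ 0 := by
        intro h0
        apply hne
        simp [h0]
      have h1 : (1 : ℝ) ≤ |(h 0 : ℝ)| := by
        have := Int.one_le_abs h0
        exact_mod_cast this
      rw [pow_zero, one_mul, abs_mul]
      have := abs_nonneg (iteratedDeriv k f x0)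
      nlinarith

/-- derivatives algebraic over `ℚ(t)` -/
theorem tame_alg {t : ℝ} (ht : MeasR t) {R : ℕ} (f : Fin R → ℝ → ℝ) (x0 : ℝ)
    (hD : ∀ h : Fin R → ℤ, h ≠ 0 → ∃ k, 1 ≤ k ∧ ∑ i, (h i : ℝ) * iteratedDeriv k (f i) x0 ≠ 0)
    (ha : ∀ i k, 1 ≤ k →
      IsAlgebraic (IntermediateField.adjoin ℚ ({t} : Set ℝ)) (iteratedDeriv k (f i) x0)) :
    ∃ (K E : ℕ) (c : ℝ), 0 < c ∧ TameAt f x0 K E c :=
  tame_of f x0 hD fun k hk => notSmall ht _ fun i => ha i k hk

lemma alg_of (t : ℝ) {y : ℝ} (hy : IsAlgebraic ℚ y) :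
    IsAlgebraic (IntermediateField.adjoin ℚ ({t} : Set ℝ)) y := hy.tower_top _

lemma alg_self (t : ℝ) : IsAlgebraic (IntermediateField.adjoin ℚ ({t} : Set ℝ)) t := by
  have h : t ∈ IntermediateField.adjoin ℚ ({t} : Set ℝ) :=
    IntermediateField.subset_adjoin ℚ _ (Set.mem_singleton t)
  exact isAlgebraic_algebraMap (⟨t, h⟩ : IntermediateField.adjoin ℚ ({t} : Set ℝ))

lemma alg_rat (q : ℚ) : IsAlgebraic ℚ ((q : ℚ) : ℝ) := isAlgebraic_algebraMap (A := ℝ) q

lemma alg_sqrt (q : ℚ) (hq : 0 ≤ q) : IsAlgebraic ℚ (√(q : ℝ)) := by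
  refine IsAlgebraic.of_pow (n := 2) two_pos ?_
  rw [Real.sq_sqrt (by exact_mod_cast hq)]
  exact alg_rat q

theorem measR_e : MeasR (Real.exp 1) := measR_of _ Pool.Agent.TH456.TM.measT_e

theorem transcendental_e : Transcendental ℚ (Real.exp 1) := by
  have h := Pool.Agent.TH456.TM.transcendental_of_measT Pool.Agent.TH456.TM.measT_e
  intro ha
  apply h
  have h1 : IsAlgebraic ℤ (Real.exp 1) := (IsFractionRing.isAlgebraic_iff ℤ ℚ ℝ).2 ha
  exact h1.algebraMap (A := ℂ)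

theorem transcendental_pi : Transcendental ℚ Real.pi := by
  have h := Pool.Agent.TH456.TM.transcendental_of_measT Pool.Agent.TH456.TM.measT_pi
  intro ha
  apply h
  have h1 : IsAlgebraic ℤ Real.pi := (IsFractionRing.isAlgebraic_iff ℤ ℚ ℝ).2 ha
  exact h1.algebraMap (A := ℂ)

/-- the three functions whose values at `1` are `e`, `π` and `√2` -/
noncomputable def F3 : Fin 3 → ℝ → ℝ :=
  ![Real.exp, fun x => 4 * Real.arctan x, fun x => √(1 + x)]

lemma iter_exp (k : ℕ) (x : ℝ) : iteratedDeriv k Real.exp x = Real.exp x := by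
  rw [iteratedDeriv_eq_iterate, Real.iter_deriv_exp]

lemma F3_analytic {q : ℝ} (hq : -1 < q) (i : Fin 3) : AnalyticAt ℝ (F3 i) q := by
  have h0 : (1 + q) ≠ 0 := by linarith
  fin_cases i
  · exact (Real.contDiff_exp (n := ⊤)).contDiffAt.analyticAt
  · have h1 : AnalyticAt ℝ Real.arctan q :=
      (Real.contDiff_arctan (n := ⊤)).contDiffAt.analyticAt
    exact analyticAt_const.mul h1
  · have h1 : ContDiffAt ℝ ⊤ (fun x : ℝ => 1 + x) q := by fun_prop
    exact (h1.sqrt h0).analyticAt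

lemma F3_sum (h : Fin 3 → ℤ) (x : ℝ) : ∑ i, (h i : ℝ) * F3 i x =
    h 0 * Real.exp x + h 1 * (4 * Real.arctan x) + h 2 * √(1 + x) := by
  rw [Fin.sum_univ_three]
  rfl

lemma one_le_of_ne {n : ℤ} (hn : n ≠ 0) : (1 : ℝ) ≤ |(n : ℝ)| := by
  have := Int.one_le_abs hn
  exact_mod_cast this

/-- the three functions are independent -/
lemma F3_ind {q : ℝ} (hq : -1 < q) (h : Fin 3 → ℤ) (hh : h ≠ 0) (C : ℝ) :
    ¬ ∀ᶠ x in 𝓝 q, ∑ i, (h i : ℝ) * F3 i x = C := by
  intro hC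
  have hana : AnalyticOnNhd ℝ (fun x => ∑ i, (h i : ℝ) * F3 i x) (Set.Ioi (-1)) := by
    intro x hx
    refine Finset.analyticAt_fun_sum _ fun i _ => analyticAt_const.mul (F3_analytic hx i)
  have heq := hana.eqOn_of_preconnected_of_eventuallyEq (g := fun _ => C)
    (fun x _ => analyticAt_const) isPreconnected_Ioi (show q ∈ Set.Ioi (-1 : ℝ) from hq) hC
  have hall : ∀ x : ℝ, 0 ≤ x →
      h 0 * Real.exp x + h 1 * (4 * Real.arctan x) + h 2 * √(1 + x) = C := by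
    intro x hx
    rw [← F3_sum]
    exact heq (show (-1 : ℝ) < x by linarith)
  have harc : ∀ x : ℝ, |4 * Real.arctan x| ≤ 8 := by
    intro x
    rw [abs_mul, abs_of_pos (by norm_num : (0 : ℝ) < 4)]
    have h1 := Real.arctan_lt_pi_div_two x
    have h2 := Real.neg_pi_div_two_lt_arctan x
    have h3 := Real.pi_le_four
    have h4 : |Real.arctan x| ≤ 2 := by
      rw [abs_le]
      constructor <;> linarith
    linarith
  obtain ⟨M, hM⟩ : ∃ M : ℝ, M = |C| + |(h 1 : ℝ)| * 8 + |(h 2 : ℝ)| := ⟨_, rfl⟩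
  have hM0 : 0 ≤ M := by rw [hM]; positivity
  -- the exponential function
  have e0 : h 0 = 0 := by
    by_contra h0
    have h1 := one_le_of_ne h0
    obtain ⟨x, hx⟩ : ∃ x : ℝ, x = 4 * M + 4 := ⟨_, rfl⟩
    have hx0 : 0 ≤ x := by linarith
    have h2 := hall x hx0
    have h3 : 1 + x + x ^ 2 / 2 ≤ Real.exp x := Real.quadratic_le_exp_of_nonneg hx0
    have h4 : |(h 0 : ℝ)| * Real.exp x ≤ M * (1 + x) := by
      have h5 : (h 0 : ℝ) * Real.exp x = C - h 1 * (4 * Real.arctan x) - h 2 * √(1 + x) := by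
        linarith
      have h6 : |(h 0 : ℝ)| * Real.exp x = |C - h 1 * (4 * Real.arctan x) - h 2 * √(1 + x)| := by
        rw [← h5, abs_mul, abs_of_pos (Real.exp_pos x)]
      have h7 : √(1 + x) ≤ 1 + x := by
        rw [Real.sqrt_le_left (by linarith)]
        nlinarith
      have h8 : |(h 1 : ℝ) * (4 * Real.arctan x)| ≤ |(h 1 : ℝ)| * 8 := by
        rw [abs_mul]
        exact mul_le_mul_of_nonneg_left (harc x) (abs_nonneg _)
      have h9 : |(h 2 : ℝ) * √(1 + x)| ≤ |(h 2 : ℝ)| * (1 + x) := by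
        rw [abs_mul, abs_of_nonneg (Real.sqrt_nonneg _)]
        exact mul_le_mul_of_nonneg_left h7 (abs_nonneg _)
      rw [h6]
      have h10 : |C - h 1 * (4 * Real.arctan x) - h 2 * √(1 + x)| ≤
          |C| + |(h 1 : ℝ) * (4 * Real.arctan x)| + |(h 2 : ℝ) * √(1 + x)| :=
        (abs_sub _ _).trans (add_le_add_left (abs_sub _ _) _)
      have h11 : 0 ≤ |C| + |(h 1 : ℝ)| * 8 := by positivity
      rw [hM]
      nlinarith
    have h5 : Real.exp x ≤ |(h 0 : ℝ)| * Real.exp x :=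
      le_mul_of_one_le_left (Real.exp_pos x).le h1
    have h6 : x ^ 2 / 2 = 8 * (M + 1) ^ 2 := by
      rw [hx]
      ring
    nlinarith
  have e2 : h 2 = 0 := by
    by_contra h2
    have h1 := one_le_of_ne h2
    obtain ⟨x, hx⟩ : ∃ x : ℝ, x = (M + 1) ^ 2 - 1 := ⟨_, rfl⟩
    have hx0 : 0 ≤ x := by nlinarith
    have h3 := hall x hx0
    rw [e0, Int.cast_zero, zero_mul, zero_add] at h3
    have h4 : √(1 + x) = M + 1 := by
      rw [hx, add_sub_cancel, Real.sqrt_sq (by linarith)]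
    rw [h4] at h3
    have h5 : |(h 2 : ℝ)| * (M + 1) ≤ M := by
      have h6 : (h 2 : ℝ) * (M + 1) = C - h 1 * (4 * Real.arctan x) := by linarith
      have h7 : |(h 2 : ℝ)| * (M + 1) = |C - h 1 * (4 * Real.arctan x)| := by
        rw [← h6, abs_mul, abs_of_pos (by linarith : (0 : ℝ) < M + 1)]
      have h8 : |(h 1 : ℝ) * (4 * Real.arctan x)| ≤ |(h 1 : ℝ)| * 8 := by
        rw [abs_mul]
        exact mul_le_mul_of_nonneg_left (harc x) (abs_nonneg _)
      have h9 := abs_sub C (h 1 * (4 * Real.arctan x))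
      rw [h7, hM]
      have := abs_nonneg (h 2 : ℝ)
      linarith
    nlinarith
  have e1 : h 1 = 0 := by
    have h3 := hall 0 le_rfl
    have h4 := hall 1 zero_le_one
    rw [e0, e2, Int.cast_zero, zero_mul, zero_add, zero_mul, add_zero] at h3 h4
    rw [Real.arctan_zero] at h3
    rw [Real.arctan_one] at h4
    have h5 : (h 1 : ℝ) * Real.pi = 0 := by linarith
    rcases mul_eq_zero.1 h5 with h6 | h6
    · exact_mod_cast h6
    · exact absurd h6 Real.pi_ne_zero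
  apply hh
  funext i
  fin_cases i
  · exact e0
  · exact e1
  · exact e2

lemma F3_alg (q : ℚ) (hq : -1 < q) (i : Fin 3) (k : ℕ) (hk : 1 ≤ k) :
    IsAlgebraic (IntermediateField.adjoin ℚ ({Real.exp 1} : Set ℝ))
      (iteratedDeriv k (F3 i) (q : ℝ)) := by
  have hqR : (-1 : ℝ) < q := by exact_mod_cast hq
  obtain ⟨k, rfl⟩ : ∃ j, k = j + 1 := ⟨k - 1, by omega⟩
  fin_cases i
  · have h1 : iteratedDeriv (k + 1) (F3 0) (q : ℝ) = Real.exp q := iter_exp _ _
    show IsAlgebraic _ (iteratedDeriv (k + 1) (F3 0) (q : ℝ))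
    rw [h1]
    have h2 : (Real.exp q) ^ q.den = (Real.exp 1) ^ q.num := by
      rw [← Real.exp_nat_mul, ← Real.rpow_intCast, Real.exp_one_rpow]
      congr 1
      have h3 := Rat.den_mul_eq_num q
      exact_mod_cast h3
    refine IsAlgebraic.of_pow (n := q.den) q.den_pos ?_
    rw [h2]
    have h5 : Real.exp 1 ^ q.num ∈ IntermediateField.adjoin ℚ ({Real.exp 1} : Set ℝ) :=
      zpow_mem (IntermediateField.subset_adjoin ℚ _ (Set.mem_singleton _)) _
    exact isAlgebraic_algebraMap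
      (⟨_, h5⟩ : IntermediateField.adjoin ℚ ({Real.exp 1} : Set ℝ))
  · have h1 : iteratedDeriv (k + 1) (F3 1) (q : ℝ) =
        4 * (Polynomial.aeval (q : ℝ) (pq k) / (1 + (q : ℝ) ^ 2) ^ (k + 1)) := iter_arctan k q
    show IsAlgebraic _ (iteratedDeriv (k + 1) (F3 1) (q : ℝ))
    rw [h1]
    have h2 : Polynomial.aeval (q : ℝ) (pq k) = (((pq k).eval q : ℚ) : ℝ) := by
      have h3 := Polynomial.aeval_algebraMap_apply ℝ q (pq k)
      rw [Polynomial.coe_aeval_eq_eval] at h3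
      exact h3
    rw [h2]
    have h3 : 4 * ((((pq k).eval q : ℚ) : ℝ) / (1 + (q : ℝ) ^ 2) ^ (k + 1)) =
        ((4 * ((pq k).eval q / (1 + q ^ 2) ^ (k + 1)) : ℚ) : ℝ) := by
      push_cast
      ring
    rw [h3]
    exact alg_of _ (alg_rat _)
  · have h1 : iteratedDeriv (k + 1) (F3 2) (q : ℝ) =
        (sq' (k + 1) : ℝ) * √(1 + (q : ℝ)) / (1 + (q : ℝ)) ^ (k + 1) := iter_sqrt (k + 1) q hqR
    show IsAlgebraic _ (iteratedDeriv (k + 1) (F3 2) (q : ℝ))
    rw [h1]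
    have h2 : (sq' (k + 1) : ℝ) * √(1 + (q : ℝ)) / (1 + (q : ℝ)) ^ (k + 1) =
        ((sq' (k + 1) / (1 + q) ^ (k + 1) : ℚ) : ℝ) * √((1 + q : ℚ) : ℝ) := by
      push_cast
      ring
    rw [h2]
    exact alg_of _ ((alg_rat _).mul (alg_sqrt _ (by linarith)))

theorem conc_F3 (q : ℚ) (hq : -1 < q) : Conc F3 (q : ℝ) := by
  have hqR : (-1 : ℝ) < q := by exact_mod_cast hq
  refine conc_of (fun i => F3_analytic hqR i) (tame_alg measR_e F3 q (fun h hh => ?_)
    (fun i k hk => F3_alg q hq i k hk))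
  exact deriv_ne F3 q (fun i => F3_analytic hqR i) h (F3_ind hqR h hh)

/-- two independent numbers, divided by `m` -/
theorem conc_lin {t : ℝ} (ht : MeasR t) {R : ℕ} (α : Fin R → ℝ)
    (ha : ∀ i, IsAlgebraic (IntermediateField.adjoin ℚ ({t} : Set ℝ)) (α i))
    (hli : ∀ h : Fin R → ℤ, h ≠ 0 → ∑ i, (h i : ℝ) * α i ≠ 0) :
    Conc (fun i x => α i * x) 0 := by
  have hder : ∀ (a : ℝ) (k : ℕ), iteratedDeriv (k + 1) (fun x : ℝ => a * x) 0 =
      if k = 0 then a else 0 := by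
    intro a k
    rw [iteratedDeriv_succ']
    have h1 : deriv (fun x : ℝ => a * x) = fun _ => a := by
      funext x
      rw [deriv_const_mul_field, deriv_id'', mul_one]
    rw [h1]
    rcases Nat.eq_zero_or_pos k with hk | hk
    · subst hk
      simp
    · rw [if_neg (by omega)]
      obtain ⟨k, rfl⟩ : ∃ j, k = j + 1 := ⟨k - 1, by omega⟩
      rw [iteratedDeriv_succ']
      simp
  refine conc_of (fun i => by fun_prop) (tame_alg ht _ 0 (fun h hh => ⟨1, le_rfl, ?_⟩) ?_)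
  · have h1 := hli h hh
    have h2 : ∀ i, iteratedDeriv 1 (fun x : ℝ => α i * x) 0 = α i := fun i => by
      rw [hder (α i) 0, if_pos rfl]
    simp only [h2]
    exact h1
  · intro i k hk
    obtain ⟨k, rfl⟩ : ∃ j, k = j + 1 := ⟨k - 1, by omega⟩
    rw [hder]
    split_ifs
    · exact ha i
    · exact isAlgebraic_zero

/-- a transcendental number and `√2` -/
theorem ind_sqrt {t : ℝ} (ht : Transcendental ℚ t) (h : Fin 2 → ℤ) (hh : h ≠ 0) :
    ∑ i, (h i : ℝ) * (![t, √2] : Fin 2 → ℝ) i ≠ 0 := by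
  intro h0
  rw [Fin.sum_univ_two] at h0
  simp only [Matrix.cons_val_zero, Matrix.cons_val_one] at h0
  have hs : (0 : ℝ) < √2 := by positivity
  by_cases h1 : h 0 = 0
  · rw [h1, Int.cast_zero, zero_mul, zero_add] at h0
    have h2 : h 1 = 0 := by
      rcases mul_eq_zero.1 h0 with h3 | h3
      · exact_mod_cast h3
      · exact absurd h3 hs.ne'
    apply hh
    funext i
    fin_cases i
    · exact h1
    · exact h2
  · apply ht
    have h2 : (h 0 : ℝ) ≠ 0 := by exact_mod_cast h1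
    have h3 : t = ((-(h 1 : ℚ) / (h 0 : ℚ) : ℚ) : ℝ) * √((2 : ℚ) : ℝ) := by
      push_cast
      field_simp
      linarith
    rw [h3]
    exact (alg_rat _).mul (alg_sqrt _ (by norm_num))

end Pool.Agent.W2helper30.PN
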