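import Pool.Agent.W2helper30.PN.Nt

/-!
# All tuples of small linear forms at the same time
-/

set_option autoImplicit false

namespace Pool.Agent.W2helper30.PN

open Finset Real Filter
open Pool.Agent.N586.JT (NwT)

open Classical in
/-- all bases -/
theorem nt_bases {R : ℕ} (f : Fin R → ℝ → ℝ) (x0 A P : ℝ) (hF : Fam f x0 A P) (K E : ℕ) (c : ℝ)
    (hc : 0 < c) (ht : TameAt f x0 K E c) (δ δ' β β' β2 : ℝ) (hδ : 0 < δ) (hδδ : δ < δ')
    (hβ : 0 < β) (hββ : β < β') (hββ2 : β' < β2) (hδβ : 2 * δ' + β2 < 1) (w r : ℕ) (hr : 1 ≤ r)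
    (ε : ℝ) (hε : 0 < ε) (B : ℕ) :
    ∃ c1 : ℝ, 0 < c1 ∧ ∃ N0 : ℕ, ∀ N : ℕ, N0 ≤ N → ∀ b : ℕ, 2 ≤ b → b ≤ B →
      ∀ (a0 : Fin r → ℤ) (a : Fin r → Fin R → ℤ)
      (v : Fin r → ℕ), Sml (Real.exp ((log N) ^ β)) a0 a v →
      (((Finset.Ioc N (2 * N)).filter (fun m : ℕ => ¬ NwT b w ((log N) ^ (1 + δ)) ε
        ((4 * K + 5) * log N) (lf f x0 a0 a v m))).card : ℝ) ≤
        N * ((log N) ^ (1 + δ) * Real.exp (-(c1 * (log N) ^ β'))) := by
  induction B with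
  | zero => exact ⟨1, one_pos, 0, fun N _ b hb hb0 => by omega⟩
  | succ B ih =>
    obtain ⟨c1, hc1, N0, hN0⟩ := ih
    rcases Nat.lt_or_ge (B + 1) 2 with hB | hB
    · exact ⟨1, one_pos, 0, fun N _ b hb hb0 => by omega⟩
    · obtain ⟨c', hc', N0', hN0'⟩ := nt_one f x0 A P hF K E c hc ht δ δ' β β' β2 hδ hδδ hβ hββ
        hββ2 hδβ w r hr ε hε (B + 1) hB
      refine ⟨min c1 c', lt_min hc1 hc', max N0 N0', fun N hN b hb hbB a0 a v hs => ?_⟩
      have hlog : (0 : ℝ) ≤ Real.log N := Real.log_natCast_nonneg N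
      have hmono : ∀ c'' : ℝ, min c1 c' ≤ c'' →
          (N : ℝ) * ((log N) ^ (1 + δ) * Real.exp (-(c'' * (log N) ^ β'))) ≤
          N * ((log N) ^ (1 + δ) * Real.exp (-(min c1 c' * (log N) ^ β'))) := by
        intro c'' hc''
        have e1 : (0 : ℝ) ≤ (log (N : ℝ)) ^ β' := Real.rpow_nonneg hlog _
        have e2 : (0 : ℝ) ≤ (log (N : ℝ)) ^ (1 + δ) := Real.rpow_nonneg hlog _
        refine mul_le_mul_of_nonneg_left (mul_le_mul_of_nonneg_left ?_ e2) (Nat.cast_nonneg _)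
        apply Real.exp_le_exp.2
        have := mul_le_mul_of_nonneg_right hc'' e1
        linarith
      rcases Nat.lt_or_ge b (B + 1) with hlt | hge
      · exact (hN0 N (le_of_max_le_left hN) b hb (by omega) a0 a v hs).trans
          (hmono c1 (min_le_left _ _))
      · obtain rfl : b = B + 1 := by omega
        exact (hN0' N (le_of_max_le_right hN) a0 a v hs).trans (hmono c' (min_le_right _ _))

lemma card_box (V : ℝ) (hV : 1 ≤ V) :
    ((Finset.Icc (-⌊V⌋) ⌊V⌋).card : ℝ) ≤ 2 * V + 1 := by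
  have h0 : (0 : ℤ) ≤ ⌊V⌋ := Int.floor_nonneg.2 (by linarith)
  have h3 : (((Finset.Icc (-⌊V⌋) ⌊V⌋).card : ℕ) : ℤ) = 2 * ⌊V⌋ + 1 := by
    rw [Int.card_Icc, Int.toNat_of_nonneg (by omega)]
    ring
  have h4 : (((Finset.Icc (-⌊V⌋) ⌊V⌋).card : ℕ) : ℝ) = 2 * (⌊V⌋ : ℝ) + 1 := by exact_mod_cast h3
  rw [h4]
  have := Int.floor_le V
  linarith

open Classical in
/-- **all tuples** -/
theorem nt_all {R : ℕ} (f : Fin R → ℝ → ℝ) (x0 A P : ℝ) (hF : Fam f x0 A P) (K E : ℕ) (c : ℝ)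
    (hc : 0 < c) (ht : TameAt f x0 K E c) (δ β : ℝ) (hδ : 0 < δ) (hβ : 0 < β)
    (hδβ : 2 * δ + β < 1) (B w r : ℕ) (hr : 1 ≤ r) (ε : ℝ) (hε : 0 < ε) :
    ∃ N0 : ℕ, ∀ N : ℕ, N0 ≤ N →
      (((Finset.Ioc N (2 * N)).filter (fun m : ℕ => ¬ ∀ (b : ℕ) (a0 : Fin r → ℤ)
        (a : Fin r → Fin R → ℤ) (v : Fin r → ℕ), 2 ≤ b → b ≤ B →
        Sml (Real.exp ((log N) ^ β)) a0 a v → NwT b w ((log N) ^ (1 + δ)) ε
        ((4 * K + 5) * log N) (lf f x0 a0 a v m))).card : ℝ) ≤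
        N * Real.exp (-(log N) ^ β) := by
  obtain ⟨γ, hγ⟩ : ∃ γ : ℝ, γ = (1 - 2 * δ - β) / 8 := ⟨_, rfl⟩
  have hγ0 : 0 < γ := by rw [hγ]; linarith
  obtain ⟨β', hβ'⟩ : ∃ β' : ℝ, β' = β + γ := ⟨_, rfl⟩
  obtain ⟨c1, hc1, M1, hM1⟩ := nt_bases f x0 A P hF K E c hc ht δ (δ + γ) β β' (β + 2 * γ) hδ
    (by linarith) hβ (by linarith) (by linarith) (by rw [hγ]; linarith) w r hr ε hε B
  have hRR : (0 : ℝ) ≤ R := Nat.cast_nonneg R
  have hrR : (1 : ℝ) ≤ r := by exact_mod_cast hr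
  have hBR : (0 : ℝ) ≤ B := Nat.cast_nonneg B
  have hββ : β < β' := by linarith
  obtain ⟨M2, hM2⟩ := eventually_atTop.1 ((((lpow hββ
    ((log (B + 1) + (2 * R + 3) * r + (1 + δ) + 1) / c1)).and
    (ev_loge 1)).and (eventually_ge_atTop 2)).and (lpow hβ 2))
  have hll : ∀ᶠ M : ℕ in atTop, log (log M) ≤ (log M) ^ β := by
    have hlog : Tendsto (fun N : ℕ => log (N : ℝ)) atTop atTop :=
      Real.tendsto_log_atTop.comp tendsto_natCast_atTop_atTop
    have h1 := (isLittleO_log_rpow_atTop hβ).bound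
      (by norm_num : (0 : ℝ) < 1)
    filter_upwards [hlog.eventually h1, ev_loge 1] with M h2 h3
    rw [one_mul, Real.norm_eq_abs, Real.norm_eq_abs] at h2
    rw [abs_of_nonneg (Real.rpow_nonneg (by linarith) β)] at h2
    exact (le_abs_self _).trans h2
  obtain ⟨M3, hM3⟩ := eventually_atTop.1 hll
  refine ⟨max (max M1 M2) M3, fun N hN => ?_⟩
  have hNM1 : M1 ≤ N := le_of_max_le_left (le_of_max_le_left hN)
  obtain ⟨⟨⟨hb, hL1⟩, hN2⟩, hv⟩ := hM2 N (le_of_max_le_right (le_of_max_le_left hN))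
  have hcl := hM3 N (le_of_max_le_right hN)
  have hG := hM1 N hNM1
  have hNR : (2 : ℝ) ≤ N := by exact_mod_cast hN2
  have hNp : (0 : ℝ) < N := by linarith
  obtain ⟨L, hL⟩ : ∃ L : ℝ, L = Real.log N := ⟨_, rfl⟩
  rw [← hL] at hb hL1 hcl hG hv ⊢
  rw [Real.rpow_zero, mul_one] at hv
  have hL0 : 0 < L := by linarith
  obtain ⟨V, hV⟩ : ∃ V : ℝ, V = Real.exp (L ^ β) := ⟨_, rfl⟩
  rw [← hV] at hG ⊢
  have hV1 : 1 ≤ V := by
    rw [hV]
    exact Real.one_le_exp (by positivity)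
  have hV0 : 0 < V := by linarith
  have h3V : 2 * V + 1 ≤ V ^ 2 := by
    have h1 : (3 : ℝ) ≤ V := by
      rw [hV]
      have := Real.add_one_le_exp (L ^ β)
      linarith
    nlinarith
  obtain ⟨T, hT⟩ : ∃ T : ℝ, T = L ^ (1 + δ) := ⟨_, rfl⟩
  rw [← hT] at hG ⊢
  have hT0 : 0 < T := by rw [hT]; positivity
  obtain ⟨Q, hQ⟩ : ∃ Q : ℝ, Q = N * (T * Real.exp (-(c1 * L ^ β'))) := ⟨_, rfl⟩
  have hQ0 : 0 ≤ Q := by rw [hQ]; positivity
  set S : Finset ((((Fin r → ℤ) × (Fin r → Fin R → ℤ)) × (Fin r → ℕ)) × ℕ) :=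
    (((Fintype.piFinset fun _ => Finset.Icc (-⌊V⌋) ⌊V⌋) ×ˢ
      (Fintype.piFinset fun _ => Fintype.piFinset fun _ => Finset.Icc (-⌊V⌋) ⌊V⌋)) ×ˢ
      (Fintype.piFinset fun _ => Finset.Icc 1 ⌊V⌋₊)) ×ˢ Finset.range (B + 1) with hS
  set bad : ((((Fin r → ℤ) × (Fin r → Fin R → ℤ)) × (Fin r → ℕ)) × ℕ) → Finset ℕ := fun z =>
    (Finset.Ioc N (2 * N)).filter (fun m : ℕ => Sml V z.1.1.1 z.1.1.2 z.1.2 ∧ 2 ≤ z.2 ∧ z.2 ≤ B ∧
      ¬ NwT z.2 w T ε ((4 * K + 5) * L) (lf f x0 z.1.1.1 z.1.1.2 z.1.2 m)) with hbad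
  have hsub : (Finset.Ioc N (2 * N)).filter (fun m : ℕ => ¬ ∀ (b : ℕ) (a0 : Fin r → ℤ)
        (a : Fin r → Fin R → ℤ) (v : Fin r → ℕ), 2 ≤ b → b ≤ B →
        Sml V a0 a v → NwT b w T ε ((4 * K + 5) * L) (lf f x0 a0 a v m)) ⊆ S.biUnion bad := by
    intro m hm
    rw [Finset.mem_filter] at hm
    obtain ⟨hm1, hm2⟩ := hm
    simp only [not_forall] at hm2
    obtain ⟨b, a0, a, v, hb2, hbB, hsml, hno⟩ := hm2
    rw [Finset.mem_biUnion]
    refine ⟨(((a0, a), v), b), ?_, ?_⟩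
    · rw [hS, Finset.mem_product, Finset.mem_product, Finset.mem_product]
      refine ⟨⟨⟨?_, ?_⟩, ?_⟩, ?_⟩
      · rw [Fintype.mem_piFinset]
        intro j
        rw [Finset.mem_Icc, ← abs_le]
        refine Int.le_floor.2 ?_
        push_cast
        exact hsml.h0 j
      · rw [Fintype.mem_piFinset]
        intro j
        rw [Fintype.mem_piFinset]
        intro i
        rw [Finset.mem_Icc, ← abs_le]
        refine Int.le_floor.2 ?_
        push_cast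
        exact hsml.h1 j i
      · rw [Fintype.mem_piFinset]
        intro j
        rw [Finset.mem_Icc]
        exact ⟨hsml.v1 j, Nat.le_floor (hsml.v2 j)⟩
      · rw [Finset.mem_range]
        simp only
        omega
    · rw [hbad]
      simp only [Finset.mem_filter]
      exact ⟨hm1, hsml, hb2, hbB, hno⟩
  have hone : ∀ z ∈ S, ((bad z).card : ℝ) ≤ Q := by
    intro z _
    by_cases hz : Sml V z.1.1.1 z.1.1.2 z.1.2 ∧ 2 ≤ z.2 ∧ z.2 ≤ B
    · obtain ⟨hz1, hz2, hz3⟩ := hz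
      have key := hG z.2 hz2 hz3 z.1.1.1 z.1.1.2 z.1.2 hz1
      rw [← hQ] at key
      refine le_trans (Nat.cast_le.2 (Finset.card_le_card fun m hm => ?_)) key
      rw [hbad] at hm
      simp only [Finset.mem_filter] at hm
      rw [Finset.mem_filter]
      exact ⟨hm.1, hm.2.2.2.2⟩
    · have h1 : bad z = ∅ := by
        rw [hbad]
        simp only
        rw [Finset.filter_eq_empty_iff]
        rintro m _ ⟨h2, h3, h4, _⟩
        exact hz ⟨h2, h3, h4⟩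
      rw [h1, Finset.card_empty, Nat.cast_zero]
      exact hQ0
  have hbox := card_box V hV1
  have hScard : ((S.card : ℕ) : ℝ) ≤ (B + 1) * V ^ ((2 * R + 3) * r) := by
    rw [hS, Finset.card_product, Finset.card_product, Finset.card_product,
      Fintype.card_piFinset_const, Fintype.card_piFinset_const, Fintype.card_piFinset_const,
      Fintype.card_piFinset_const, Nat.card_Icc, Nat.add_sub_cancel, Finset.card_range]
    push_cast
    have h2 := Nat.floor_le (by linarith : (0 : ℝ) ≤ V)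
    have h3 : ((Finset.Icc (-⌊V⌋) ⌊V⌋).card : ℝ) ≤ V ^ 2 := hbox.trans h3V
    calc ((Finset.Icc (-⌊V⌋) ⌊V⌋).card : ℝ) ^ r * (((Finset.Icc (-⌊V⌋) ⌊V⌋).card : ℝ) ^ R) ^ r *
          (⌊V⌋₊ : ℝ) ^ r * (B + 1) ≤ (V ^ 2) ^ r * ((V ^ 2) ^ R) ^ r * V ^ r * (B + 1) := by
          gcongr
      _ = _ := by ring
  have hfin : (B + 1) * V ^ ((2 * R + 3) * r) * (T * Real.exp (-(c1 * L ^ β'))) ≤
      Real.exp (-L ^ β) := by
    have e1 : V ^ ((2 * R + 3) * r) = Real.exp ((2 * R + 3) * r * L ^ β) := by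
      rw [hV, ← Real.exp_nat_mul]
      congr 1
      push_cast
      ring
    have e2 : T = Real.exp ((1 + δ) * Real.log L) := by
      rw [hT, Real.rpow_def_of_pos hL0]
      congr 1
      ring
    have e3 : ((B : ℝ) + 1) = Real.exp (log (B + 1)) := by
      rw [Real.exp_log (by linarith)]
    calc (B + 1) * V ^ ((2 * R + 3) * r) * (T * Real.exp (-(c1 * L ^ β')))
        = Real.exp (log (B + 1) + (2 * R + 3) * r * L ^ β + (1 + δ) * Real.log L +
          -(c1 * L ^ β')) := by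
          rw [e1, e2, Real.exp_add, Real.exp_add, Real.exp_add, ← e3]
          ring
      _ ≤ _ := by
          apply Real.exp_le_exp.2
          have h1 : (1 + δ) * Real.log L ≤ (1 + δ) * L ^ β := by gcongr
          have h2 : (log (B + 1) + (2 * R + 3) * r + (1 + δ) + 1) * L ^ β ≤ c1 * L ^ β' := by
            have h3 : (log ((B : ℝ) + 1) + (2 * R + 3) * r + (1 + δ) + 1) * L ^ β =
                c1 * ((log (B + 1) + (2 * R + 3) * r + (1 + δ) + 1) / c1 * L ^ β) := by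
              field_simp
            rw [h3]
            exact mul_le_mul_of_nonneg_left hb hc1.le
          have h4 : (1 : ℝ) ≤ L ^ β := Real.one_le_rpow hL1 hβ.le
          have h5 : log ((B : ℝ) + 1) ≤ log (B + 1) * L ^ β :=
            le_mul_of_one_le_right (Real.log_nonneg (by linarith)) h4
          linarith
  calc _ ≤ ((S.biUnion bad).card : ℝ) := by exact_mod_cast Finset.card_le_card hsub
    _ ≤ ∑ z ∈ S, ((bad z).card : ℝ) := by exact_mod_cast Finset.card_biUnion_le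
    _ ≤ ∑ _z ∈ S, Q := sum_le_sum hone
    _ = (S.card : ℝ) * Q := by rw [sum_const, nsmul_eq_mul]
    _ ≤ ((B + 1) * V ^ ((2 * R + 3) * r)) * (N * (T * Real.exp (-(c1 * L ^ β')))) := by
        rw [hQ]
        gcongr
    _ = N * ((B + 1) * V ^ ((2 * R + 3) * r) * (T * Real.exp (-(c1 * L ^ β')))) := by ring
    _ ≤ _ := by gcongr

end Pool.Agent.W2helper30.PN
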