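import Pool.Agent.W2helper30.PN.Tn
import Pool.Agent.N586.RT.Zs

/-!
# Sums with local phases of the right size in a window

This follows `Pool.Agent.N586.RT.Zs`.
-/

set_option autoImplicit false

namespace Pool.Agent.W2helper30.PN

open Finset Pool.Agent.Y957.VK
open Pool.Agent.N586.RT (ph shift)
open Pool.Agent.N586.AN (t_vm)

theorem zsw (D : ℝ) (hD : 1 ≤ D) : ∃ C : ℝ, 0 ≤ C ∧
    ∀ (N N' : ℕ) (κ R : ℝ) (g : ℕ → ℂ) (a : ℕ → ℕ → ℝ),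
    2 ≤ N → N ≤ N' → N' ≤ 2 * N → 1 / 2 ≤ κ → 0 ≤ R → (∀ n, ‖g n‖ ≤ 1) →
    (∀ n ∈ Finset.Ioc N N', AdmW D N κ (⌈5 * κ⌉₊ + 5) (a n)) →
    (∀ n ∈ Finset.Ioc N N', ∀ h : ℕ, (h : ℝ) ≤ (N : ℝ) ^ (4 / 5 : ℝ) →
      ‖g (n + h) - g n * ph (⌈5 * κ⌉₊ + 5) (a n) h‖ ≤
        R * ((N : ℝ) ^ κ * ((h : ℝ) / N) ^ (⌈5 * κ⌉₊ + 5 + 1))) →
    ‖∑ n ∈ Finset.Ioc N N', g n‖ ≤
      (C + R) * (N : ℝ) ^ (1 - 1 / 10 ^ 10 / (1 + κ) ^ 2 : ℝ) := by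
  obtain ⟨C, hC, hT⟩ := t_tnw t_vm D hD
  refine ⟨C + 2, by linarith, fun N N' κ R g a hN hNN hN2 hκ hR hg hadm happ => ?_⟩
  have hN1 : (1 : ℝ) ≤ N := by exact_mod_cast (by omega : 1 ≤ N)
  have hNp : (0 : ℝ) < N := by linarith
  obtain ⟨x, hx⟩ : ∃ x : ℝ, x = (N : ℝ) ^ (2 / 5 : ℝ) := ⟨_, rfl⟩
  have hx1 : 1 ≤ x := by
    rw [hx]
    exact Real.one_le_rpow hN1 (by norm_num)
  obtain ⟨M, hM⟩ : ∃ M : ℕ, M = ⌊(N : ℝ) ^ (2 / 5 : ℝ)⌋₊ := ⟨_, rfl⟩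
  rw [← hx] at hM
  have hM1 : 1 ≤ M := by
    rw [hM]
    exact Nat.le_floor (by simpa using hx1)
  have hM1' : (1 : ℝ) ≤ M := by exact_mod_cast hM1
  have hMx : (M : ℝ) ≤ x := by
    rw [hM]
    exact Nat.floor_le (by linarith)
  have hxM : x ≤ 2 * M := by
    have h1 := Nat.lt_floor_add_one x
    rw [← hM] at h1
    linarith
  have hM2 : (M : ℝ) ^ 2 ≤ (N : ℝ) ^ (4 / 5 : ℝ) := by
    calc (M : ℝ) ^ 2 ≤ x ^ 2 := pow_le_pow_left₀ (by positivity) hMx 2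
      _ = (N : ℝ) ^ (4 / 5 : ℝ) := by
        rw [hx, ← Real.rpow_natCast, ← Real.rpow_mul hNp.le]
        norm_num
  obtain ⟨r, hr⟩ : ∃ r : ℕ, r = ⌈5 * κ⌉₊ + 5 := ⟨_, rfl⟩
  rw [← hr] at hadm happ
  have hr5 : 5 * κ + 5 ≤ (r : ℝ) := by
    rw [hr]
    push_cast
    linarith [Nat.le_ceil (5 * κ)]
  obtain ⟨η, hη⟩ : ∃ η : ℝ, η = 1 / 10 ^ 10 / (1 + κ) ^ 2 := ⟨_, rfl⟩
  have hκ1 : 1 ≤ 1 + κ := by linarith
  have hη1 : η ≤ 1 / 10 := by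
    rw [hη]
    refine le_trans (div_le_self (by norm_num) ?_) (by norm_num)
    exact one_le_pow₀ hκ1
  -- the error of the approximation
  have h5 : (M : ℝ) ^ 2 / N ≤ (N : ℝ) ^ (-(1 / 5) : ℝ) := by
    rw [div_le_iff₀ hNp]
    refine hM2.trans (le_of_eq ?_)
    conv_rhs => rw [← Real.rpow_one (N : ℝ), ← Real.rpow_mul hNp.le, one_mul, ← Real.rpow_add hNp]
    norm_num
  have happ' : ∀ n ∈ Finset.Ioc N N', ∀ x ∈ Finset.Icc 1 M, ∀ y ∈ Finset.Icc 1 M,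
      ‖g (n + x * y) - g n * ph r (a n) ((x : ℝ) * y)‖ ≤ R * (N : ℝ) ^ (-(6 / 5) : ℝ) := by
    intro n hn x hx y hy
    have hx' : (x : ℝ) ≤ M := by exact_mod_cast (Finset.mem_Icc.1 hx).2
    have hy' : (y : ℝ) ≤ M := by exact_mod_cast (Finset.mem_Icc.1 hy).2
    have hxy : (x : ℝ) * y ≤ (M : ℝ) ^ 2 := by
      rw [sq]
      exact mul_le_mul hx' hy' (by positivity) (by positivity)
    have h1 := happ n hn (x * y) (by push_cast; exact hxy.trans hM2)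
    push_cast at h1
    refine h1.trans (mul_le_mul_of_nonneg_left ?_ hR)
    have h6 : ((x : ℝ) * y / N) ^ (r + 1) ≤ (N : ℝ) ^ (-(κ + 6 / 5)) := by
      calc ((x : ℝ) * y / N) ^ (r + 1) ≤ ((N : ℝ) ^ (-(1 / 5) : ℝ)) ^ (r + 1) := by
            refine pow_le_pow_left₀ (by positivity) (le_trans ?_ h5) _
            gcongr
        _ = (N : ℝ) ^ (-(1 / 5) * ((r : ℝ) + 1)) := by
          rw [← Real.rpow_natCast, ← Real.rpow_mul hNp.le]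
          push_cast
          ring_nf
        _ ≤ (N : ℝ) ^ (-(κ + 6 / 5)) :=
          Real.rpow_le_rpow_of_exponent_le hN1 (by linarith)
    calc (N : ℝ) ^ κ * ((x : ℝ) * y / N) ^ (r + 1) ≤ (N : ℝ) ^ κ * (N : ℝ) ^ (-(κ + 6 / 5)) := by
          gcongr
      _ = (N : ℝ) ^ (-(6 / 5) : ℝ) := by
          rw [← Real.rpow_add hNp]
          congr 1
          ring
  have hmain := shift g hg N N' M r a (R * (N : ℝ) ^ (-(6 / 5) : ℝ)) (by positivity) hNN hN2 hM1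
    happ'
  -- the first term
  have hTn : ∀ n ∈ Ioc N N', ‖TT r M (a n)‖ ≤ C * (M : ℝ) ^ 2 * (N : ℝ) ^ (-η) := by
    intro n hn
    have h3 := hT N M κ (2 / 5) (a n) hN hκ hM1 (by norm_num) le_rfl (by linarith)
      (by rw [← hx]; exact hxM) (by rw [← hx]; exact hMx) (by rw [← hr]; exact hadm n hn)
    rw [← hr, ← hη] at h3
    exact h3
  have hsum : ∑ n ∈ Ioc N N', ‖TT r M (a n)‖ ≤
      (N : ℝ) * (C * (M : ℝ) ^ 2 * (N : ℝ) ^ (-η)) := by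
    refine (Finset.sum_le_sum hTn).trans ?_
    rw [Finset.sum_const, Nat.card_Ioc, nsmul_eq_mul]
    refine mul_le_mul_of_nonneg_right ?_ (by positivity)
    exact_mod_cast (by omega : N' - N ≤ N)
  have hpow : (N : ℝ) ^ (1 - η) = N * (N : ℝ) ^ (-η) := by
    rw [sub_eq_add_neg, Real.rpow_add hNp, Real.rpow_one]
  have t1 : 1 / (M : ℝ) ^ 2 * ∑ n ∈ Ioc N N', ‖TT r M (a n)‖ ≤ C * (N : ℝ) ^ (1 - η) := by
    calc 1 / (M : ℝ) ^ 2 * ∑ n ∈ Ioc N N', ‖TT r M (a n)‖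
        ≤ 1 / (M : ℝ) ^ 2 * ((N : ℝ) * (C * (M : ℝ) ^ 2 * (N : ℝ) ^ (-η))) :=
          mul_le_mul_of_nonneg_left hsum (by positivity)
      _ = C * (N : ℝ) ^ (1 - η) := by
        rw [hpow]
        field_simp
  -- the second term
  have t2 : 2 * (M : ℝ) ^ 2 ≤ 2 * (N : ℝ) ^ (1 - η) := by
    refine mul_le_mul_of_nonneg_left (hM2.trans ?_) (by norm_num)
    exact Real.rpow_le_rpow_of_exponent_le hN1 (by linarith)
  -- the third term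
  have t3 : (N : ℝ) * (R * (N : ℝ) ^ (-(6 / 5) : ℝ)) ≤ R * (N : ℝ) ^ (1 - η) := by
    have h6 : (N : ℝ) * (N : ℝ) ^ (-(6 / 5) : ℝ) ≤ (N : ℝ) ^ (1 - η) := by
      nth_rewrite 1 [← Real.rpow_one (N : ℝ)]
      rw [← Real.rpow_add hNp]
      exact Real.rpow_le_rpow_of_exponent_le hN1 (by linarith)
    calc (N : ℝ) * (R * (N : ℝ) ^ (-(6 / 5) : ℝ)) = R * ((N : ℝ) * (N : ℝ) ^ (-(6 / 5) : ℝ)) := by
          ring
      _ ≤ _ := by gcongr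
  rw [← hη]
  calc ‖∑ n ∈ Ioc N N', g n‖
      ≤ C * (N : ℝ) ^ (1 - η) + 2 * (N : ℝ) ^ (1 - η) + R * (N : ℝ) ^ (1 - η) :=
        hmain.trans (add_le_add (add_le_add t1 t2) t3)
    _ = (C + 2 + R) * (N : ℝ) ^ (1 - η) := by ring

end Pool.Agent.W2helper30.PN
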