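import Pool.Agent.W2helper30.PN.Sm
import Pool.Agent.W2helper30.PN.Zs

/-!
# The sums with phases of any size up to `exp ((log N) ^ (1 + δ))`
-/

set_option autoImplicit false

namespace Pool.Agent.W2helper30.PN

open Finset Real Filter
open Pool.Agent.Y933.KD (e norm_e e_add)
open Pool.Agent.Y933.KD.VdC (ev_le)

/-- powers of `log N` -/
lemma lpow {a b : ℝ} (hab : a < b) (K : ℝ) :
    ∀ᶠ N : ℕ in atTop, K * (log N) ^ a ≤ (log N) ^ b := by
  have hlog : Tendsto (fun N : ℕ => log (N : ℝ)) atTop atTop :=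
    Real.tendsto_log_atTop.comp tendsto_natCast_atTop_atTop
  have h3 := ((tendsto_rpow_atTop (sub_pos.2 hab)).comp hlog).eventually_ge_atTop K
  filter_upwards [h3, hlog.eventually_gt_atTop 0] with N h4 h5
  have h6 : (log (N : ℝ)) ^ b = (log N) ^ (b - a) * (log N) ^ a := by
    rw [← Real.rpow_add h5]
    congr 1
    ring
  rw [h6]
  exact mul_le_mul_of_nonneg_right h4 (by positivity)

/-- the sums with large phases -/
theorem sum_big (K0 : ℕ) (P : ℝ) (hP : 0 ≤ P) : ∃ C : ℝ, 0 ≤ C ∧ ∃ N0 : ℕ, ∀ N : ℕ, N0 ≤ N →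
    ∀ (k0 k1 : ℕ) (γ : ℕ → ℝ) (W : ℝ), Dm k0 k1 γ P W → k0 ≤ K0 →
    W ≤ (N : ℝ) ^ (1 / 4 : ℝ) → (N : ℝ) ≤ |γ k0| / (N : ℝ) ^ k0 →
    ∀ κ : ℝ, (N : ℝ) ^ κ = 9 * (|γ k0| / (N : ℝ) ^ k0) * (3 * κ + 3 / 2) ^ (k0 - 1) →
    1 ≤ κ → κ ≤ 2 * log N →
    ‖∑ n ∈ Finset.Ioc N (2 * N), e (fz k0 k1 γ n)‖ ≤
      (C + 2 * (13 * κ) ^ K0) * (N : ℝ) ^ (1 - 1 / 10 ^ 10 / (1 + κ) ^ 2 : ℝ) := by
  obtain ⟨C, hC0, hC⟩ := zsw (DD K0) (DD_ge K0)
  obtain ⟨N1, hN1⟩ := eventually_atTop.1 (((ev_logpow 1 (2 * 26 * (P + 1))).and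
    (ev_le (4 * (26 * (P + 1)) * 1) (1 / 4) (by norm_num))).and ((ev_logpow 2 1).and (ev_loge 1)))
  have hN3 : ∀ᶠ N : ℕ in atTop, log (N : ℝ) ≤ (N : ℝ) ^ (1 / 2 : ℝ) := by
    have h1 := (isLittleO_log_rpow_atTop (by norm_num : (0 : ℝ) < 1 / 2)).bound
      (by norm_num : (0 : ℝ) < 1)
    have h2 := tendsto_natCast_atTop_atTop (R := ℝ) |>.eventually h1
    filter_upwards [h2, eventually_ge_atTop 1] with N h3 h4
    rw [one_mul, Real.norm_eq_abs, Real.norm_eq_abs, abs_of_nonneg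
      (show (0 : ℝ) ≤ (N : ℝ) ^ (1 / 2 : ℝ) by positivity)] at h3
    exact (le_abs_self _).trans h3
  obtain ⟨N3, hN3⟩ := eventually_atTop.1 hN3
  refine ⟨C, hC0, max (max N1 N3) 2, fun N hN k0 k1 γ W h hkK hW hT κ hκ hκ1 hκ2 => ?_⟩
  obtain ⟨⟨ha, hb⟩, hc, hd⟩ := hN1 N (le_of_max_le_left (le_of_max_le_left hN))
  have hl := hN3 N (le_of_max_le_right (le_of_max_le_left hN))
  have hN2 : 2 ≤ N := le_of_max_le_right hN
  have hNR : (2 : ℝ) ≤ N := by exact_mod_cast hN2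
  have hNp : (0 : ℝ) < N := by linarith
  have hW0 := h.W0
  obtain ⟨r, hr⟩ : ∃ r : ℕ, r = ⌈5 * κ⌉₊ + 5 := ⟨_, rfl⟩
  have hr2 : 2 + (r : ℝ) ≤ 13 * κ := by
    rw [hr]
    push_cast
    have := Nat.ceil_lt_add_one (a := 5 * κ) (by linarith)
    linarith
  have hr0 : (0 : ℝ) ≤ r := Nat.cast_nonneg _
  obtain ⟨L, hL⟩ : ∃ L : ℝ, L = log N := ⟨_, rfl⟩
  rw [← hL] at ha hc hd hl hκ2
  rw [pow_one] at ha
  have hrL : 2 + (r : ℝ) ≤ 26 * L := by linarith
  have hx1 : 4 * W * (2 + r) * P ≤ N := by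
    have e1 : (N : ℝ) = (N : ℝ) ^ (1 / 4 : ℝ) * (N : ℝ) ^ (1 / 2 : ℝ) * (N : ℝ) ^ (1 / 4 : ℝ) := by
      rw [← Real.rpow_add hNp, ← Real.rpow_add hNp]
      norm_num
    rw [e1]
    calc 4 * W * (2 + r) * P ≤ 4 * (N : ℝ) ^ (1 / 4 : ℝ) * (26 * L) * (P + 1) := by
          gcongr
          linarith
      _ = (N : ℝ) ^ (1 / 4 : ℝ) * L * (4 * (26 * (P + 1)) * 1) := by ring
      _ ≤ _ := by gcongr
  have hx2 : 2 * (2 + r) * P ≤ N := by
    calc 2 * (2 + r) * P ≤ 2 * (26 * L) * (P + 1) := by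
          gcongr
          linarith
      _ = 2 * 26 * (P + 1) * L := by ring
      _ ≤ N := ha
  have hx3 : 4 * W * (1 + r) * P ≤ N := by
    refine le_trans ?_ hx1
    gcongr
    norm_num
  have hx4 : 2 * (1 + r) * P ≤ N := by
    refine le_trans ?_ hx2
    gcongr
    norm_num
  have key := hC N (2 * N) κ (2 * (2 + r) ^ K0) (fun n => e (fz k0 k1 γ n)) (lc k0 k1 γ) hN2
    (by omega) le_rfl (by linarith) (by positivity) (fun n => (norm_e _).le)
    (fun n hn => by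
      rw [← hr]
      exact adm_lc h hkK (by omega) hx3 hx4 (by linarith) hκ hn)
    (fun n hn s _ => by
      rw [← hr]
      exact approx_fz h hkK (by omega) hx1 hx2 (by linarith) hκ hn s)
  refine key.trans (mul_le_mul_of_nonneg_right ?_ (by positivity))
  gcongr

/-- **the sums with phases of all sizes** -/
theorem sum_all (K0 : ℕ) (P δ β δ0 : ℝ) (hP : 0 ≤ P) (hδ : 0 < δ) (hβ : 0 < β)
    (hδβ : 2 * δ + β < 1) (hδ0 : 0 < δ0) : ∃ N0 : ℕ, ∀ N : ℕ, N0 ≤ N →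
    ∀ (k0 k1 : ℕ) (γ : ℕ → ℝ) (W : ℝ), Dm k0 k1 γ P W → k0 ≤ K0 →
    W ≤ (N : ℝ) ^ (1 / 4 : ℝ) → (N : ℝ) ^ δ0 ≤ |γ k0| / (N : ℝ) ^ k0 →
    |γ k0| / (N : ℝ) ^ k0 ≤ Real.exp ((log N) ^ (1 + δ)) →
    ‖∑ n ∈ Finset.Ioc N (2 * N), e (fz k0 k1 γ n)‖ ≤ N * Real.exp (-(log N) ^ β) := by
  obtain ⟨ρ, hρ, N1, h1⟩ := sum_small K0 P δ0 hP hδ0
  obtain ⟨C, hC0, N2, h2⟩ := sum_big K0 P hP
  obtain ⟨N4, h4⟩ := exists_kappa K0
  obtain ⟨N3, h3⟩ := eventually_atTop.1 (((((lpow (by linarith : β < 1) (1 / ρ)).and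
    (lpow (by linarith : β + 2 * δ < 1) (18 * 10 ^ 10))).and
    (lpow (by linarith : (1 + δ : ℝ) < 2) 1)).and
    (lpow hδ 2)).and (((ev_loge (max 1 (26 ^ K0 * 2 + C))).and (lpow hβ (K0 + 1))).and
    (lpow (by linarith : δ < 1) 1)))
  -- `log log N ≤ (log N) ^ β / (K0 + 1)`
  have hll : ∀ᶠ M : ℕ in atTop, (K0 + 1) * log (log M) ≤ (log M) ^ β := by
    have hlog : Tendsto (fun N : ℕ => log (N : ℝ)) atTop atTop :=
      Real.tendsto_log_atTop.comp tendsto_natCast_atTop_atTop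
    have h1 := (isLittleO_log_rpow_atTop hβ).bound
      (by positivity : (0 : ℝ) < 1 / (K0 + 1))
    filter_upwards [hlog.eventually h1, ev_loge 1] with M h2 h3
    rw [Real.norm_eq_abs, Real.norm_eq_abs] at h2
    rw [abs_of_nonneg (Real.rpow_nonneg (by linarith) β)] at h2
    have h5 := (le_abs_self _).trans h2
    calc (K0 + 1) * log (log (M : ℝ)) ≤ (K0 + 1) * (1 / (K0 + 1) * (log (M : ℝ)) ^ β) := by gcongr
      _ = _ := by field_simp
  obtain ⟨N5, h5⟩ := eventually_atTop.1 hll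
  refine ⟨max (max (max N1 N2) (max N3 N4)) (max N5 2), ?_⟩
  intro N hN k0 k1 γ W h hkK hW hT1 hT2
  have hNN1 : N1 ≤ N := le_of_max_le_left (le_of_max_le_left (le_of_max_le_left hN))
  have hNN2 : N2 ≤ N := le_of_max_le_right (le_of_max_le_left (le_of_max_le_left hN))
  have hNN3 : N3 ≤ N := le_of_max_le_left (le_of_max_le_right (le_of_max_le_left hN))
  have hNN4 : N4 ≤ N := le_of_max_le_right (le_of_max_le_right (le_of_max_le_left hN))
  obtain ⟨⟨⟨⟨ha, hb⟩, hc⟩, hd⟩, ⟨hl1, hf⟩, hg'⟩ := h3 N hNN3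
  have hk := h5 N (le_of_max_le_left (le_of_max_le_right hN))
  have hN2 : 2 ≤ N := le_of_max_le_right (le_of_max_le_right hN)
  have hNR : (2 : ℝ) ≤ N := by exact_mod_cast hN2
  have hNp : (0 : ℝ) < N := by linarith
  obtain ⟨L, hL⟩ : ∃ L : ℝ, L = log N := ⟨_, rfl⟩
  rw [← hL] at ha hb hc hd hl1 hf hk hT2 hg' ⊢
  have hL1 : 1 ≤ L := (le_max_left _ _).trans hl1
  have hLC : 26 ^ K0 * 2 + C ≤ L := (le_max_right _ _).trans hl1
  have hL0 : 0 < L := lt_of_lt_of_le one_pos hL1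
  rw [Real.rpow_zero, mul_one] at hd hf
  rw [Real.rpow_one] at ha hb hg'
  have hexp : ∀ x : ℝ, (N : ℝ) ^ x = Real.exp (x * L) := by
    intro x
    rw [Real.rpow_def_of_pos hNp, hL, mul_comm]
  obtain ⟨T, hT⟩ : ∃ T : ℝ, T = |γ k0| / (N : ℝ) ^ k0 := ⟨_, rfl⟩
  have hT0 : 0 < T := by
    rw [hT]
    have := abs_pos.2 h.ne
    positivity
  rcases le_or_gt T N with hs | hs
  · refine (h1 N hNN1 k0 k1 γ W h hkK hW hT1 (by rw [← hT]; exact hs)).trans ?_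
    rw [sub_eq_add_neg, Real.rpow_add hNp, Real.rpow_one, hexp]
    refine mul_le_mul_of_nonneg_left (Real.exp_le_exp.2 ?_) hNp.le
    rw [one_div, inv_mul_le_iff₀ hρ] at ha
    linarith
  · have hlT : log T ≤ L ^ (1 + δ) := by
      rw [Real.log_le_iff_le_exp hT0, hT]
      exact hT2
    have hlT2 : log T ≤ (log N) ^ 2 := by
      rw [← hL]
      refine hlT.trans ?_
      rw [one_mul] at hc
      refine hc.trans (le_of_eq ?_)
      norm_cast
    obtain ⟨κ, hκ0, hκ, hκa, hκb⟩ := h4 N hNN4 k0 T hkK (by linarith) hlT2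
    rw [← hL] at hκa hκb
    have hκ1 : 1 ≤ κ := by
      have e1 : L ≤ log T := by
        rw [hL]
        exact Real.log_le_log hNp hs.le
      by_contra hcon
      push Not at hcon
      nlinarith
    -- upper bound
    have hκδ : κ ≤ L ^ δ + 1 := by
      have e1 : κ * L ≤ (L ^ δ + 1) * L := by
        have e2 : L ^ (1 + δ) = L * L ^ δ := by
          rw [Real.rpow_add hL0, Real.rpow_one]
        rw [e2] at hlT
        linarith
      exact le_of_mul_le_mul_right e1 hL0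
    have hκ3 : 1 + κ ≤ 3 * L ^ δ := by linarith
    have hκL : κ ≤ 2 * L := by linarith
    have hκ' := hκ
    rw [hT] at hκ'
    have key := h2 N hNN2 k0 k1 γ W h hkK hW (by rw [← hT]; exact hs.le) κ hκ' hκ1
      (by rw [← hL]; exact hκL)
    refine key.trans ?_
    rw [sub_eq_add_neg, Real.rpow_add hNp, Real.rpow_one, hexp, mul_left_comm]
    refine mul_le_mul_of_nonneg_left ?_ hNp.le
    -- the constant
    have hcon : C + 2 * (13 * κ) ^ K0 ≤ Real.exp (L ^ β) := by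
      have hLL : C + 2 * (13 * κ) ^ K0 ≤ L ^ (K0 + 1) := by
        calc C + 2 * (13 * κ) ^ K0 ≤ C * L ^ K0 + 2 * (13 * (2 * L)) ^ K0 := by
              have e1 : (1 : ℝ) ≤ L ^ K0 := one_le_pow₀ hL1
              have e2 : C ≤ C * L ^ K0 := le_mul_of_one_le_right hC0 e1
              have e3 : (13 * κ) ^ K0 ≤ (13 * (2 * L)) ^ K0 := by gcongr
              linarith
          _ = (26 ^ K0 * 2 + C) * L ^ K0 := by
              have e1 : (13 * (2 * L)) ^ K0 = 26 ^ K0 * L ^ K0 := by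
                rw [← mul_pow]
                ring
              rw [e1]
              ring
          _ ≤ L * L ^ K0 := by gcongr
          _ = _ := by ring
      refine hLL.trans ?_
      calc L ^ (K0 + 1) = Real.exp ((K0 + 1) * log L) := by
            rw [← Real.exp_log (by positivity : 0 < L ^ (K0 + 1)), Real.log_pow]
            push_cast
            rfl
        _ ≤ _ := Real.exp_le_exp.2 hk
    have hsav : 2 * L ^ β ≤ 1 / 10 ^ 10 / (1 + κ) ^ 2 * L := by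
      have h6 : (1 + κ) ^ 2 ≤ 9 * L ^ (2 * δ) := by
        calc (1 + κ) ^ 2 ≤ (3 * L ^ δ) ^ 2 := by gcongr
          _ = 9 * (L ^ δ) ^ 2 := by ring
          _ = 9 * L ^ (2 * δ) := by
              rw [← Real.rpow_natCast, ← Real.rpow_mul hL0.le]
              push_cast
              ring_nf
      rw [div_div, div_mul_eq_mul_div, one_mul, le_div_iff₀ (by positivity)]
      calc 2 * L ^ β * (10 ^ 10 * (1 + κ) ^ 2) ≤ 2 * L ^ β * (10 ^ 10 * (9 * L ^ (2 * δ))) := by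
            gcongr
        _ = 18 * 10 ^ 10 * (L ^ β * L ^ (2 * δ)) := by ring
        _ = 18 * 10 ^ 10 * L ^ (β + 2 * δ) := by rw [Real.rpow_add hL0]
        _ ≤ L := hb
    calc (C + 2 * (13 * κ) ^ K0) * Real.exp (-(1 / 10 ^ 10 / (1 + κ) ^ 2) * L) ≤
        Real.exp (L ^ β) * Real.exp (-(2 * L ^ β)) := by
          refine mul_le_mul hcon (Real.exp_le_exp.2 ?_) (Real.exp_pos _).le (Real.exp_pos _).le
          linarith
      _ = Real.exp (-L ^ β) := by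
          rw [← Real.exp_add]
          congr 1
          ring

end Pool.Agent.W2helper30.PN
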