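import Mathlib

/-!
# The Taylor polynomials of `(1 + z) ^ (-k)`
-/

set_option autoImplicit false

namespace Pool.Agent.W2helper30.PN

open Finset

/-- `k (k + 1) ⋯ (k + j - 1) / j!` -/
noncomputable def bk (k j : ℕ) : ℝ := (Nat.multichoose k j : ℝ)

lemma bk_nonneg (k j : ℕ) : 0 ≤ bk k j := Nat.cast_nonneg _

lemma bk_zero_right (k : ℕ) : bk k 0 = 1 := by simp [bk]

lemma bk_zero_succ (j : ℕ) : bk 0 (j + 1) = 0 := by simp [bk]

lemma bk_succ_succ (k j : ℕ) : bk (k + 1) (j + 1) = bk k (j + 1) + bk (k + 1) j := by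
  unfold bk
  rw [Nat.multichoose_succ_succ]
  push_cast
  ring

lemma bk_one (j : ℕ) : bk 1 j = 1 := by simp [bk]

lemma bk_pos {k : ℕ} (hk : 1 ≤ k) (j : ℕ) : 0 < bk k j := by
  obtain ⟨k, rfl⟩ : ∃ q, k = q + 1 := ⟨k - 1, by omega⟩
  induction j with
  | zero => rw [bk_zero_right]; norm_num
  | succ j ih =>
    rw [bk_succ_succ]
    have := bk_nonneg k (j + 1)
    linarith

lemma bk_succ_left (k j : ℕ) : (k : ℝ) * bk (k + 1) j = (k + j) * bk k j := by
  rcases Nat.eq_zero_or_pos k with rfl | hk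
  · rcases Nat.eq_zero_or_pos j with rfl | hj
    · simp
    · obtain ⟨j, rfl⟩ : ∃ q, j = q + 1 := ⟨j - 1, by omega⟩
      rw [bk_zero_succ]
      simp
  · obtain ⟨k, rfl⟩ : ∃ q, k = q + 1 := ⟨k - 1, by omega⟩
    unfold bk
    rw [Nat.multichoose_eq, Nat.multichoose_eq]
    have e1 : k + 1 + 1 + j - 1 = k + j + 1 := by omega
    have e2 : k + 1 + j - 1 = k + j := by omega
    rw [e1, e2]
    have h1 : (k + j + 1).choose j = (k + j + 1).choose (k + 1) := by
      rw [← Nat.choose_symm_of_eq_add (by omega : k + j + 1 = (k + 1) + j)]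
    have h2 : (k + j).choose j = (k + j).choose k := by
      rw [← Nat.choose_symm_of_eq_add (by omega : k + j = k + j)]
    rw [h1, h2]
    have h3 := Nat.add_one_mul_choose_eq (k + j) k
    have h4 : ((k + j + 1 : ℕ) : ℝ) * ((k + j).choose k : ℝ) =
        ((k + j + 1).choose (k + 1) : ℝ) * ((k + 1 : ℕ) : ℝ) := by exact_mod_cast h3
    push_cast at h4 ⊢
    linarith

lemma bk_ratio {k : ℕ} (hk : 1 ≤ k) (j : ℕ) : bk (k + 1) j ≤ (1 + j) * bk k j := by
  have h := bk_succ_left k j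
  have hkR : (1 : ℝ) ≤ k := by exact_mod_cast hk
  have h0 := bk_nonneg k j
  have hj : (0 : ℝ) ≤ j := Nat.cast_nonneg j
  have h1 : (k : ℝ) * bk (k + 1) j ≤ k * ((1 + j) * bk k j) := by
    rw [h]
    have h2 : (j : ℝ) * bk k j ≤ k * (j * bk k j) := by
      have : 0 ≤ (j : ℝ) * bk k j := by positivity
      nlinarith
    linarith
  exact le_of_mul_le_mul_left h1 (by linarith)

lemma bk_ratio_pow {k : ℕ} (hk : 1 ≤ k) (i j : ℕ) : bk (k + i) j ≤ (1 + j) ^ i * bk k j := by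
  induction i with
  | zero => simp
  | succ i ih =>
    calc bk (k + (i + 1)) j ≤ (1 + j) * bk (k + i) j := bk_ratio (show 1 ≤ k + i by omega) j
      _ ≤ (1 + j) * ((1 + j) ^ i * bk k j) := by gcongr
      _ = _ := by ring

lemma bk_le (k j : ℕ) : bk (k + 1) j ≤ (1 + j) ^ k := by
  have h := bk_ratio_pow le_rfl k j
  rw [bk_one, mul_one, add_comm 1 k] at h
  exact h

lemma bk_ge (k j : ℕ) : (1 + (j : ℝ)) ^ k ≤ k.factorial * bk (k + 1) j := by
  induction k with
  | zero => simp [bk_one]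
  | succ k ih =>
    have h := bk_succ_left (k + 1) j
    have h0 := bk_nonneg (k + 1) j
    have hk : (0 : ℝ) ≤ k := Nat.cast_nonneg k
    have h1 : (1 + (j : ℝ)) * bk (k + 1) j ≤ ((k + 1 : ℕ) : ℝ) * bk (k + 1 + 1) j := by
      rw [h]
      push_cast
      nlinarith
    calc (1 + (j : ℝ)) ^ (k + 1) = (1 + j) * (1 + (j : ℝ)) ^ k := by ring
      _ ≤ (1 + j) * (k.factorial * bk (k + 1) j) := by gcongr
      _ = k.factorial * ((1 + j) * bk (k + 1) j) := by ring
      _ ≤ k.factorial * (((k + 1 : ℕ) : ℝ) * bk (k + 1 + 1) j) := by gcongr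
      _ = _ := by
        rw [Nat.factorial_succ]
        push_cast
        ring

lemma bk_succ_right (k j : ℕ) : ((j : ℝ) + 1) * bk k (j + 1) = (k + j) * bk k j := by
  rcases Nat.eq_zero_or_pos k with rfl | hk
  · rcases Nat.eq_zero_or_pos j with rfl | hj
    · simp [bk]
    · obtain ⟨j, rfl⟩ : ∃ q, j = q + 1 := ⟨j - 1, by omega⟩
      rw [bk_zero_succ, bk_zero_succ]
      simp
  · obtain ⟨k, rfl⟩ : ∃ q, k = q + 1 := ⟨k - 1, by omega⟩
    unfold bk
    rw [Nat.multichoose_eq, Nat.multichoose_eq]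
    have e1 : k + 1 + (j + 1) - 1 = k + j + 1 := by omega
    have e2 : k + 1 + j - 1 = k + j := by omega
    rw [e1, e2]
    have h3 := Nat.add_one_mul_choose_eq (k + j) j
    have h4 : ((k + j + 1 : ℕ) : ℝ) * ((k + j).choose j : ℝ) =
        ((k + j + 1).choose (j + 1) : ℝ) * ((j + 1 : ℕ) : ℝ) := by exact_mod_cast h3
    push_cast at h4 ⊢
    linarith

lemma one_le_bk {k : ℕ} (hk : 1 ≤ k) (j : ℕ) : 1 ≤ bk k j := by
  have h := bk_pos hk j
  unfold bk at h ⊢
  exact_mod_cast h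

/-- the Taylor polynomial of `(1 + z) ^ (-k)` of degree `r` -/
noncomputable def tp (k r : ℕ) (z : ℝ) : ℝ := ∑ j ∈ range (r + 1), (-1) ^ j * bk k j * z ^ j

lemma tp_succ (k r : ℕ) (z : ℝ) :
    tp k (r + 1) z = tp k r z + (-1) ^ (r + 1) * bk k (r + 1) * z ^ (r + 1) := by
  unfold tp
  rw [sum_range_succ _ (r + 1)]

lemma tp_rec (k r : ℕ) (z : ℝ) :
    (1 + z) * tp (k + 1) r z = tp k r z + (-1) ^ r * bk (k + 1) r * z ^ (r + 1) := by
  induction r with
  | zero => simp [tp, bk_zero_right]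
  | succ r ih =>
    rw [tp_succ, tp_succ, mul_add, ih, bk_succ_succ]
    ring

lemma tp_zero (r : ℕ) (z : ℝ) : tp 0 r z = 1 := by
  induction r with
  | zero => simp [tp, bk_zero_right]
  | succ r ih => rw [tp_succ, ih, bk_zero_succ]; ring

/-- the remainder -/
lemma tp_rem (k r : ℕ) {z : ℝ} (hz : 0 ≤ z) :
    |((1 + z) ^ k)⁻¹ - tp k r z| ≤ bk k (r + 1) * z ^ (r + 1) := by
  induction k with
  | zero =>
    rw [tp_zero, bk_zero_succ]
    simp
  | succ k ih =>
    have h1 : (0 : ℝ) < 1 + z := by linarith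
    have h2 : (1 + z) * (((1 + z) ^ (k + 1))⁻¹ - tp (k + 1) r z) =
        (((1 + z) ^ k)⁻¹ - tp k r z) - (-1) ^ r * bk (k + 1) r * z ^ (r + 1) := by
      rw [mul_sub, tp_rec]
      have h3 : (1 + z) * ((1 + z) ^ (k + 1))⁻¹ = ((1 + z) ^ k)⁻¹ := by
        rw [pow_succ]
        field_simp
      rw [h3]
      ring
    have h3 : |(1 + z) * (((1 + z) ^ (k + 1))⁻¹ - tp (k + 1) r z)| ≤
        bk (k + 1) (r + 1) * z ^ (r + 1) := by
      rw [h2]
      refine (abs_sub _ _).trans ?_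
      have h4 : |(-1) ^ r * bk (k + 1) r * z ^ (r + 1)| = bk (k + 1) r * z ^ (r + 1) := by
        rw [abs_mul, abs_mul, abs_pow, abs_neg, abs_one, one_pow, one_mul,
          abs_of_nonneg (bk_nonneg _ _), abs_of_nonneg (by positivity)]
      rw [h4, bk_succ_succ]
      nlinarith
    rw [abs_mul, abs_of_pos h1] at h3
    have h4 := abs_nonneg (((1 + z) ^ (k + 1))⁻¹ - tp (k + 1) r z)
    nlinarith

end Pool.Agent.W2helper30.PN
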