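import Mathlib

/-!
# Taylor series of real analytic functions
-/

set_option autoImplicit false

namespace Pool.Agent.W2helper30.PN

open Finset Filter Topology

/-- the Taylor coefficients -/
noncomputable def tc (f : ℝ → ℝ) (x0 : ℝ) (k : ℕ) : ℝ := iteratedDeriv k f x0 / k.factorial

lemma series {f : ℝ → ℝ} {x0 : ℝ} (hf : AnalyticAt ℝ f x0) : ∃ A P : ℝ, 0 ≤ A ∧ 1 ≤ P ∧
    (∀ k, |tc f x0 k| ≤ A * P ^ k) ∧
    ∀ x, |x| * P ≤ 1 → HasSum (fun k => tc f x0 k * x ^ k) (f (x0 + x)) := by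
  have h1 := hasFPowerSeriesAt_iff.1 hf.hasFPowerSeriesAt
  rw [Metric.eventually_nhds_iff] at h1
  obtain ⟨ε, hε, h1⟩ := h1
  have h2 : ∀ x : ℝ, |x| < ε → HasSum (fun k => tc f x0 k * x ^ k) (f (x0 + x)) := by
    intro x hx
    have h3 := h1 (show dist x 0 < ε by rwa [dist_zero_right, Real.norm_eq_abs])
    simp only [FormalMultilinearSeries.coeff_ofScalars, smul_eq_mul] at h3
    have h4 : (fun k => tc f x0 k * x ^ k) =
        fun n => x ^ n * (iteratedDeriv n f x0 / n.factorial) := by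
      funext n
      unfold tc
      ring
    rw [h4]
    exact h3
  obtain ⟨x1, hx1⟩ : ∃ x1 : ℝ, x1 = min (ε / 2) 1 := ⟨_, rfl⟩
  have hx10 : 0 < x1 := by
    rw [hx1]
    exact lt_min (by positivity) one_pos
  have hx11 : x1 ≤ 1 := by
    rw [hx1]
    exact min_le_right _ _
  have hx12 : x1 < ε := by
    have : x1 ≤ ε / 2 := by
      rw [hx1]
      exact min_le_left _ _
    linarith
  have hs := (h2 x1 (by rwa [abs_of_pos hx10])).summable.abs
  refine ⟨∑' k, |tc f x0 k * x1 ^ k|, 1 / x1, tsum_nonneg fun _ => abs_nonneg _, ?_, ?_, ?_⟩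
  · rw [le_div_iff₀ hx10]
    linarith
  · intro k
    have h3 := hs.le_tsum k (fun j _ => abs_nonneg _)
    rw [abs_mul, abs_of_pos (by positivity : 0 < x1 ^ k)] at h3
    rw [div_pow, one_pow, mul_one_div, le_div_iff₀ (by positivity)]
    exact h3
  · intro x hx
    apply h2
    rw [mul_one_div, div_le_one hx10] at hx
    linarith

/-- finitely many functions -/
structure Fam {R : ℕ} (f : Fin R → ℝ → ℝ) (x0 : ℝ) (A P : ℝ) : Prop where
  A0 : 0 ≤ A
  P1 : 1 ≤ P
  co : ∀ i k, |tc (f i) x0 k| ≤ A * P ^ k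
  sum : ∀ i x, |x| * P ≤ 1 → HasSum (fun k => tc (f i) x0 k * x ^ k) (f i (x0 + x))

lemma fam {R : ℕ} {f : Fin R → ℝ → ℝ} {x0 : ℝ} (hf : ∀ i, AnalyticAt ℝ (f i) x0) :
    ∃ A P : ℝ, Fam f x0 A P := by
  choose A P hA hP hc hs using fun i => series (hf i)
  have hAi : ∀ i, A i ≤ ∑ i, A i := fun i => Finset.single_le_sum (fun j _ => hA j) (mem_univ i)
  have hPi : ∀ i, P i ≤ 1 + ∑ i, P i := fun i => by
    have := Finset.single_le_sum (f := P) (fun j _ => by linarith [hP j]) (mem_univ i)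
    linarith
  refine ⟨∑ i, A i, 1 + ∑ i, P i, sum_nonneg fun i _ => hA i, ?_, ?_, ?_⟩
  · have : 0 ≤ ∑ i, P i := sum_nonneg fun i _ => by linarith [hP i]
    linarith
  · intro i k
    refine (hc i k).trans ?_
    have h1 := hAi i
    have h2 := hPi i
    have h3 := hP i
    have h4 := hA i
    have h5 : 0 ≤ ∑ i, A i := h4.trans h1
    gcongr
  · intro i x hx
    refine hs i x (le_trans ?_ hx)
    have h2 := hPi i
    gcongr

end Pool.Agent.W2helper30.PN
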