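import Pool.Agent.W2helper30.PN.Big
import Pool.Agent.W2helper30.PN.Ser

/-!
# The exponential sums over the values of analytic functions at `x0 + 1 / m`
-/

set_option autoImplicit false

namespace Pool.Agent.W2helper30.PN

open Finset Real Filter Topology
open Pool.Agent.Y933.KD (e norm_e e_add)

lemma cont_e : Continuous e := by
  unfold Pool.Agent.Y933.KD.e
  fun_prop

/-- the limit of the phases -/
lemma fz_lim {R : ℕ} {f : Fin R → ℝ → ℝ} {x0 A P : ℝ} (hF : Fam f x0 A P) (g : Fin R → ℝ) (θ : ℝ)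
    (k0 : ℕ) (hk0 : 1 ≤ k0) (hz : ∀ k, 1 ≤ k → k < k0 → ∑ i, g i * tc (f i) x0 k = 0) {t : ℝ}
    (ht : P ≤ t) :
    Tendsto (fun k1 : ℕ => fz k0 k1 (fun k => θ * ∑ i, g i * tc (f i) x0 k) t) atTop
      (𝓝 (θ * ∑ i, g i * f i (x0 + 1 / t) - θ * ∑ i, g i * tc (f i) x0 0)) := by
  have hP := hF.P1
  have ht0 : 0 < t := by linarith
  have hx : |1 / t| * P ≤ 1 := by
    rw [abs_of_pos (by positivity), one_div_mul_eq_div, div_le_one ht0]
    exact ht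
  have h1 : HasSum (fun k => ∑ i, g i * (tc (f i) x0 k * (1 / t) ^ k))
      (∑ i, g i * f i (x0 + 1 / t)) :=
    hasSum_sum fun i _ => (hF.sum i (1 / t) hx).mul_left (g i)
  have h2 := h1.mul_left θ
  have h3 := (h2.tendsto_sum_nat.comp (tendsto_add_atTop_nat 1)).sub_const
    (θ * ∑ i, g i * tc (f i) x0 0)
  refine h3.congr' ?_
  filter_upwards [eventually_ge_atTop k0] with k1 hk1
  simp only [Function.comp]
  rw [Finset.sum_range_succ']
  have e0 : θ * ∑ i, g i * (tc (f i) x0 0 * (1 / t) ^ 0) = θ * ∑ i, g i * tc (f i) x0 0 := by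
    simp
  rw [e0, add_sub_cancel_right]
  unfold fz
  rw [← Pool.Agent.N586.RT.sum_Icc_range'
    (fun k => θ * ∑ i, g i * (tc (f i) x0 k * (1 / t) ^ k)) k1]
  symm
  refine Finset.sum_subset_zero_on_sdiff (Finset.Icc_subset_Icc_left hk0) ?_ ?_
  · intro k hk
    rw [Finset.mem_sdiff, Finset.mem_Icc, Finset.mem_Icc] at hk
    have h4 := hz k hk.1.1 (by omega)
    have h5 : ∑ i, g i * (tc (f i) x0 k * (1 / t) ^ k) =
        (∑ i, g i * tc (f i) x0 k) * (1 / t) ^ k := by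
      rw [Finset.sum_mul]
      refine Finset.sum_congr rfl fun i _ => ?_
      ring
    rw [h5, h4, zero_mul, mul_zero]
  · intro k _
    have h5 : ∑ i, g i * (tc (f i) x0 k * (1 / t) ^ k) =
        (∑ i, g i * tc (f i) x0 k) * (1 / t) ^ k := by
      rw [Finset.sum_mul]
      refine Finset.sum_congr rfl fun i _ => ?_
      ring
    rw [h5, one_div, inv_pow]
    ring

/-- sums of `e(θ ∑ g_i f_i(x0 + 1 / m))` -/
theorem sum_fun {R : ℕ} (f : Fin R → ℝ → ℝ) (x0 A P : ℝ) (hF : Fam f x0 A P) (K0 : ℕ)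
    (δ β δ0 : ℝ) (hδ : 0 < δ) (hβ : 0 < β) (hδβ : 2 * δ + β < 1) (hδ0 : 0 < δ0) :
    ∃ N0 : ℕ, ∀ N : ℕ, N0 ≤ N → ∀ (g : Fin R → ℝ) (θ Y lam : ℝ) (k0 : ℕ), 1 ≤ k0 → k0 ≤ K0 →
    0 < lam → 0 ≤ Y → (∀ i, |g i| ≤ Y) →
    (∀ k, 1 ≤ k → k < k0 → ∑ i, g i * tc (f i) x0 k = 0) →
    lam ≤ |∑ i, g i * tc (f i) x0 k0| →
    R * Y * A * P ^ K0 ≤ lam * (N : ℝ) ^ (1 / 4 : ℝ) →
    (N : ℝ) ^ (δ0 + K0) ≤ |θ| * lam →
    |θ| * (R * Y * A * P ^ K0) ≤ Real.exp ((log N) ^ (1 + δ)) →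
    ‖∑ m ∈ Finset.Ioc N (2 * N), e (θ * ∑ i, g i * f i (x0 + 1 / m))‖ ≤
      N * Real.exp (-(log N) ^ β) := by
  have hP1 := hF.P1
  have hA0 := hF.A0
  obtain ⟨N1, hN1⟩ := sum_all K0 P δ β δ0 (by linarith) hδ hβ hδβ hδ0
  refine ⟨max N1 (max 1 ⌈P⌉₊), fun N hN g θ Y lam k0 hk0 hkK hlam hY hg hz hl hW hθ1 hθ2 => ?_⟩
  have hNN1 : N1 ≤ N := le_of_max_le_left hN
  have hN1' : 1 ≤ N := le_of_max_le_left (le_of_max_le_right hN)
  have hNP : P ≤ N := (Nat.le_ceil P).trans (by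
    exact_mod_cast le_of_max_le_right (le_of_max_le_right hN))
  have hNR : (1 : ℝ) ≤ N := by exact_mod_cast hN1'
  have hNp : (0 : ℝ) < N := by linarith
  have hθ0 : 0 < |θ| := by
    by_contra hcon
    have h1 : |θ| = 0 := le_antisymm (not_lt.1 hcon) (abs_nonneg _)
    rw [h1, zero_mul] at hθ1
    have : 0 < (N : ℝ) ^ (δ0 + K0) := by positivity
    linarith
  obtain ⟨γ, hγ⟩ : ∃ γ : ℕ → ℝ, γ = fun k => θ * ∑ i, g i * tc (f i) x0 k := ⟨_, rfl⟩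
  have hγk0 : |θ| * lam ≤ |γ k0| := by
    rw [hγ]
    simp only
    rw [abs_mul]
    gcongr
  have hγle : ∀ k, |γ k| ≤ |θ| * (R * Y * A * P ^ k) := by
    intro k
    rw [hγ]
    simp only
    rw [abs_mul]
    refine mul_le_mul_of_nonneg_left ?_ hθ0.le
    calc |∑ i, g i * tc (f i) x0 k| ≤ ∑ i, |g i * tc (f i) x0 k| := Finset.abs_sum_le_sum_abs _ _
      _ ≤ ∑ _i : Fin R, Y * (A * P ^ k) := by
          refine Finset.sum_le_sum fun i _ => ?_
          rw [abs_mul]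
          have h1 := hg i
          have h2 := hF.co i k
          gcongr
      _ = _ := by
          rw [Finset.sum_const, Finset.card_univ, Fintype.card_fin, nsmul_eq_mul]
          ring
  obtain ⟨W, hWd⟩ : ∃ W : ℝ, W = R * Y * A * P ^ K0 / lam := ⟨_, rfl⟩
  have hR0 : (0 : ℝ) ≤ R := Nat.cast_nonneg R
  have hW0 : 0 ≤ W := by rw [hWd]; positivity
  have hWlam : W * lam = R * Y * A * P ^ K0 := by
    rw [hWd]
    field_simp
  have hWN : W ≤ (N : ℝ) ^ (1 / 4 : ℝ) := by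
    rw [hWd, div_le_iff₀ hlam]
    linarith
  have hγ0 : 0 < |γ k0| := lt_of_lt_of_le (by positivity) hγk0
  have hDm : ∀ k1, k0 ≤ k1 → Dm k0 k1 γ P W := by
    intro k1 hk1
    refine ⟨hk0, hk1, abs_pos.1 hγ0, by linarith, hW0, fun k hk _ => ?_⟩
    have e1 : P ^ k = P ^ k0 * P ^ (k - k0) := by
      rw [← pow_add]
      congr 1
      omega
    calc |γ k| ≤ |θ| * (R * Y * A * P ^ k) := hγle k
      _ = |θ| * (R * Y * A * P ^ k0) * P ^ (k - k0) := by rw [e1]; ring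
      _ ≤ |θ| * (R * Y * A * P ^ K0) * P ^ (k - k0) := by gcongr
      _ = W * (|θ| * lam) * P ^ (k - k0) := by rw [← hWlam]; ring
      _ ≤ W * |γ k0| * P ^ (k - k0) := by gcongr
  have hT1 : (N : ℝ) ^ δ0 ≤ |γ k0| / (N : ℝ) ^ k0 := by
    rw [le_div_iff₀ (by positivity)]
    refine le_trans ?_ (hθ1.trans hγk0)
    rw [Real.rpow_add hNp, Real.rpow_natCast]
    gcongr
  have hT2 : |γ k0| / (N : ℝ) ^ k0 ≤ Real.exp ((log N) ^ (1 + δ)) := by
    refine (div_le_self (abs_nonneg _) (one_le_pow₀ hNR)).trans ((hγle k0).trans ?_)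
    refine le_trans ?_ hθ2
    gcongr
  -- the limit
  have hlim : Tendsto (fun k1 : ℕ => ‖∑ m ∈ Finset.Ioc N (2 * N), e (fz k0 k1 γ m)‖) atTop
      (𝓝 ‖∑ m ∈ Finset.Ioc N (2 * N), e (θ * ∑ i, g i * f i (x0 + 1 / m) -
        θ * ∑ i, g i * tc (f i) x0 0)‖) := by
    refine Tendsto.norm (tendsto_finsetSum _ fun m hm => ?_)
    rw [Finset.mem_Ioc] at hm
    have h1 : P ≤ (m : ℝ) := hNP.trans (by exact_mod_cast hm.1.le)
    have h2 := fz_lim hF g θ k0 hk0 hz h1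
    rw [← hγ] at h2
    exact (cont_e.tendsto _).comp h2
  have h3 : ‖∑ m ∈ Finset.Ioc N (2 * N), e (θ * ∑ i, g i * f i (x0 + 1 / m) -
        θ * ∑ i, g i * tc (f i) x0 0)‖ ≤ N * Real.exp (-(log N) ^ β) := by
    refine le_of_tendsto hlim ?_
    filter_upwards [eventually_ge_atTop k0] with k1 hk1
    exact hN1 N hNN1 k0 k1 γ W (hDm k1 hk1) hkK hWN hT1 hT2
  refine le_trans (le_of_eq ?_) h3
  have h4 : ∑ m ∈ Finset.Ioc N (2 * N), e (θ * ∑ i, g i * f i (x0 + 1 / m)) =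
      e (θ * ∑ i, g i * tc (f i) x0 0) * ∑ m ∈ Finset.Ioc N (2 * N),
        e (θ * ∑ i, g i * f i (x0 + 1 / m) - θ * ∑ i, g i * tc (f i) x0 0) := by
    rw [Finset.mul_sum]
    refine Finset.sum_congr rfl fun m _ => ?_
    rw [← e_add]
    congr 1
    ring
  rw [h4, norm_mul, norm_e, one_mul]

end Pool.Agent.W2helper30.PN
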