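import Mathlib

/-!
# The exponent `κ`
-/

set_option autoImplicit false

namespace Pool.Agent.W2helper30.PN

open Real Filter

/-- powers of logarithms -/
lemma ev_logpow (n : ℕ) (K : ℝ) : ∀ᶠ N : ℕ in atTop, K * (log N) ^ n ≤ N := by
  have h1 : ∀ᶠ x : ℝ in atTop, ‖log x ^ n‖ ≤ (1 / (|K| + 1)) * ‖(id x : ℝ)‖ :=
    (Real.isLittleO_pow_log_id_atTop (n := n)).bound (by positivity)
  have h2 := tendsto_natCast_atTop_atTop (R := ℝ) |>.eventually h1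
  filter_upwards [h2, eventually_ge_atTop 1] with N h3 h4
  have hN : (1 : ℝ) ≤ N := by exact_mod_cast h4
  have h5 : 0 ≤ log (N : ℝ) := Real.log_nonneg hN
  rw [Real.norm_eq_abs, Real.norm_eq_abs, abs_of_nonneg (show 0 ≤ log (N : ℝ) ^ n by positivity),
    id, abs_of_nonneg (show (0 : ℝ) ≤ N by positivity)] at h3
  have h6 : (|K| + 1) * (log (N : ℝ)) ^ n ≤ N := by
    calc (|K| + 1) * (log (N : ℝ)) ^ n ≤ (|K| + 1) * (1 / (|K| + 1) * N) := by gcongr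
      _ = N := by field_simp
  refine le_trans ?_ h6
  have h7 := le_abs_self K
  have h8 : (0 : ℝ) ≤ (log (N : ℝ)) ^ n := by positivity
  nlinarith

lemma ev_loge (K : ℝ) : ∀ᶠ N : ℕ in atTop, K ≤ log N :=
  (Real.tendsto_log_atTop.comp tendsto_natCast_atTop_atTop).eventually_ge_atTop K

/-- the exponent -/
theorem exists_kappa (K0 : ℕ) : ∃ N0 : ℕ, ∀ N : ℕ, N0 ≤ N → ∀ (k0 : ℕ) (T : ℝ), k0 ≤ K0 → 1 ≤ T →
    log T ≤ (log N) ^ 2 → ∃ κ : ℝ, 0 ≤ κ ∧ (N : ℝ) ^ κ = 9 * T * (3 * κ + 3 / 2) ^ (k0 - 1) ∧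
      log T ≤ κ * log N ∧ κ * log N ≤ log T + log N := by
  obtain ⟨N0, hN0⟩ := eventually_atTop.1 ((ev_logpow K0 (9 * 8 ^ K0)).and (ev_loge 1))
  refine ⟨max N0 1, fun N hN k0 T hk hT hTN => ?_⟩
  obtain ⟨h1, h2⟩ := hN0 N (le_of_max_le_left hN)
  have hN1 : (1 : ℝ) ≤ N := by exact_mod_cast le_of_max_le_right hN
  have hNp : (0 : ℝ) < N := by linarith
  obtain ⟨L, hL⟩ : ∃ L : ℝ, L = log N := ⟨_, rfl⟩
  rw [← hL] at h1 h2 hTN ⊢
  have hL0 : 0 < L := by linarith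
  have hT0 : 0 < T := by linarith
  have hlT : 0 ≤ log T := Real.log_nonneg hT
  obtain ⟨κ1, hκ1⟩ : ∃ κ1 : ℝ, κ1 = (log T + L) / L := ⟨_, rfl⟩
  have hκ10 : 0 ≤ κ1 := by rw [hκ1]; positivity
  have hκ1L : κ1 * L = log T + L := by
    rw [hκ1]
    field_simp
  have hκ1' : κ1 ≤ L + 1 := by
    rw [hκ1, div_le_iff₀ hL0]
    nlinarith
  have hcont : Continuous (fun κ : ℝ => Real.exp (κ * L) - 9 * T * (3 * κ + 3 / 2) ^ (k0 - 1)) := by
    fun_prop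
  have hiv := intermediate_value_Icc hκ10 hcont.continuousOn
  have hpow : ∀ n : ℕ, (1 : ℝ) ≤ (3 / 2) ^ n := fun n => one_le_pow₀ (by norm_num)
  have h0 : Real.exp (0 * L) - 9 * T * (3 * 0 + 3 / 2) ^ (k0 - 1) ≤ 0 := by
    have := hpow (k0 - 1)
    rw [zero_mul, Real.exp_zero, mul_zero, zero_add]
    nlinarith
  have hNexp : Real.exp L = N := by rw [hL, Real.exp_log hNp]
  have h3 : 0 ≤ Real.exp (κ1 * L) - 9 * T * (3 * κ1 + 3 / 2) ^ (k0 - 1) := by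
    rw [hκ1L, Real.exp_add, Real.exp_log hT0, hNexp]
    have h4 : 9 * (3 * κ1 + 3 / 2) ^ (k0 - 1) ≤ N := by
      calc 9 * (3 * κ1 + 3 / 2) ^ (k0 - 1) ≤ 9 * (8 * L) ^ (k0 - 1) := by
            gcongr
            linarith
        _ ≤ 9 * (8 * L) ^ K0 := by
            have : (8 * L) ^ (k0 - 1) ≤ (8 * L) ^ K0 :=
              pow_le_pow_right₀ (by linarith) (by omega)
            linarith
        _ = 9 * 8 ^ K0 * L ^ K0 := by rw [mul_pow]; ring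
        _ ≤ N := h1
    nlinarith
  obtain ⟨κ, ⟨hκa, hκb⟩, hκ⟩ := hiv ⟨h0, h3⟩
  simp only at hκ
  have hexp : (N : ℝ) ^ κ = Real.exp (κ * L) := by
    rw [Real.rpow_def_of_pos hNp, hL, mul_comm]
  have hNκ : (N : ℝ) ^ κ = 9 * T * (3 * κ + 3 / 2) ^ (k0 - 1) := by
    rw [hexp]
    linarith
  refine ⟨κ, hκa, hNκ, ?_, ?_⟩
  · rw [Real.log_le_iff_le_exp hT0, ← hexp, hNκ]
    have h5 : (1 : ℝ) ≤ (3 * κ + 3 / 2) ^ (k0 - 1) := one_le_pow₀ (by linarith)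
    nlinarith
  · rw [← hκ1L]
    gcongr

end Pool.Agent.W2helper30.PN
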