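import Pool.Agent.W2helper30.PN.Ser

/-!
# Linear forms in analytic functions
-/

set_option autoImplicit false

namespace Pool.Agent.W2helper30.PN

open Finset

/-- the first derivative at `x0` which does not vanish on an integral combination has a bounded
index and is not too small -/
def TameAt {R : ℕ} (f : Fin R → ℝ → ℝ) (x0 : ℝ) (K E : ℕ) (c : ℝ) : Prop :=
  ∀ (h : Fin R → ℤ) (X : ℝ), h ≠ 0 → 1 ≤ X → (∀ i, |(h i : ℝ)| ≤ X) →
    ∃ k, 1 ≤ k ∧ k ≤ K ∧ (∀ l, 1 ≤ l → l < k → ∑ i, (h i : ℝ) * iteratedDeriv l (f i) x0 = 0) ∧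
      c ≤ X ^ E * |∑ i, (h i : ℝ) * iteratedDeriv k (f i) x0|

/-- the values of linear forms -/
noncomputable def lf {R r : ℕ} (f : Fin R → ℝ → ℝ) (x0 : ℝ) (a0 : Fin r → ℤ)
    (a : Fin r → Fin R → ℤ) (v : Fin r → ℕ) (t : ℝ) (j : Fin r) : ℝ :=
  ((a0 j : ℝ) + ∑ i, (a j i : ℝ) * f i (x0 + 1 / t)) / v j

/-- the linear forms are small and independent -/
structure Sml {R r : ℕ} (V : ℝ) (a0 : Fin r → ℤ) (a : Fin r → Fin R → ℤ) (v : Fin r → ℕ) : Prop where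
  h0 : ∀ j, |(a0 j : ℝ)| ≤ V
  h1 : ∀ j i, |(a j i : ℝ)| ≤ V
  v1 : ∀ j, 1 ≤ v j
  v2 : ∀ j, (v j : ℝ) ≤ V
  ind : ∀ c : Fin r → ℤ, c ≠ 0 → ∃ i, ∑ j, c j * a j i ≠ 0

/-- the coefficients of a combination -/
noncomputable def gg {R r : ℕ} (a : Fin r → Fin R → ℤ) (v : Fin r → ℕ) (h : Fin r → ℤ)
    (i : Fin R) : ℝ := ∑ j, (h j : ℝ) * ((a j i : ℝ) / v j)

lemma comb_eq {R r : ℕ} (f : Fin R → ℝ → ℝ) (x0 : ℝ) (a0 : Fin r → ℤ) (a : Fin r → Fin R → ℤ)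
    (v : Fin r → ℕ) (t : ℝ) (h : Fin r → ℤ) :
    ∑ j, (h j : ℝ) * lf f x0 a0 a v t j =
      ∑ j, (h j : ℝ) * ((a0 j : ℝ) / v j) + ∑ i, gg a v h i * f i (x0 + 1 / t) := by
  unfold lf gg
  simp only [Finset.sum_mul]
  rw [Finset.sum_comm, ← Finset.sum_add_distrib]
  refine Finset.sum_congr rfl fun j _ => ?_
  rw [add_div, mul_add, Finset.sum_div, Finset.mul_sum]
  congr 1
  refine Finset.sum_congr rfl fun i _ => ?_
  ring

lemma gg_prop {R r : ℕ} {f : Fin R → ℝ → ℝ} {x0 : ℝ} {K E : ℕ} {c : ℝ} (hc : 0 < c)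
    (ht : TameAt f x0 K E c) (hr : 1 ≤ r) {V Z : ℝ} (hVZ : V ≤ Z) (hZ : 1 ≤ Z) {a0 : Fin r → ℤ}
    {a : Fin r → Fin R → ℤ} {v : Fin r → ℕ} (hs : Sml V a0 a v) {h : Fin r → ℤ} (hh : h ≠ 0)
    (hhZ : ∀ j, |(h j : ℝ)| ≤ Z) :
    (∀ i, |gg a v h i| ≤ r * Z ^ 2) ∧ ∃ k0, 1 ≤ k0 ∧ k0 ≤ K ∧
      (∀ k, 1 ≤ k → k < k0 → ∑ i, gg a v h i * tc (f i) x0 k = 0) ∧
      c / ((r * Z ^ (r + 2)) ^ E * Z ^ r * K.factorial) ≤ |∑ i, gg a v h i * tc (f i) x0 k0| := by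
  classical
  have hv0 : ∀ j, (0 : ℝ) < v j := fun j => by exact_mod_cast (hs.v1 j)
  have hrR : (1 : ℝ) ≤ r := by exact_mod_cast hr
  have hZ0 : 0 < Z := by linarith
  constructor
  · intro i
    unfold gg
    refine (abs_sum_le_sum_abs _ _).trans ?_
    calc ∑ j, |(h j : ℝ) * ((a j i : ℝ) / v j)| ≤ ∑ _j : Fin r, Z * Z := by
          refine sum_le_sum fun j _ => ?_
          rw [abs_mul, abs_div, abs_of_pos (hv0 j)]
          have e1 : |(a j i : ℝ)| / v j ≤ Z :=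
            (div_le_self (abs_nonneg _) (by exact_mod_cast hs.v1 j)).trans ((hs.h1 j i).trans hVZ)
          have e2 := hhZ j
          have e3 : 0 ≤ |(a j i : ℝ)| / v j := div_nonneg (abs_nonneg _) (hv0 j).le
          gcongr
      _ = r * Z ^ 2 := by
          rw [sum_const, card_univ, Fintype.card_fin, nsmul_eq_mul]
          ring
  obtain ⟨Q, hQ⟩ : ∃ Q : ℝ, Q = ∏ j, (v j : ℝ) := ⟨_, rfl⟩
  have hQ0 : 0 < Q := by rw [hQ]; exact prod_pos fun j _ => hv0 j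
  have hQV : Q ≤ Z ^ r := by
    rw [hQ]
    calc ∏ j, (v j : ℝ) ≤ ∏ _j : Fin r, Z :=
          prod_le_prod (fun j _ => (hv0 j).le) fun j _ => (hs.v2 j).trans hVZ
      _ = Z ^ r := by rw [prod_const, card_univ, Fintype.card_fin]
  obtain ⟨d, hd⟩ : ∃ d : Fin r → ℤ, d = fun j => h j * ∏ i ∈ univ.erase j, (v i : ℤ) := ⟨_, rfl⟩
  have hdj : ∀ j, (d j : ℝ) = h j / v j * Q := by
    intro j
    have e1 : Q = v j * ∏ i ∈ univ.erase j, (v i : ℝ) := by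
      rw [hQ, mul_prod_erase univ (fun i => (v i : ℝ)) (mem_univ j)]
    have e2 := (hv0 j).ne'
    rw [hd, e1]
    push_cast
    field_simp
  have hd0 : d ≠ 0 := by
    obtain ⟨j, hj⟩ := Function.ne_iff.1 hh
    intro h0
    have e1 := hdj j
    rw [h0] at e1
    simp only [Pi.zero_apply, Int.cast_zero] at e1
    have e2 : (h j : ℝ) / v j * Q ≠ 0 := by
      refine mul_ne_zero (div_ne_zero ?_ (hv0 j).ne') hQ0.ne'
      exact_mod_cast hj
    exact e2 e1.symm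
  obtain ⟨H, hH⟩ : ∃ H : Fin R → ℤ, H = fun i => ∑ j, d j * a j i := ⟨_, rfl⟩
  have hH0 : H ≠ 0 := by
    obtain ⟨i, hi⟩ := hs.ind d hd0
    intro h0
    apply hi
    have := congrFun h0 i
    rw [hH] at this
    exact this
  have hHg : ∀ i, (H i : ℝ) = Q * gg a v h i := by
    intro i
    rw [hH]
    unfold gg
    push_cast
    rw [mul_sum]
    refine sum_congr rfl fun j _ => ?_
    rw [hdj]
    ring
  have hHX : ∀ i, |(H i : ℝ)| ≤ r * Z ^ (r + 2) := by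
    intro i
    rw [hH]
    push_cast
    refine (abs_sum_le_sum_abs _ _).trans ?_
    calc ∑ j, |(d j : ℝ) * (a j i : ℝ)| ≤ ∑ _j : Fin r, Z * Z ^ r * Z := by
          refine sum_le_sum fun j _ => ?_
          rw [abs_mul]
          have e1 : |(d j : ℝ)| ≤ Z * Z ^ r := by
            rw [hdj, abs_mul, abs_div, abs_of_pos (hv0 j), abs_of_pos hQ0]
            have e3 : |(h j : ℝ)| / v j ≤ Z :=
              (div_le_self (abs_nonneg _) (by exact_mod_cast hs.v1 j)).trans (hhZ j)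
            gcongr
          have e2 := (hs.h1 j i).trans hVZ
          gcongr
      _ = _ := by
          rw [sum_const, card_univ, Fintype.card_fin, nsmul_eq_mul]
          ring
  have hX1 : (1 : ℝ) ≤ r * Z ^ (r + 2) := by
    have : (1 : ℝ) ≤ Z ^ (r + 2) := one_le_pow₀ hZ
    nlinarith
  obtain ⟨k0, hk1, hk2, hk3, hk4⟩ := ht H _ hH0 hX1 hHX
  have hsum : ∀ k, ∑ i, gg a v h i * tc (f i) x0 k =
      (∑ i, (H i : ℝ) * iteratedDeriv k (f i) x0) / (Q * k.factorial) := by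
    intro k
    rw [sum_div]
    refine sum_congr rfl fun i _ => ?_
    have e1 : (0 : ℝ) < k.factorial := by exact_mod_cast Nat.factorial_pos k
    rw [hHg]
    unfold tc
    field_simp
  refine ⟨k0, hk1, hk2, fun k h1 h2 => ?_, ?_⟩
  · rw [hsum, hk3 k h1 h2, zero_div]
  · have e1 : (0 : ℝ) < k0.factorial := by exact_mod_cast Nat.factorial_pos k0
    have e2 : (k0.factorial : ℝ) ≤ K.factorial := by exact_mod_cast Nat.factorial_le hk2
    have hX0 : (0 : ℝ) < r * Z ^ (r + 2) := by linarith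
    rw [hsum, abs_div, abs_of_pos (mul_pos hQ0 e1)]
    obtain ⟨S, hS⟩ : ∃ S : ℝ, S = |∑ i, (H i : ℝ) * iteratedDeriv k0 (f i) x0| := ⟨_, rfl⟩
    rw [← hS] at hk4 ⊢
    have hS0 : 0 ≤ S := by rw [hS]; exact abs_nonneg _
    rw [div_le_div_iff₀ (by positivity) (by positivity)]
    calc c * (Q * k0.factorial) ≤ ((r * Z ^ (r + 2)) ^ E * S) * (Z ^ r * K.factorial) := by
          gcongr
      _ = _ := by ring

end Pool.Agent.W2helper30.PN
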