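import Pool.Agent.W2helper30.PN.Fn
import Pool.Agent.W2helper30.PN.Lin
import Pool.Agent.N586.JT.Nt
import Pool.Agent.N586.JT.Bt
import Pool.Agent.N586.JT.Bw

/-!
# Joint normality of the values of linear forms in analytic functions at `x0 + 1 / m`
-/

set_option autoImplicit false

namespace Pool.Agent.W2helper30.PN

open Finset Real Filter MeasureTheory
open Pool.Agent.Y933.KD (e wd)
open Pool.Agent.Y951.TU (hat lin lin_apply unif unif_prob integral_unif real_unif)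
open Pool.Agent.N586.JT (NwT S_BT bt bw nt_shift nt_pw)

/-- constants times powers of `exp ((log N) ^ β)` -/
lemma ev_exp {β η : ℝ} (hβ : β < 1) (hη : 0 < η) (C : ℝ) (q : ℕ) : ∀ᶠ N : ℕ in atTop,
    C * (Real.exp ((log N) ^ β)) ^ q ≤ Real.exp (η * log N) := by
  filter_upwards [lpow hβ (2 * q / η), ev_loge (2 * (|C|) / η)] with N h1 h2
  rw [Real.rpow_one] at h1
  rw [div_mul_eq_mul_div, div_le_iff₀ hη] at h1
  rw [div_le_iff₀ hη] at h2
  have h3 : C ≤ Real.exp |C| := by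
    have := Real.add_one_le_exp |C|
    have := le_abs_self C
    linarith
  calc C * (Real.exp ((log N) ^ β)) ^ q ≤ Real.exp |C| * (Real.exp ((log N) ^ β)) ^ q := by
        gcongr
    _ = Real.exp (|C| + q * (log N) ^ β) := by rw [← Real.exp_nat_mul, ← Real.exp_add]
    _ ≤ _ := Real.exp_le_exp.2 (by linarith)

open Classical in
/-- one tuple and one base -/
theorem nt_one {R : ℕ} (f : Fin R → ℝ → ℝ) (x0 A P : ℝ) (hF : Fam f x0 A P) (K E : ℕ) (c : ℝ)
    (hc : 0 < c) (ht : TameAt f x0 K E c) (δ δ' β β' β2 : ℝ) (hδ : 0 < δ) (hδδ : δ < δ')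
    (hβ : 0 < β) (hββ : β < β') (hββ2 : β' < β2) (hδβ : 2 * δ' + β2 < 1) (w r : ℕ) (hr : 1 ≤ r)
    (ε : ℝ) (hε : 0 < ε) (b : ℕ) (hb : 2 ≤ b) :
    ∃ c1 : ℝ, 0 < c1 ∧ ∃ N0 : ℕ, ∀ N : ℕ, N0 ≤ N → ∀ (a0 : Fin r → ℤ) (a : Fin r → Fin R → ℤ)
      (v : Fin r → ℕ), Sml (Real.exp ((log N) ^ β)) a0 a v →
      (((Finset.Ioc N (2 * N)).filter (fun m : ℕ => ¬ NwT b w ((log N) ^ (1 + δ)) ε
        ((4 * K + 5) * log N) (lf f x0 a0 a v m))).card : ℝ) ≤
        N * ((log N) ^ (1 + δ) * Real.exp (-(c1 * (log N) ^ β'))) := by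
  have hP1 := hF.P1
  have hA0 := hF.A0
  have hδ' : 0 < δ' := by linarith
  have hβ2 : β2 < 1 := by linarith
  have hβ' : 0 < β' := by linarith
  obtain ⟨N1, hN1⟩ := sum_fun f x0 A P hF K δ' β2 (1 / 2) hδ' (by linarith) hδβ (by norm_num)
  obtain ⟨c0, hc0, τ0, hτ0⟩ := (bt bw) b w r ε hb hr hε
  have hbR : (2 : ℝ) ≤ b := by exact_mod_cast hb
  obtain ⟨lB, hlB⟩ : ∃ lB : ℝ, lB = Real.log b := ⟨_, rfl⟩
  have hlB0 : 0 ≤ lB := by rw [hlB]; exact Real.log_nonneg (by linarith)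
  have hrR : (1 : ℝ) ≤ r := by exact_mod_cast hr
  have hr0 : (0 : ℝ) < r := by linarith
  have hR0 : (0 : ℝ) ≤ R := Nat.cast_nonneg R
  have hK0 : (0 : ℝ) ≤ K := Nat.cast_nonneg K
  have hfac : (0 : ℝ) < K.factorial := by exact_mod_cast Nat.factorial_pos K
  have hβ'1 : β' < 1 := by linarith
  obtain ⟨N2, hN2⟩ := eventually_atTop.1 ((((((lpow hβ' τ0).and
    (lpow (by linarith : β' < 1) 1)).and
    (lpow (by linarith : (1 + δ : ℝ) < 1 + δ') (lB * (4 * K + 5) + 1))).and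
    (ev_loge 1)).and (eventually_ge_atTop 2)).and
    (((ev_exp hβ'1 (by norm_num : (0 : ℝ) < 1 / 4)
      (R * r * A * P ^ K * ((r ^ E * K.factorial) / c)) (2 + ((r + 2) * E + r))).and
    (ev_exp hβ'1 (by norm_num : (0 : ℝ) < 1 / 4) ((r ^ E * K.factorial) / c)
      ((r + 2) * E + r))).and
    (ev_exp hβ'1 (by norm_num : (0 : ℝ) < 1) (R * r * A * P ^ K) 2)))
  refine ⟨c0, hc0, max N1 N2, ?_⟩
  intro N hN a0 a v hs
  obtain ⟨⟨⟨⟨⟨g1, g2⟩, g3⟩, g4⟩, g5⟩, ⟨g6, g7⟩, g8⟩ := hN2 N (le_of_max_le_right hN)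
  have key := hN1 N (le_of_max_le_left hN)
  have hNR : (2 : ℝ) ≤ N := by exact_mod_cast g5
  have hNp : (0 : ℝ) < N := by linarith
  obtain ⟨L, hL⟩ : ∃ L : ℝ, L = Real.log N := ⟨_, rfl⟩
  rw [← hL] at g1 g2 g3 g4 g6 g7 g8 key hs ⊢
  rw [Real.rpow_zero, mul_one] at g1
  rw [Real.rpow_one, one_mul] at g2
  have hL0 : 0 < L := by linarith
  have hNpow : ∀ x : ℝ, (N : ℝ) ^ x = Real.exp (x * L) := by
    intro x
    rw [Real.rpow_def_of_pos hNp, hL, mul_comm]
  obtain ⟨τ, hτ⟩ : ∃ τ : ℝ, τ = L ^ β' := ⟨_, rfl⟩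
  have hτ0' : 0 ≤ τ := by rw [hτ]; exact Real.rpow_nonneg hL0.le _
  obtain ⟨Z, hZd⟩ : ∃ Z : ℝ, Z = Real.exp τ := ⟨_, rfl⟩
  have hZ1 : 1 ≤ Z := by rw [hZd]; exact Real.one_le_exp hτ0'
  have hZ0 : 0 < Z := by linarith
  have hVZ : Real.exp (L ^ β) ≤ Z := by
    rw [hZd, hτ]
    exact Real.exp_le_exp.2 (Real.rpow_le_rpow_of_exponent_le g4 hββ.le)
  rw [← hτ, ← hZd] at g6 g7 g8
  rw [← hτ] at g1 g2
  have hτ2 : τ ≤ L ^ β2 := by rw [hτ]; exact Real.rpow_le_rpow_of_exponent_le g4 hββ2.le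
  obtain ⟨T, hT'⟩ : ∃ T : ℝ, T = L ^ (1 + δ) := ⟨_, rfl⟩
  have hT1 : 1 ≤ T := by rw [hT']; exact Real.one_le_rpow g4 (by positivity)
  have hTL : L ≤ T := by
    rw [hT']
    calc L = L ^ (1 : ℝ) := (Real.rpow_one L).symm
      _ ≤ _ := Real.rpow_le_rpow_of_exponent_le g4 (by linarith)
  rw [← hT'] at g3 ⊢
  obtain ⟨n0, hn0⟩ : ∃ n0 : ℕ, n0 = 2 * (K + 1) * ⌈L⌉₊ := ⟨_, rfl⟩
  have hn0a : 2 * (K + 1) * L ≤ n0 := by
    rw [hn0]
    push_cast
    have := Nat.le_ceil L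
    gcongr
  have hn0b : (n0 : ℝ) ≤ 4 * (K + 1) * L := by
    rw [hn0]
    push_cast
    have h1 := (Nat.ceil_lt_add_one hL0.le).le
    calc 2 * ((K : ℝ) + 1) * ⌈L⌉₊ ≤ 2 * (K + 1) * (2 * L) := by
          gcongr
          linarith
      _ = _ := by ring
  have hne : (Finset.Ioc N (2 * N)).Nonempty := by
    rw [Finset.nonempty_Ioc]
    omega
  have hcardN : ((Finset.Ioc N (2 * N)).card : ℝ) = N := by
    rw [Nat.card_Ioc]
    congr 1
    omega
  -- the constant `lam`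
  obtain ⟨lam, hlam⟩ : ∃ lam : ℝ, lam = c / ((r * Z ^ (r + 2)) ^ E * Z ^ r * K.factorial) :=
    ⟨_, rfl⟩
  have hlam0 : 0 < lam := by rw [hlam]; positivity
  have hlamZ : 1 / lam = (r ^ E * K.factorial) / c * Z ^ ((r + 2) * E + r) := by
    rw [hlam, one_div_div, mul_pow, ← pow_mul, pow_add]
    ring
  have hlamL : Real.exp (-(1 / 4 * L)) ≤ lam := by
    have e1 : 1 / lam ≤ Real.exp (1 / 4 * L) := by
      rw [hlamZ]
      exact g7
    have e2 : lam = (1 / lam)⁻¹ := by simp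
    rw [Real.exp_neg, e2]
    exact inv_anti₀ (by positivity) e1
  have hW : R * (r * Z ^ 2) * A * P ^ K ≤ lam * (N : ℝ) ^ (1 / 4 : ℝ) := by
    rw [hNpow]
    have e1 : R * (r * Z ^ 2) * A * P ^ K = lam * (1 / lam * (R * (r * Z ^ 2) * A * P ^ K)) := by
      field_simp
    rw [e1, hlamZ]
    refine mul_le_mul_of_nonneg_left (le_trans (le_of_eq ?_) g6) hlam0.le
    rw [pow_add Z 2]
    ring
  obtain ⟨U, hU, hPU, hx⟩ := hτ0 τ g1 T hT1
    (unif (Finset.Ioc N (2 * N)) (fun (m : ℕ) j => (b : ℝ) ^ n0 * lf f x0 a0 a v m j))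
    (unif_prob hne _)
    (fun n h hn hh hh2 => by
      obtain ⟨hgY, k0, hk1, hk2, hk3, hk4⟩ := gg_prop hc ht hr hVZ hZ1 hs hh
        (by rw [hZd]; exact hh2)
      rw [← hlam] at hk4
      have hb0 : (1 : ℝ) ≤ (b : ℝ) ^ n := one_le_pow₀ (by linarith)
      obtain ⟨θ, hθd⟩ : ∃ θ : ℝ, θ = (b : ℝ) ^ n * (b : ℝ) ^ n0 := ⟨_, rfl⟩
      have hθ0 : 0 < θ := by rw [hθd]; positivity
      have hθ : |θ| = θ := abs_of_pos hθ0
      have hθ1 : (N : ℝ) ^ (1 / 2 + (K : ℝ)) ≤ |θ| * lam := by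
        rw [hθ, hNpow]
        have e2 : Real.exp ((K + 1) * L) ≤ θ := by
          have h2 : (1 / 2 : ℝ) ≤ Real.log b := by
            have := Real.log_two_gt_d9
            have h3 := Real.log_le_log (by norm_num) hbR
            linarith
          calc Real.exp ((K + 1) * L) ≤ Real.exp (n0 * Real.log b) := by
                apply Real.exp_le_exp.2
                calc (K + 1) * L = 2 * (K + 1) * L * (1 / 2) := by ring
                  _ ≤ n0 * Real.log b := by gcongr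
            _ = (b : ℝ) ^ n0 := (nt_pw n0 hb).symm
            _ = 1 * (b : ℝ) ^ n0 := by rw [one_mul]
            _ ≤ θ := by
                rw [hθd]
                gcongr
        calc Real.exp ((1 / 2 + (K : ℝ)) * L) ≤ Real.exp ((K + 1) * L) * Real.exp (-(1 / 4 * L)) := by
              rw [← Real.exp_add]
              apply Real.exp_le_exp.2
              linarith
          _ ≤ θ * lam := by gcongr
      have hθ2 : |θ| * (R * (r * Z ^ 2) * A * P ^ K) ≤ Real.exp (L ^ (1 + δ')) := by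
        rw [hθ, hθd, nt_pw n hb, nt_pw n0 hb, ← hlB, ← Real.exp_add]
        have e1 : R * (r * Z ^ 2) * A * P ^ K ≤ Real.exp (1 * L) := by
          refine le_trans (le_of_eq ?_) g8
          ring
        have e2 : 0 ≤ R * (r * Z ^ 2) * A * P ^ K := by positivity
        calc Real.exp (n * lB + n0 * lB) * (R * (r * Z ^ 2) * A * P ^ K) ≤
            Real.exp (n * lB + n0 * lB) * Real.exp (1 * L) := by gcongr
          _ = Real.exp (n * lB + n0 * lB + 1 * L) := by rw [← Real.exp_add]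
          _ ≤ _ := by
              apply Real.exp_le_exp.2
              have h1 : (n : ℝ) * lB ≤ T * lB := by gcongr
              have h2 : (n0 : ℝ) * lB ≤ (4 * (K + 1) * T) * lB := by
                refine mul_le_mul_of_nonneg_right (hn0b.trans ?_) hlB0
                gcongr
              have h3 : (lB * (4 * K + 5) + 1) * T = T * lB + (4 * (K + 1) * T) * lB + T := by ring
              linarith
      have h7 := key (gg a v h) θ (r * Z ^ 2) lam k0 hk1 hk2 hlam0 (by positivity) hgY hk3 hk4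
        hW hθ1 hθ2
      unfold hat
      rw [integral_unif]
      have e1 : ∑ m ∈ Finset.Ioc N (2 * N), e (lin r (fun j => h j * (b : ℤ) ^ n)
          (fun j => (b : ℝ) ^ n0 * lf f x0 a0 a v m j)) =
          e (θ * ∑ j, (h j : ℝ) * ((a0 j : ℝ) / v j)) *
          ∑ m ∈ Finset.Ioc N (2 * N), e (θ * ∑ i, gg a v h i * f i (x0 + 1 / m)) := by
        rw [Finset.mul_sum]
        refine Finset.sum_congr rfl fun m _ => ?_
        rw [← Pool.Agent.Y933.KD.e_add, ← mul_add, ← comb_eq, lin_apply, Finset.mul_sum]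
        congr 1
        refine Finset.sum_congr rfl fun j _ => ?_
        rw [hθd]
        push_cast
        ring
      rw [e1, norm_mul, norm_mul, Pool.Agent.Y933.KD.norm_e, one_mul, norm_div, norm_one,
        Complex.norm_natCast, hcardN, one_div, inv_mul_le_iff₀ hNp]
      refine h7.trans ?_
      gcongr)
  rw [real_unif _ _ hU, hcardN, div_le_iff₀ hNp, mul_comm _ (N : ℝ)] at hPU
  rw [← hτ]
  refine le_trans ?_ hPU
  refine Nat.cast_le.2 (Finset.card_le_card fun m hm => ?_)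
  rw [Finset.mem_filter] at hm ⊢
  refine ⟨hm.1, ?_⟩
  by_contra hmU
  apply hm.2
  have h2 := hx _ hmU
  have h3 := nt_shift (n0 := n0) (E' := 4 * (K + 1) * L) (by omega) hn0b hε.le h2 hτ0'
  intro k s M D hk hkw hD hsM
  refine (h3 k s M D hk hkw hD hsM).trans ?_
  have e1 : (4 * (K : ℝ) + 5) * L = 4 * (K + 1) * L + L := by ring
  rw [e1]
  linarith

end Pool.Agent.W2helper30.PN
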