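import Pool.Agent.N586.AN.Stm2
import Pool.Agent.Y288.VK.Tw

/-!
# The factors of the double Hoelder inequality: coefficients of the right size in a window

This follows `Pool.Agent.N586.AN.Tw3`; the sizes of the coefficients are only needed for the indices
between `2 κ` and `3 κ + 1 / 2`.
-/

set_option autoImplicit false

namespace Pool.Agent.W2helper30.PN

open Finset Pool.Agent.Y957.VK Pool.Agent.Y288.VK Pool.Agent.N586.RT

/-- admissible coefficients in the window `2 κ ≤ j ≤ 3 κ + 1 / 2` -/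
def AdmW (D : ℝ) (N : ℕ) (κ : ℝ) (r : ℕ) (a : ℕ → ℝ) : Prop :=
  ∀ j ∈ Finset.Icc 1 r, 2 * κ ≤ j → (j : ℝ) ≤ 3 * κ + 1 / 2 →
    (N : ℝ) ^ κ / (D * (j : ℝ) ^ 2 * (2 * (N : ℝ)) ^ j) ≤ |a j| ∧
    |a j| ≤ (N : ℝ) ^ κ / (6 * (N : ℝ) ^ j)

theorem tw3 (h : S_WB) (D : ℝ) (hD : 1 ≤ D) : ∃ C : ℝ, 0 ≤ C ∧
    ∀ (N j r s M : ℕ) (κ μ : ℝ) (a : ℕ → ℝ),
    2 ≤ N → 1 / 2 ≤ κ → r = ⌈5 * κ⌉₊ + 5 → s = 9 * r ^ 2 → 1 ≤ M → 1 / 10 ≤ μ → μ ≤ 2 / 5 →
    (1 - 2 * μ) * (3 * κ + 1 / 2) ≤ 4 / 5 * κ →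
    (N : ℝ) ^ μ ≤ 2 * M → (M : ℝ) ≤ (N : ℝ) ^ (2 / 5 : ℝ) →
    j ∈ Finset.Icc 1 r → AdmW D N κ r a →
    WJ s M j (a j) ≤ (M : ℝ) ^ (2 * j) * Real.exp (C * (1 + κ)) ∧
    ((s : ℝ) ≤ 3 * (N : ℝ) ^ (κ / 5) → 2 * κ ≤ j → (j : ℝ) ≤ 3 * κ + 1 / 2 →
      WJ s M j (a j) ≤ (M : ℝ) ^ (2 * j) *
        (Real.exp (C * (1 + κ)) * (1 + Real.log N) * (N : ℝ) ^ (-(κ / 5) : ℝ))) := by
  obtain ⟨C, hCr⟩ : ∃ C : ℝ, C = 1000000 + 11916 * D := ⟨_, rfl⟩
  have hC00 : 0 ≤ C := by rw [hCr]; linarith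
  refine ⟨C, hC00, ?_⟩
  intro N j r s M κ μ a hN hκ hr hs hM1 hμ1 hμ2 hμ3 hM2 hMr hj hadm
  obtain ⟨hj1, hj2⟩ := mem_Icc.1 hj
  have hNr : (2 : ℝ) ≤ N := by exact_mod_cast hN
  have hN0 : (0 : ℝ) < N := by linarith
  have hN1 : (1 : ℝ) ≤ N := by linarith
  obtain ⟨k, hk⟩ : ∃ k : ℝ, k = 1 + κ := ⟨_, rfl⟩
  rw [← hk]
  have hk1 : 1 ≤ k := by rw [hk]; linarith
  have hk0 : 0 ≤ k := by linarith
  have hrk : (r : ℝ) ≤ 6 * k := by
    have h1 := Nat.ceil_lt_add_one (a := 5 * κ) (by linarith)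
    rw [hr]
    push_cast
    rw [hk]
    linarith
  have hr5 : 5 ≤ r := by omega
  have hr0 : (0 : ℝ) ≤ r := Nat.cast_nonneg r
  have hs1 : 1 ≤ s := by rw [hs]; nlinarith
  have hsr : (s : ℝ) = 9 * (r : ℝ) ^ 2 := by rw [hs]; push_cast; ring
  have hsk : (s : ℝ) ≤ 324 * k ^ 2 := by rw [hsr]; nlinarith
  have hs0 : (1 : ℝ) ≤ s := by exact_mod_cast hs1
  have hjk : (j : ℝ) ≤ 6 * k := by
    have h1 : (j : ℝ) ≤ r := by exact_mod_cast hj2
    linarith
  have hj0 : (1 : ℝ) ≤ j := by exact_mod_cast hj1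
  have hM0 : (1 : ℝ) ≤ M := by exact_mod_cast hM1
  obtain ⟨hW1, hW2⟩ := h s M j (a j) hs1 hM1
  have hVcast : ((s * M ^ j : ℕ) : ℝ) = s * (M : ℝ) ^ j := by push_cast; rfl
  rw [hVcast] at hW1 hW2
  have hMj : (1 : ℝ) ≤ (M : ℝ) ^ j := one_le_pow₀ hM0
  have hV1 : 1 ≤ s * (M : ℝ) ^ j := one_le_mul_of_one_le_of_one_le hs0 hMj
  constructor
  · have h9 : 9 * (s : ℝ) ^ 2 ≤ Real.exp (C * k) := by
      calc 9 * (s : ℝ) ^ 2 ≤ 9 * (324 * k ^ 2) ^ 2 := by gcongr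
        _ = 944784 * k ^ 4 := by ring
        _ ≤ Real.exp ((944784 + (4 : ℕ)) * k) := mul_pow_le (by norm_num) hk1 4
        _ ≤ _ := by
            apply Real.exp_le_exp.2
            push_cast
            nlinarith
    calc WJ s M j (a j) ≤ (2 * (s * (M : ℝ) ^ j) + 1) ^ 2 := hW1
      _ ≤ (3 * (s * (M : ℝ) ^ j)) ^ 2 := pow_le_pow_left₀ (by linarith) (by linarith) 2
      _ = (M : ℝ) ^ (2 * j) * (9 * (s : ℝ) ^ 2) := by ring
      _ ≤ _ := mul_le_mul_of_nonneg_left h9 (by positivity)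
  · intro hsN hj2κ hj3κ
    obtain ⟨hlow, hup⟩ := hadm j hj hj2κ hj3κ
    have hNκ : 0 < (N : ℝ) ^ κ := Real.rpow_pos_of_pos hN0 _
    have hden : 0 < D * (j : ℝ) ^ 2 * (2 * (N : ℝ)) ^ j := by positivity
    have hapos : 0 < |a j| := lt_of_lt_of_le (by positivity) hlow
    have hA : κ / 5 ≤ μ * j := by nlinarith
    have hB : (1 - 2 * μ) * j ≤ (1 - 2 * μ) * (3 * κ + 1 / 2) :=
      mul_le_mul_of_nonneg_left hj3κ (by linarith)
    have hE2 : (j : ℝ) ≤ μ * j + μ * j + -(κ / 5) + κ := by linarith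
    have hane : a j ≠ 0 := abs_pos.1 hapos
    have hMj2 : (M : ℝ) ^ j ≤ (N : ℝ) ^ (2 / 5 * j : ℝ) := by
      rw [Real.rpow_mul hN0.le, Real.rpow_natCast]
      exact pow_le_pow_left₀ (by linarith) hMr j
    have h2Mj : (N : ℝ) ^ (μ * j : ℝ) ≤ (2 * M : ℝ) ^ j := by
      rw [Real.rpow_mul hN0.le, Real.rpow_natCast]
      exact pow_le_pow_left₀ (by positivity) hM2 j
    have hsmall : |a j| * (s * (M : ℝ) ^ j) ≤ 1 / 2 := by
      have h1 : (N : ℝ) ^ κ * (s * (M : ℝ) ^ j) ≤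
          3 * (N : ℝ) ^ (κ + κ / 5 + 2 / 5 * j : ℝ) := by
        rw [Real.rpow_add hN0, Real.rpow_add hN0]
        calc (N : ℝ) ^ κ * (s * (M : ℝ) ^ j) ≤
            (N : ℝ) ^ κ * ((3 * (N : ℝ) ^ (κ / 5)) * (N : ℝ) ^ (2 / 5 * j : ℝ)) := by gcongr
          _ = _ := by ring
      have h2 : (N : ℝ) ^ (κ + κ / 5 + 2 / 5 * j : ℝ) ≤ (N : ℝ) ^ j := by
        rw [← Real.rpow_natCast (N : ℝ) j]
        exact Real.rpow_le_rpow_of_exponent_le hN1 (by linarith)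
      calc |a j| * (s * (M : ℝ) ^ j) ≤ (N : ℝ) ^ κ / (6 * (N : ℝ) ^ j) * (s * (M : ℝ) ^ j) := by
            gcongr
        _ = (N : ℝ) ^ κ * (s * (M : ℝ) ^ j) / (6 * (N : ℝ) ^ j) := by ring
        _ ≤ 1 / 2 := by
            rw [div_le_iff₀ (by positivity)]
            linarith
    have hW := hW2 hane hsmall
    have hP : 0 < (N : ℝ) ^ (-(κ / 5) : ℝ) := Real.rpow_pos_of_pos hN0 _
    have hPP : (N : ℝ) ^ (κ / 5 : ℝ) * (N : ℝ) ^ (-(κ / 5) : ℝ) = 1 := by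
      rw [← Real.rpow_add hN0, add_neg_cancel, Real.rpow_zero]
    have hlogN : 0 ≤ Real.log N := Real.log_nonneg hN1
    have hlogs : 0 ≤ Real.log s := Real.log_nonneg hs0
    obtain ⟨Q, hQ⟩ : ∃ Q : ℝ, Q = (M : ℝ) ^ (2 * j) * (N : ℝ) ^ (-(κ / 5) : ℝ) := ⟨_, rfl⟩
    have hQ0 : 0 < Q := by rw [hQ]; positivity
    have hF1 : 3 * (s * (M : ℝ) ^ j) ≤ 3 * s * 2 ^ j * Q := by
      have h1 : 1 ≤ (2 * M : ℝ) ^ j * (N : ℝ) ^ (-(κ / 5) : ℝ) := by
        rw [← hPP]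
        refine mul_le_mul_of_nonneg_right (le_trans ?_ h2Mj) hP.le
        exact Real.rpow_le_rpow_of_exponent_le hN1 (by linarith)
      calc 3 * (s * (M : ℝ) ^ j) = 3 * s * (M : ℝ) ^ j * 1 := by ring
        _ ≤ 3 * s * (M : ℝ) ^ j * ((2 * M : ℝ) ^ j * (N : ℝ) ^ (-(κ / 5) : ℝ)) :=
          mul_le_mul_of_nonneg_left h1 (by positivity)
        _ = 3 * s * 2 ^ j * Q := by rw [hQ, mul_pow, two_mul j, pow_add]; ring
    have hF2 : 1 / |a j| ≤ D * (j : ℝ) ^ 2 * 8 ^ j * Q := by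
      have h0 : 1 / |a j| ≤ 1 / ((N : ℝ) ^ κ / (D * (j : ℝ) ^ 2 * (2 * (N : ℝ)) ^ j)) :=
        one_div_le_one_div_of_le (by positivity) hlow
      refine h0.trans ?_
      rw [one_div_div, div_le_iff₀ hNκ]
      have h2 : (N : ℝ) ^ j ≤ (2 * M : ℝ) ^ j * (2 * M : ℝ) ^ j * (N : ℝ) ^ (-(κ / 5) : ℝ) *
          (N : ℝ) ^ κ := by
        calc (N : ℝ) ^ j = (N : ℝ) ^ (j : ℝ) := (Real.rpow_natCast _ _).symm
          _ ≤ (N : ℝ) ^ (μ * j + μ * j + -(κ / 5) + κ : ℝ) :=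
            Real.rpow_le_rpow_of_exponent_le hN1 (by linarith)
          _ = (N : ℝ) ^ (μ * j : ℝ) * (N : ℝ) ^ (μ * j : ℝ) *
              (N : ℝ) ^ (-(κ / 5) : ℝ) * (N : ℝ) ^ κ := by
            rw [Real.rpow_add hN0, Real.rpow_add hN0, Real.rpow_add hN0]
          _ ≤ _ := by gcongr
      have h8 : (8 : ℝ) ^ j = 2 ^ j * 2 ^ j * 2 ^ j := by
        rw [← mul_pow, ← mul_pow]; norm_num
      calc D * (j : ℝ) ^ 2 * (2 * (N : ℝ)) ^ j = D * (j : ℝ) ^ 2 * (2 ^ j * (N : ℝ) ^ j) := by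
            rw [mul_pow]
        _ ≤ D * (j : ℝ) ^ 2 * (2 ^ j * ((2 * M : ℝ) ^ j * (2 * M : ℝ) ^ j *
            (N : ℝ) ^ (-(κ / 5) : ℝ) * (N : ℝ) ^ κ)) := by gcongr
        _ = D * (j : ℝ) ^ 2 * 8 ^ j * Q * (N : ℝ) ^ κ := by
            rw [hQ, mul_pow, two_mul j, pow_add, h8]; ring
    have hlogV : Real.log (s * (M : ℝ) ^ j) ≤ Real.log s + j * Real.log N := by
      rw [Real.log_mul (by positivity) (by positivity), Real.log_pow]
      have h1 : Real.log M ≤ Real.log N := by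
        refine Real.log_le_log (by linarith) (hMr.trans ?_)
        calc (N : ℝ) ^ (2 / 5 : ℝ) ≤ (N : ℝ) ^ (1 : ℝ) :=
              Real.rpow_le_rpow_of_exponent_le hN1 (by norm_num)
          _ = N := Real.rpow_one _
      have h2 := mul_le_mul_of_nonneg_left h1 (Nat.cast_nonneg (α := ℝ) j)
      linarith
    have hlog : 1 + Real.log (s * (M : ℝ) ^ j) ≤ (1 + Real.log s + j) * (1 + Real.log N) := by
      have h3 := mul_nonneg hlogs hlogN
      have h4 : (1 + Real.log s + j) * (1 + Real.log N) =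
          1 + Real.log s + j + Real.log N + Real.log s * Real.log N + j * Real.log N := by ring
      rw [h4]
      linarith
    have hlogV0 : 0 ≤ Real.log (s * (M : ℝ) ^ j) := Real.log_nonneg hV1
    have hE : 3 * s * 2 ^ j + D * (j : ℝ) ^ 2 * 8 ^ j * (1 + Real.log s + j) ≤
        Real.exp (C * k) := by
      have e2 := two_pow_le hjk
      have e1 : 3 * (s : ℝ) * 2 ^ j ≤ Real.exp (980 * k) := by
        calc 3 * (s : ℝ) * 2 ^ j ≤ (972 * k ^ 2) * Real.exp (6 * k) := by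
              refine mul_le_mul (by linarith) e2 (by positivity) (by positivity)
          _ ≤ Real.exp ((972 + (2 : ℕ)) * k) * Real.exp (6 * k) :=
              mul_le_mul_of_nonneg_right (mul_pow_le (by norm_num) hk1 2) (Real.exp_pos _).le
          _ = Real.exp (980 * k) := by rw [← Real.exp_add]; push_cast; ring_nf
      have e8 : (8 : ℝ) ^ j ≤ Real.exp (18 * k) := by
        calc (8 : ℝ) ^ j = (2 ^ j) ^ 3 := by rw [← pow_mul, mul_comm, pow_mul]; norm_num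
          _ ≤ (Real.exp (6 * k)) ^ 3 := pow_le_pow_left₀ (by positivity) e2 3
          _ = Real.exp (18 * k) := by rw [← Real.exp_nat_mul]; push_cast; ring_nf
      have el : 1 + Real.log s + j ≤ 331 * k ^ 2 := by
        have h1 := Real.log_le_self (x := (s : ℝ)) (by linarith)
        have h2 : k ≤ k ^ 2 := le_self_pow₀ hk1 (by norm_num)
        linarith
      have ep : D * (j : ℝ) ^ 2 ≤ 36 * D * k ^ 2 := by
        have : (j : ℝ) ^ 2 ≤ (6 * k) ^ 2 := by gcongr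
        nlinarith
      have e3 : D * (j : ℝ) ^ 2 * 8 ^ j * (1 + Real.log s + j) ≤
          Real.exp ((11916 * D + 22) * k) := by
        calc D * (j : ℝ) ^ 2 * 8 ^ j * (1 + Real.log s + j) ≤
            36 * D * k ^ 2 * Real.exp (18 * k) * (331 * k ^ 2) := by
              refine mul_le_mul (mul_le_mul ep e8 (by positivity) (by positivity)) el
                (by positivity) (by positivity)
          _ = (11916 * D * k ^ 4) * Real.exp (18 * k) := by ring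
          _ ≤ Real.exp ((11916 * D + (4 : ℕ)) * k) * Real.exp (18 * k) :=
              mul_le_mul_of_nonneg_right (mul_pow_le (by positivity) hk1 4) (Real.exp_pos _).le
          _ = Real.exp ((11916 * D + 22) * k) := by rw [← Real.exp_add]; push_cast; ring_nf
      have e4 : Real.exp (980 * k) ≤ Real.exp ((11916 * D + 980) * k) :=
        Real.exp_le_exp.2 (by nlinarith)
      have e4' : Real.exp ((11916 * D + 22) * k) ≤ Real.exp ((11916 * D + 980) * k) :=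
        Real.exp_le_exp.2 (by nlinarith)
      have e5 : 2 ≤ Real.exp k := by
        have h1 := Real.add_one_le_exp k
        linarith
      calc 3 * s * 2 ^ j + D * (j : ℝ) ^ 2 * 8 ^ j * (1 + Real.log s + j) ≤
          2 * Real.exp ((11916 * D + 980) * k) := by linarith
        _ ≤ Real.exp k * Real.exp ((11916 * D + 980) * k) :=
            mul_le_mul_of_nonneg_right e5 (Real.exp_pos _).le
        _ = Real.exp ((11916 * D + 981) * k) := by rw [← Real.exp_add]; ring_nf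
        _ ≤ _ := by
            apply Real.exp_le_exp.2
            nlinarith
    calc WJ s M j (a j) ≤ 2 * (s * (M : ℝ) ^ j) + 1 +
          1 / |a j| * (1 + Real.log (s * (M : ℝ) ^ j)) := hW
      _ ≤ 3 * s * 2 ^ j * Q + D * (j : ℝ) ^ 2 * 8 ^ j * Q *
          ((1 + Real.log s + j) * (1 + Real.log N)) := by
            have h1 : 1 / |a j| * (1 + Real.log (s * (M : ℝ) ^ j)) ≤
              D * (j : ℝ) ^ 2 * 8 ^ j * Q * ((1 + Real.log s + j) * (1 + Real.log N)) :=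
              mul_le_mul hF2 hlog (by linarith) (by positivity)
            linarith
      _ ≤ (3 * s * 2 ^ j + D * (j : ℝ) ^ 2 * 8 ^ j * (1 + Real.log s + j)) *
          ((1 + Real.log N) * Q) := by
            have h1 : 0 ≤ 3 * s * 2 ^ j * Q * Real.log N := by positivity
            have h2 : (3 * s * 2 ^ j + D * (j : ℝ) ^ 2 * 8 ^ j * (1 + Real.log s + j)) *
                ((1 + Real.log N) * Q) = 3 * s * 2 ^ j * Q + 3 * s * 2 ^ j * Q * Real.log N +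
                D * (j : ℝ) ^ 2 * 8 ^ j * Q * ((1 + Real.log s + j) * (1 + Real.log N)) := by ring
            rw [h2]
            linarith
      _ ≤ Real.exp (C * k) * ((1 + Real.log N) * Q) :=
            mul_le_mul_of_nonneg_right hE (by positivity)
      _ = _ := by rw [hQ]; ring

end Pool.Agent.W2helper30.PN
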