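import Pool.Agent.W2helper30.PN.Bin
import Pool.Agent.W2helper30.PN.Tw
import Pool.Agent.N586.RT.Ph

/-!
# The phases `∑ γ_k t ^ (-k)`
-/

set_option autoImplicit false

namespace Pool.Agent.W2helper30.PN

open Finset Real
open Pool.Agent.Y933.KD (e norm_e e_add)
open Pool.Agent.N586.RT (ph ph_eq norm_e_sub)

/-- `∑ γ_k t ^ (-k)`, with weights -/
noncomputable def wz (k0 k1 : ℕ) (γ : ℕ → ℝ) (j : ℕ) (t : ℝ) : ℝ :=
  ∑ k ∈ Finset.Icc k0 k1, γ k / t ^ k * bk k j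

/-- `∑ γ_k t ^ (-k)` -/
noncomputable def fz (k0 k1 : ℕ) (γ : ℕ → ℝ) (t : ℝ) : ℝ := ∑ k ∈ Finset.Icc k0 k1, γ k / t ^ k

lemma wz_zero (k0 k1 : ℕ) (γ : ℕ → ℝ) (t : ℝ) : wz k0 k1 γ 0 t = fz k0 k1 γ t := by
  unfold wz fz
  refine Finset.sum_congr rfl fun k _ => ?_
  rw [bk_zero_right, mul_one]

/-- the local coefficients -/
noncomputable def lc (k0 k1 : ℕ) (γ : ℕ → ℝ) (n j : ℕ) : ℝ :=
  (-1) ^ j * wz k0 k1 γ j n / (n : ℝ) ^ j

/-- the first term dominates -/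
structure Dm (k0 k1 : ℕ) (γ : ℕ → ℝ) (P W : ℝ) : Prop where
  one : 1 ≤ k0
  le : k0 ≤ k1
  ne : γ k0 ≠ 0
  P0 : 0 ≤ P
  W0 : 0 ≤ W
  small : ∀ k, k0 < k → k ≤ k1 → |γ k| ≤ W * |γ k0| * P ^ (k - k0)

/-- the other terms -/
lemma dom_rest {k0 k1 : ℕ} {γ : ℕ → ℝ} {P W : ℝ} (h : Dm k0 k1 γ P W) (j : ℕ) {t : ℝ} (ht : 0 < t)
    (h1 : 4 * W * (1 + j) * P ≤ t) (h2 : 2 * (1 + j) * P ≤ t) :
    ∑ k ∈ Finset.Ioc k0 k1, |γ k| / t ^ k * bk k j ≤ 1 / 2 * (|γ k0| / t ^ k0 * bk k0 j) := by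
  obtain ⟨X, hX⟩ : ∃ X : ℝ, X = |γ k0| / t ^ k0 * bk k0 j := ⟨_, rfl⟩
  have hX0 : 0 ≤ X := by
    rw [hX]
    have := bk_nonneg k0 j
    positivity
  have hP0 := h.P0
  have hW0 := h.W0
  obtain ⟨q, hq⟩ : ∃ q : ℝ, q = (1 + j) * P / t := ⟨_, rfl⟩
  have hj : (0 : ℝ) ≤ j := Nat.cast_nonneg j
  have hq0 : 0 ≤ q := by
    rw [hq]
    positivity
  have hq1 : q ≤ 1 / 2 := by
    rw [hq, div_le_iff₀ ht]
    linarith
  have hq2 : 4 * W * q ≤ 1 := by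
    rw [hq, ← mul_div_assoc, div_le_one ht]
    linarith
  have key : ∀ n : ℕ, k0 + n ≤ k1 → ∑ k ∈ Finset.Ioc k0 (k0 + n), |γ k| / t ^ k * bk k j ≤
      X * W * q * (2 * (1 - (1 / 2) ^ n)) := by
    intro n
    induction n with
    | zero => intro _; simp
    | succ n ih =>
      intro hn
      rw [← add_assoc, Finset.sum_Ioc_succ_top (by omega)]
      have ih' := ih (by omega)
      have hs := h.small (k0 + n + 1) (by omega) (by omega)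
      have e0 : k0 + n + 1 - k0 = n + 1 := by omega
      rw [e0] at hs
      have hb := bk_ratio_pow h.one (n + 1) j
      have hterm : |γ (k0 + n + 1)| / t ^ (k0 + n + 1) * bk (k0 + n + 1) j ≤ X * W * q ^ (n + 1) := by
        calc |γ (k0 + n + 1)| / t ^ (k0 + n + 1) * bk (k0 + n + 1) j ≤
            (W * |γ k0| * P ^ (n + 1)) / t ^ (k0 + n + 1) * ((1 + j) ^ (n + 1) * bk k0 j) := by
              have := bk_nonneg (k0 + n + 1) j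
              gcongr
              exact hb
          _ = _ := by
              rw [hX, hq, add_assoc, pow_add t, div_pow, mul_pow]
              field_simp
      have hqn : q ^ (n + 1) ≤ q * (1 / 2) ^ n := by
        rw [pow_succ, mul_comm]
        gcongr
      have h3 : X * W * q ^ (n + 1) ≤ X * W * (q * (1 / 2) ^ n) := by gcongr
      calc _ ≤ X * W * q * (2 * (1 - (1 / 2) ^ n)) + X * W * (q * (1 / 2) ^ n) :=
            add_le_add ih' (hterm.trans h3)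
        _ = _ := by
            rw [pow_succ]
            ring
  obtain ⟨n, hn⟩ : ∃ n, k1 = k0 + n := ⟨k1 - k0, by have := h.le; omega⟩
  have h3 := key n (by omega)
  rw [← hn] at h3
  rw [← hX]
  refine h3.trans ?_
  have h4 : (0 : ℝ) ≤ (1 / 2) ^ n := by positivity
  have h5 : X * W * q * (2 * (1 - (1 / 2) ^ n)) ≤ X * W * q * 2 := by
    refine mul_le_mul_of_nonneg_left ?_ (by positivity)
    linarith
  have h6 : X * (4 * W * q) ≤ X * 1 := mul_le_mul_of_nonneg_left hq2 hX0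
  linarith

lemma dom_all {k0 k1 : ℕ} {γ : ℕ → ℝ} {P W : ℝ} (h : Dm k0 k1 γ P W) (j : ℕ) {t : ℝ} (ht : 0 < t)
    (h1 : 4 * W * (1 + j) * P ≤ t) (h2 : 2 * (1 + j) * P ≤ t) :
    ∑ k ∈ Finset.Icc k0 k1, |γ k| / t ^ k * bk k j ≤ 3 / 2 * (|γ k0| / t ^ k0 * bk k0 j) := by
  have hm : k0 ∈ Finset.Icc k0 k1 := Finset.mem_Icc.2 ⟨le_rfl, h.le⟩
  rw [← Finset.add_sum_erase _ _ hm, Finset.Icc_erase_left]
  have := dom_rest h j ht h1 h2
  linarith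

lemma dom {k0 k1 : ℕ} {γ : ℕ → ℝ} {P W : ℝ} (h : Dm k0 k1 γ P W) (j : ℕ) {t : ℝ} (ht : 0 < t)
    (h1 : 4 * W * (1 + j) * P ≤ t) (h2 : 2 * (1 + j) * P ≤ t) :
    |wz k0 k1 γ j t - γ k0 / t ^ k0 * bk k0 j| ≤ 1 / 2 * (|γ k0| / t ^ k0 * bk k0 j) := by
  have hm : k0 ∈ Finset.Icc k0 k1 := Finset.mem_Icc.2 ⟨le_rfl, h.le⟩
  unfold wz
  rw [← Finset.add_sum_erase _ _ hm, Finset.Icc_erase_left, add_sub_cancel_left]
  refine (Finset.abs_sum_le_sum_abs _ _).trans ((le_of_eq ?_).trans (dom_rest h j ht h1 h2))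
  refine Finset.sum_congr rfl fun k _ => ?_
  rw [abs_mul, abs_div, abs_of_pos (by positivity : (0 : ℝ) < t ^ k), abs_of_nonneg (bk_nonneg _ _)]

lemma dom_low {k0 k1 : ℕ} {γ : ℕ → ℝ} {P W : ℝ} (h : Dm k0 k1 γ P W) (j : ℕ) {t : ℝ} (ht : 0 < t)
    (h1 : 4 * W * (1 + j) * P ≤ t) (h2 : 2 * (1 + j) * P ≤ t) :
    1 / 2 * (|γ k0| / t ^ k0 * bk k0 j) ≤ |wz k0 k1 γ j t| := by
  have h3 := dom h j ht h1 h2
  have h4 := abs_sub_abs_le_abs_sub (γ k0 / t ^ k0 * bk k0 j) (wz k0 k1 γ j t)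
  rw [abs_sub_comm] at h4
  have h5 : |γ k0 / t ^ k0 * bk k0 j| = |γ k0| / t ^ k0 * bk k0 j := by
    rw [abs_mul, abs_div, abs_of_pos (by positivity : (0 : ℝ) < t ^ k0),
      abs_of_nonneg (bk_nonneg _ _)]
  rw [h5] at h4
  linarith

lemma dom_up {k0 k1 : ℕ} {γ : ℕ → ℝ} {P W : ℝ} (h : Dm k0 k1 γ P W) (j : ℕ) {t : ℝ} (ht : 0 < t)
    (h1 : 4 * W * (1 + j) * P ≤ t) (h2 : 2 * (1 + j) * P ≤ t) :
    |wz k0 k1 γ j t| ≤ 3 / 2 * (|γ k0| / t ^ k0 * bk k0 j) := by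
  refine le_trans ?_ (dom_all h j ht h1 h2)
  unfold wz
  refine (Finset.abs_sum_le_sum_abs _ _).trans (le_of_eq ?_)
  refine Finset.sum_congr rfl fun k _ => ?_
  rw [abs_mul, abs_div, abs_of_pos (by positivity : (0 : ℝ) < t ^ k), abs_of_nonneg (bk_nonneg _ _)]

/-- the constant of the window -/
noncomputable def DD (K0 : ℕ) : ℝ := 18 * 3 ^ K0 * K0.factorial

lemma DD_ge (K0 : ℕ) : 1 ≤ DD K0 := by
  unfold DD
  have h1 : (1 : ℝ) ≤ 3 ^ K0 := one_le_pow₀ (by norm_num)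
  have h2 : (1 : ℝ) ≤ K0.factorial := by exact_mod_cast Nat.one_le_iff_ne_zero.2 (Nat.factorial_ne_zero _)
  nlinarith

/-- sizes of the local coefficients -/
lemma adm_lc {K0 k0 k1 N r : ℕ} {γ : ℕ → ℝ} {P W : ℝ} (h : Dm k0 k1 γ P W) (hK : k0 ≤ K0)
    (hN : 1 ≤ N) (h1 : 4 * W * (1 + r) * P ≤ N) (h2 : 2 * (1 + r) * P ≤ N) {κ : ℝ} (hκ0 : 0 ≤ κ)
    (hκ : (N : ℝ) ^ κ = 9 * (|γ k0| / (N : ℝ) ^ k0) * (3 * κ + 3 / 2) ^ (k0 - 1))
    {n : ℕ} (hn : n ∈ Finset.Ioc N (2 * N)) : AdmW (DD K0) N κ r (lc k0 k1 γ n) := by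
  intro j hj hj1 hj2
  rw [Finset.mem_Icc] at hj
  rw [Finset.mem_Ioc] at hn
  have hNR : (1 : ℝ) ≤ N := by exact_mod_cast hN
  have hNp : (0 : ℝ) < N := by linarith
  have hnN : (N : ℝ) ≤ n := by exact_mod_cast hn.1.le
  have hn2 : (n : ℝ) ≤ 2 * N := by exact_mod_cast hn.2
  have hn0 : (0 : ℝ) < n := by linarith
  have hjR : (1 : ℝ) ≤ j := by exact_mod_cast hj.1
  have hjr : (j : ℝ) ≤ r := by exact_mod_cast hj.2
  have hP0 := h.P0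
  have hW0 := h.W0
  have hr0 : (0 : ℝ) ≤ r := Nat.cast_nonneg r
  obtain ⟨g, hg⟩ : ∃ g : ℝ, g = |γ k0| := ⟨_, rfl⟩
  have hg0 : 0 < g := by rw [hg]; exact abs_pos.2 h.ne
  have h1' : 4 * W * (1 + j) * P ≤ n := by
    refine le_trans ?_ (h1.trans hnN)
    gcongr
  have h2' : 2 * (1 + j) * P ≤ (n : ℝ) := by
    refine le_trans ?_ (h2.trans hnN)
    gcongr
  have hlow := dom_low h j hn0 h1' h2'
  have hup := dom_up h j hn0 h1' h2'
  rw [← hg] at hlow hup hκ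
  obtain ⟨k, hk⟩ : ∃ k, k0 = k + 1 := ⟨k0 - 1, by have := h.one; omega⟩
  have hkK : k + 1 ≤ K0 := by omega
  have hb0 : 0 < bk k0 j := bk_pos h.one j
  have habs : |lc k0 k1 γ n j| = |wz k0 k1 γ j n| / (n : ℝ) ^ j := by
    unfold lc
    rw [abs_div, abs_mul, abs_pow, abs_neg, abs_one, one_pow, one_mul,
      abs_of_pos (by positivity : (0 : ℝ) < (n : ℝ) ^ j)]
  obtain ⟨X, hX⟩ : ∃ X : ℝ, X = 3 * κ + 3 / 2 := ⟨_, rfl⟩
  have hX0 : 0 < X := by rw [hX]; linarith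
  have hkk : k0 - 1 = k := by omega
  rw [← hX, hkk] at hκ
  rw [habs]
  constructor
  · -- lower bound
    have hXj : X ≤ 3 / 2 * (1 + j) := by rw [hX]; linarith
    have hXb : X ^ k ≤ (3 / 2) ^ k * (k.factorial * bk k0 j) := by
      calc X ^ k ≤ (3 / 2 * (1 + j)) ^ k := by gcongr
        _ = (3 / 2) ^ k * (1 + (j : ℝ)) ^ k := mul_pow _ _ _
        _ ≤ (3 / 2) ^ k * (k.factorial * bk k0 j) := by
            rw [hk]
            have := bk_ge k j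
            gcongr
    have hfac : (k.factorial : ℝ) ≤ K0.factorial := by
      exact_mod_cast Nat.factorial_le (by omega : k ≤ K0)
    have h3K : (3 / 2 : ℝ) ^ k * 2 ^ k0 ≤ 3 ^ K0 := by
      calc (3 / 2 : ℝ) ^ k * 2 ^ k0 ≤ (3 / 2 : ℝ) ^ k0 * 2 ^ k0 := by
            gcongr
            · norm_num
            · omega
        _ = 3 ^ k0 := by
            rw [← mul_pow]
            norm_num
        _ ≤ 3 ^ K0 := pow_le_pow_right₀ (by norm_num) hK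
    have hgn : g / (N : ℝ) ^ k0 ≤ 2 ^ k0 * (g / (n : ℝ) ^ k0) := by
      rw [div_le_iff₀ (by positivity), ← mul_div_assoc, div_mul_eq_mul_div, le_div_iff₀ (by positivity)]
      calc g * (n : ℝ) ^ k0 ≤ g * (2 * N) ^ k0 := by gcongr
        _ = 2 ^ k0 * g * (N : ℝ) ^ k0 := by
            rw [mul_pow]
            ring
    have hgn0 : 0 < g / (n : ℝ) ^ k0 := by positivity
    have hmain : (N : ℝ) ^ κ ≤ DD K0 * (1 / 2 * (g / (n : ℝ) ^ k0 * bk k0 j)) := by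
      rw [hκ]
      calc 9 * (g / (N : ℝ) ^ k0) * X ^ k ≤
          9 * (2 ^ k0 * (g / (n : ℝ) ^ k0)) * ((3 / 2) ^ k * (k.factorial * bk k0 j)) := by gcongr
        _ = 18 * ((3 / 2) ^ k * 2 ^ k0) * k.factorial * (1 / 2 * (g / (n : ℝ) ^ k0 * bk k0 j)) := by
            ring
        _ ≤ 18 * 3 ^ K0 * K0.factorial * (1 / 2 * (g / (n : ℝ) ^ k0 * bk k0 j)) := by
            gcongr
        _ = _ := by rw [DD]
    have hDD := DD_ge K0
    have hDD0 : 0 < DD K0 := by linarith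
    rw [div_le_div_iff₀ (by positivity) (by positivity)]
    calc (N : ℝ) ^ κ * (n : ℝ) ^ j ≤ (DD K0 * (1 / 2 * (g / (n : ℝ) ^ k0 * bk k0 j))) * (2 * N) ^ j := by
          gcongr
      _ ≤ (DD K0 * |wz k0 k1 γ j n|) * (2 * N) ^ j := by gcongr
      _ = |wz k0 k1 γ j n| * (DD K0 * 1 ^ 2 * (2 * (N : ℝ)) ^ j) := by ring
      _ ≤ |wz k0 k1 γ j n| * (DD K0 * (j : ℝ) ^ 2 * (2 * (N : ℝ)) ^ j) := by gcongr
  · -- upper bound
    have hXj : 1 + (j : ℝ) ≤ X := by rw [hX]; linarith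
    have hXb : bk k0 j ≤ X ^ k := by
      rw [hk]
      exact (bk_le k j).trans (by gcongr)
    have hgn : g / (n : ℝ) ^ k0 ≤ g / (N : ℝ) ^ k0 := by gcongr
    have h3 : 3 / 2 * (g / (n : ℝ) ^ k0 * bk k0 j) ≤ (N : ℝ) ^ κ / 6 := by
      rw [hκ]
      calc 3 / 2 * (g / (n : ℝ) ^ k0 * bk k0 j) ≤ 3 / 2 * (g / (N : ℝ) ^ k0 * X ^ k) := by gcongr
        _ = _ := by ring
    calc |wz k0 k1 γ j n| / (n : ℝ) ^ j ≤ ((N : ℝ) ^ κ / 6) / (N : ℝ) ^ j := by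
          refine div_le_div₀ (by positivity) (hup.trans h3) (by positivity) ?_
          gcongr
      _ = _ := by rw [div_div]

/-- the approximation by the local phase -/
lemma approx_fz {K0 k0 k1 N r : ℕ} {γ : ℕ → ℝ} {P W : ℝ} (h : Dm k0 k1 γ P W) (hK : k0 ≤ K0)
    (hN : 1 ≤ N) (h1 : 4 * W * (2 + r) * P ≤ N) (h2 : 2 * (2 + r) * P ≤ N) {κ : ℝ} (hκ0 : 0 ≤ κ)
    (hκ : (N : ℝ) ^ κ = 9 * (|γ k0| / (N : ℝ) ^ k0) * (3 * κ + 3 / 2) ^ (k0 - 1))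
    {n : ℕ} (hn : n ∈ Finset.Ioc N (2 * N)) (s : ℕ) :
    ‖e (fz k0 k1 γ ((n + s : ℕ) : ℝ)) - e (fz k0 k1 γ n) * ph r (lc k0 k1 γ n) s‖ ≤
      (2 * (2 + r) ^ K0) * ((N : ℝ) ^ κ * ((s : ℝ) / N) ^ (r + 1)) := by
  rw [Finset.mem_Ioc] at hn
  have hNR : (1 : ℝ) ≤ N := by exact_mod_cast hN
  have hNp : (0 : ℝ) < N := by linarith
  have hnN : (N : ℝ) ≤ n := by exact_mod_cast hn.1.le
  have hn2 : (n : ℝ) ≤ 2 * N := by exact_mod_cast hn.2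
  have hn0 : (0 : ℝ) < n := by linarith
  have hr0 : (0 : ℝ) ≤ r := Nat.cast_nonneg r
  obtain ⟨z, hz⟩ : ∃ z : ℝ, z = (s : ℝ) / n := ⟨_, rfl⟩
  have hz0 : 0 ≤ z := by rw [hz]; positivity
  have hzN : z ≤ (s : ℝ) / N := by
    rw [hz]
    gcongr
  rw [ph_eq, ← e_add]
  refine (norm_e_sub _ _).trans ?_
  -- the difference of the phases
  have e0 : fz k0 k1 γ ((n + s : ℕ) : ℝ) - (fz k0 k1 γ n + ∑ j ∈ Finset.Icc 1 r,
      lc k0 k1 γ n j * (s : ℝ) ^ j) =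
      ∑ k ∈ Finset.Icc k0 k1, γ k / (n : ℝ) ^ k * (((1 + z) ^ k)⁻¹ - tp k r z) := by
    have e1 : fz k0 k1 γ ((n + s : ℕ) : ℝ) = ∑ k ∈ Finset.Icc k0 k1, γ k / (n : ℝ) ^ k *
        ((1 + z) ^ k)⁻¹ := by
      unfold fz
      refine Finset.sum_congr rfl fun k _ => ?_
      have e2 : ((n + s : ℕ) : ℝ) = n * (1 + z) := by
        rw [hz]
        push_cast
        field_simp
      rw [e2, mul_pow, ← div_eq_mul_inv, div_div]
    have e2 : fz k0 k1 γ n + ∑ j ∈ Finset.Icc 1 r, lc k0 k1 γ n j * (s : ℝ) ^ j =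
        ∑ k ∈ Finset.Icc k0 k1, γ k / (n : ℝ) ^ k * tp k r z := by
      have e3 : ∀ k : ℕ, tp k r z = 1 + ∑ j ∈ Finset.Icc 1 r, (-1) ^ j * bk k j * z ^ j := by
        intro k
        unfold tp
        rw [Finset.sum_range_succ', bk_zero_right, pow_zero, pow_zero, mul_one, mul_one, add_comm]
        congr 1
        exact (Pool.Agent.N586.RT.sum_Icc_range' (fun j => (-1) ^ j * bk k j * z ^ j) r).symm
      simp only [e3, mul_add, mul_one, Finset.sum_add_distrib]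
      congr 1
      unfold lc wz
      simp only [Finset.mul_sum, Finset.sum_div, Finset.sum_mul]
      rw [Finset.sum_comm]
      refine Finset.sum_congr rfl fun k _ => Finset.sum_congr rfl fun j _ => ?_
      rw [hz, div_pow]
      ring
    rw [e1, e2, ← Finset.sum_sub_distrib]
    refine Finset.sum_congr rfl fun k _ => ?_
    ring
  rw [e0]
  obtain ⟨g, hg⟩ : ∃ g : ℝ, g = |γ k0| := ⟨_, rfl⟩
  have hg0 : 0 < g := by rw [hg]; exact abs_pos.2 h.ne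
  have h1' : 4 * W * (1 + ((r + 1 : ℕ) : ℝ)) * P ≤ n := by
    refine le_trans (le_of_eq ?_) (h1.trans hnN)
    push_cast
    ring
  have h2' : 2 * (1 + ((r + 1 : ℕ) : ℝ)) * P ≤ (n : ℝ) := by
    refine le_trans (le_of_eq ?_) (h2.trans hnN)
    push_cast
    ring
  have hall := dom_all h (r + 1) hn0 h1' h2'
  rw [← hg] at hall hκ
  obtain ⟨k, hk⟩ : ∃ k, k0 = k + 1 := ⟨k0 - 1, by have := h.one; omega⟩
  have hb : bk k0 (r + 1) ≤ (2 + (r : ℝ)) ^ K0 := by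
    rw [hk]
    refine (bk_le k (r + 1)).trans ?_
    push_cast
    calc (1 + ((r : ℝ) + 1)) ^ k = (2 + (r : ℝ)) ^ k := by ring_nf
      _ ≤ (2 + (r : ℝ)) ^ K0 := pow_le_pow_right₀ (by linarith) (by omega)
  have hX1 : (1 : ℝ) ≤ (3 * κ + 3 / 2) ^ (k0 - 1) := one_le_pow₀ (by linarith)
  have hNκ : 9 * (g / (N : ℝ) ^ k0) ≤ (N : ℝ) ^ κ := by
    rw [hκ]
    have : 0 ≤ 9 * (g / (N : ℝ) ^ k0) := by positivity
    nlinarith
  have h3 : |∑ k ∈ Finset.Icc k0 k1, γ k / (n : ℝ) ^ k * (((1 + z) ^ k)⁻¹ - tp k r z)| ≤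
      (N : ℝ) ^ κ / 6 * ((2 + r) ^ K0 * ((s : ℝ) / N) ^ (r + 1)) := by
    calc _ ≤ ∑ k ∈ Finset.Icc k0 k1, |γ k / (n : ℝ) ^ k * (((1 + z) ^ k)⁻¹ - tp k r z)| :=
          Finset.abs_sum_le_sum_abs _ _
      _ ≤ ∑ k ∈ Finset.Icc k0 k1, (|γ k| / (n : ℝ) ^ k * bk k (r + 1)) * z ^ (r + 1) := by
          refine Finset.sum_le_sum fun k _ => ?_
          rw [abs_mul, abs_div, abs_of_pos (by positivity : (0 : ℝ) < (n : ℝ) ^ k), mul_assoc]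
          exact mul_le_mul_of_nonneg_left (tp_rem k r hz0) (by positivity)
      _ = (∑ k ∈ Finset.Icc k0 k1, |γ k| / (n : ℝ) ^ k * bk k (r + 1)) * z ^ (r + 1) := by
          rw [Finset.sum_mul]
      _ ≤ (3 / 2 * (g / (n : ℝ) ^ k0 * bk k0 (r + 1))) * ((s : ℝ) / N) ^ (r + 1) := by
          gcongr
          have := bk_nonneg k0 (r + 1)
          positivity
      _ ≤ (3 / 2 * (g / (N : ℝ) ^ k0 * (2 + r) ^ K0)) * ((s : ℝ) / N) ^ (r + 1) := by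
          have := bk_nonneg k0 (r + 1)
          gcongr
      _ = (9 * (g / (N : ℝ) ^ k0)) / 6 * ((2 + r) ^ K0 * ((s : ℝ) / N) ^ (r + 1)) := by ring
      _ ≤ _ := by gcongr
  have hpi : 2 * π / 6 ≤ 2 := by
    have := Real.pi_le_four
    linarith
  calc 2 * π * |∑ k ∈ Finset.Icc k0 k1, γ k / (n : ℝ) ^ k * (((1 + z) ^ k)⁻¹ - tp k r z)| ≤
      2 * π * ((N : ℝ) ^ κ / 6 * ((2 + r) ^ K0 * ((s : ℝ) / N) ^ (r + 1))) := by gcongr
    _ = (2 * π / 6) * ((2 + r) ^ K0 * ((N : ℝ) ^ κ * ((s : ℝ) / N) ^ (r + 1))) := by ring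
    _ ≤ 2 * ((2 + r) ^ K0 * ((N : ℝ) ^ κ * ((s : ℝ) / N) ^ (r + 1))) := by gcongr
    _ = _ := by ring

end Pool.Agent.W2helper30.PN
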