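import Pool.Agent.W2helper30.PN.Ph
import Pool.Agent.W2helper30.PN.Kp
import Pool.Agent.Y933.KG.Pm
import Pool.Agent.Y933.KD.VdC3

/-!
# The sums with small phases: van der Corput's second derivative test
-/

set_option autoImplicit false

namespace Pool.Agent.W2helper30.PN

open Finset Real Filter
open Pool.Agent.Y933.KD (e norm_e e_add)
open Pool.Agent.Y933.KD.VdC (ev_le)

/-- the derivatives of `fz` -/
noncomputable def fzd (k0 k1 : ℕ) (γ : ℕ → ℝ) (m : ℕ) (t : ℝ) : ℝ :=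
  ∑ k ∈ Finset.Icc k0 k1, (-1) ^ m * m.factorial * (γ k * bk k m) * (t ^ (k + m))⁻¹

lemma inv_pow_der (n : ℕ) (hn : 1 ≤ n) {t : ℝ} (ht : t ≠ 0) :
    HasDerivAt (fun t : ℝ => (t ^ n)⁻¹) (-(n : ℝ) * (t ^ (n + 1))⁻¹) t := by
  have h1 := (hasDerivAt_pow n t).inv (pow_ne_zero n ht)
  refine h1.congr_deriv ?_
  obtain ⟨q, rfl⟩ : ∃ q, n = q + 1 := ⟨n - 1, by omega⟩
  rw [Nat.add_sub_cancel]
  field_simp
  ring

lemma fzd_der {k0 k1 : ℕ} (hk0 : 1 ≤ k0) (γ : ℕ → ℝ) (m : ℕ) {t : ℝ} (ht : t ≠ 0) :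
    HasDerivAt (fzd k0 k1 γ m) (fzd k0 k1 γ (m + 1) t) t := by
  unfold fzd
  refine HasDerivAt.fun_sum fun k hk => ?_
  rw [Finset.mem_Icc] at hk
  have h1 := (inv_pow_der (k + m) (by omega) ht).const_mul
    ((-1) ^ m * m.factorial * (γ k * bk k m))
  refine h1.congr_deriv ?_
  have h2 := bk_succ_right k m
  rw [Nat.factorial_succ, ← add_assoc k m 1]
  push_cast
  have e1 : (-1 : ℝ) ^ (m + 1) * (((m : ℝ) + 1) * m.factorial) * (γ k * bk k (m + 1)) *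
      (t ^ (k + m + 1))⁻¹ = -((-1 : ℝ) ^ m * m.factorial * γ k *
      (((m : ℝ) + 1) * bk k (m + 1)) * (t ^ (k + m + 1))⁻¹) := by ring
  rw [e1, h2]
  ring

lemma fzd_eq (k0 k1 : ℕ) (γ : ℕ → ℝ) (m : ℕ) (t : ℝ) :
    fzd k0 k1 γ m t = (-1) ^ m * m.factorial * (wz k0 k1 γ m t / t ^ m) := by
  unfold fzd wz
  rw [Finset.sum_div, Finset.mul_sum]
  refine Finset.sum_congr rfl fun k _ => ?_
  rw [pow_add, mul_inv]
  ring

lemma fzd_zero (k0 k1 : ℕ) (γ : ℕ → ℝ) (t : ℝ) : fzd k0 k1 γ 0 t = fz k0 k1 γ t := by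
  rw [fzd_eq, wz_zero]
  simp

lemma abs_fzd (k0 k1 : ℕ) (γ : ℕ → ℝ) (m : ℕ) {t : ℝ} (ht : 0 < t) :
    |fzd k0 k1 γ m t| = m.factorial * (|wz k0 k1 γ m t| / t ^ m) := by
  rw [fzd_eq, abs_mul, abs_mul, abs_pow, abs_neg, abs_one, one_pow, one_mul, abs_div,
    abs_of_pos (by positivity : (0 : ℝ) < t ^ m), abs_of_nonneg (Nat.cast_nonneg m.factorial)]

/-- the sums with small phases -/
theorem sum_small (K0 : ℕ) (P δ0 : ℝ) (hP : 0 ≤ P) (hδ0 : 0 < δ0) : ∃ ρ : ℝ, 0 < ρ ∧ ∃ N0 : ℕ,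
    ∀ N : ℕ, N0 ≤ N → ∀ (k0 k1 : ℕ) (γ : ℕ → ℝ) (W : ℝ), Dm k0 k1 γ P W → k0 ≤ K0 →
    W ≤ (N : ℝ) ^ (1 / 4 : ℝ) → (N : ℝ) ^ δ0 ≤ |γ k0| / (N : ℝ) ^ k0 → |γ k0| / (N : ℝ) ^ k0 ≤ N →
    ‖∑ n ∈ Finset.Ioc N (2 * N), e (fz k0 k1 γ n)‖ ≤ (N : ℝ) ^ (1 - ρ) := by
  set μ : ℝ := min (δ0 / 2) (1 / 4) with hμ
  have hμ0 : 0 < μ := lt_min (by positivity) (by norm_num)
  have hμ1 : μ ≤ 1 / 4 := min_le_right _ _
  have hμ2 : 2 * μ ≤ δ0 := by
    have := min_le_left (δ0 / 2) (1 / 4 : ℝ)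
    linarith
  obtain ⟨ρ, hρ, N1, hN1⟩ := Pool.Agent.Y933.KG.core_pm 1 le_rfl μ hμ0 hμ1
  obtain ⟨N2, hN2⟩ := eventually_atTop.1 (((ev_le (16 * P) (3 / 4)
    (by positivity)).and (ev_le (3 ^ (2 * K0 + 3)) (μ / 4) (by positivity))).and
    (ev_le (3 ^ (K0 + 2)) μ hμ0))
  refine ⟨ρ, hρ, max (max N1 N2) (max 1 ⌈8 * P⌉₊), ?_⟩
  intro N hN k0 k1 γ W h hkK hW hT1 hT2
  have hNN1 : N1 ≤ N := le_of_max_le_left (le_of_max_le_left hN)
  have hNN2 : N2 ≤ N := le_of_max_le_right (le_of_max_le_left hN)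
  have hN1' : 1 ≤ N := le_of_max_le_left (le_of_max_le_right hN)
  have hN3' : ⌈8 * P⌉₊ ≤ N := le_of_max_le_right (le_of_max_le_right hN)
  have h8P : 8 * P ≤ N := (Nat.le_ceil _).trans (by exact_mod_cast hN3')
  obtain ⟨⟨ha, hb⟩, hc⟩ := hN2 N hNN2
  have hNR : (1 : ℝ) ≤ N := by exact_mod_cast hN1'
  have hNp : (0 : ℝ) < N := by linarith
  have hW0 := h.W0
  have h16 : 16 * W * P ≤ N := by
    calc 16 * W * P = W * (16 * P) := by ring
      _ ≤ (N : ℝ) ^ (1 / 4 : ℝ) * (N : ℝ) ^ (3 / 4 : ℝ) := by gcongr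
      _ = N := by
          rw [← Real.rpow_add hNp]
          norm_num
  have hk1 := h.one
  obtain ⟨g, hg⟩ : ∃ g : ℝ, g = |γ k0| := ⟨_, rfl⟩
  have hg0 : 0 < g := by rw [hg]; exact abs_pos.2 h.ne
  rw [← hg] at hT1 hT2
  obtain ⟨T, hT⟩ : ∃ T : ℝ, T = g / (N : ℝ) ^ k0 := ⟨_, rfl⟩
  rw [← hT] at hT1 hT2
  have hT0 : 0 < T := by rw [hT]; positivity
  -- the second and third derivatives
  have hc2 : ∀ t : ℝ, (N : ℝ) ≤ t → 4 * W * (1 + ((2 : ℕ) : ℝ)) * P ≤ t ∧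
      2 * (1 + ((2 : ℕ) : ℝ)) * P ≤ t := by
    intro t ht
    have : 0 ≤ W * P := mul_nonneg hW0 hP
    constructor
    · push_cast
      nlinarith
    · push_cast
      nlinarith
  have hc3 : ∀ t : ℝ, (N : ℝ) ≤ t → 4 * W * (1 + ((3 : ℕ) : ℝ)) * P ≤ t ∧
      2 * (1 + ((3 : ℕ) : ℝ)) * P ≤ t := by
    intro t ht
    constructor
    · push_cast
      linarith
    · push_cast
      linarith
  have hb2 : bk k0 2 ≤ 3 ^ K0 := by
    obtain ⟨k, hk⟩ : ∃ k, k0 = k + 1 := ⟨k0 - 1, by omega⟩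
    rw [hk]
    refine (bk_le k 2).trans ?_
    push_cast
    norm_num
    exact pow_le_pow_right₀ (by norm_num) (by omega)
  have hb2' := one_le_bk hk1 2
  have hne3 : ∀ t : ℝ, (N : ℝ) ≤ t → fzd k0 k1 γ 3 t ≠ 0 := by
    intro t ht
    have ht0 : 0 < t := by linarith
    obtain ⟨h1, h2⟩ := hc3 t ht
    have h3 := dom_low h 3 ht0 h1 h2
    rw [← hg] at h3
    have h4 : 0 < 1 / 2 * (g / t ^ k0 * bk k0 3) := by
      have := bk_pos hk1 3
      positivity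
    rw [← abs_pos, abs_fzd _ _ _ _ ht0]
    have h5 : 0 < |wz k0 k1 γ 3 t| := lt_of_lt_of_le h4 h3
    positivity
  -- the interval
  have hmem : ∀ t ∈ Set.Icc (N : ℝ) (2 * N + 1), (N : ℝ) ≤ t ∧ t ≤ 3 * N := by
    intro t ht
    exact ⟨ht.1, by linarith [ht.2]⟩
  obtain ⟨lo, hlo⟩ : ∃ lo : ℝ, lo = T / (3 ^ (K0 + 2) * (N : ℝ) ^ 2) := ⟨_, rfl⟩
  obtain ⟨hi, hhi⟩ : ∃ hi : ℝ, hi = 3 ^ (K0 + 1) * T / (N : ℝ) ^ 2 := ⟨_, rfl⟩
  have hlo0 : 0 < lo := by rw [hlo]; positivity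
  have key := hN1 N hNN1 (N : ℝ) (2 * N + 1) lo hi (fzd k0 k1 γ) hlo0
    (fun m t ht => fzd_der hk1 γ m (by linarith [(hmem t ht).1] : t ≠ 0))
    (by
      intro t ht
      obtain ⟨h1, h2⟩ := hmem t ht
      have ht0 : 0 < t := by linarith
      obtain ⟨h3, h4⟩ := hc2 t h1
      have h5 := dom_low h 2 ht0 h3 h4
      rw [← hg] at h5
      rw [abs_fzd _ _ _ _ ht0]
      have h6 : g / t ^ k0 ≤ 2 * |wz k0 k1 γ 2 t| := by
        have h7 : 0 ≤ g / t ^ k0 := by positivity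
        nlinarith
      rw [hlo, hT, div_div]
      calc g / ((N : ℝ) ^ k0 * (3 ^ (K0 + 2) * (N : ℝ) ^ 2)) ≤ g / (t ^ k0 * t ^ 2) := by
            refine div_le_div_of_nonneg_left hg0.le (by positivity) ?_
            calc t ^ k0 * t ^ 2 ≤ (3 * N) ^ k0 * (3 * N) ^ 2 := by gcongr
              _ = (3 : ℝ) ^ (k0 + 2) * ((N : ℝ) ^ k0 * (N : ℝ) ^ 2) := by
                  rw [mul_pow, mul_pow, pow_add]
                  ring
              _ ≤ (3 : ℝ) ^ (K0 + 2) * ((N : ℝ) ^ k0 * (N : ℝ) ^ 2) := by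
                  gcongr
                  · norm_num
              _ = _ := by ring
        _ = g / t ^ k0 / t ^ 2 := by rw [div_div]
        _ ≤ 2 * |wz k0 k1 γ 2 t| / t ^ 2 := by gcongr
        _ = _ := by
            simp [Nat.factorial]
            ring)
    (by
      intro t ht
      obtain ⟨h1, h2⟩ := hmem t ht
      have ht0 : 0 < t := by linarith
      obtain ⟨h3, h4⟩ := hc2 t h1
      have h5 := dom_up h 2 ht0 h3 h4
      rw [← hg] at h5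
      rw [abs_fzd _ _ _ _ ht0, hhi, hT]
      calc ((Nat.factorial (1 + 1) : ℕ) : ℝ) * (|wz k0 k1 γ 2 t| / t ^ 2) =
          2 * |wz k0 k1 γ 2 t| / t ^ 2 := by
            simp [Nat.factorial]
            ring
        _ ≤ 2 * (3 / 2 * (g / t ^ k0 * bk k0 2)) / t ^ 2 := by gcongr
        _ ≤ 2 * (3 / 2 * (g / (N : ℝ) ^ k0 * 3 ^ K0)) / (N : ℝ) ^ 2 := by gcongr
        _ = _ := by
            rw [pow_succ]
            ring)
    (fun t ht => hne3 t (hmem t ht).1)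
    1 ((N : ℝ) + 1) N le_rfl le_rfl (by linarith) one_ne_zero
    (by
      calc hi = 3 ^ (2 * K0 + 3) * lo := by
            rw [hhi, hlo]
            have e1 : (3 : ℝ) ^ (2 * K0 + 3) = 3 ^ (K0 + 1) * 3 ^ (K0 + 2) := by
              rw [← pow_add]
              congr 1
              omega
            rw [e1]
            field_simp
        _ = lo * 3 ^ (2 * K0 + 3) := by ring
        _ ≤ lo * (N : ℝ) ^ (μ / 4) := by gcongr)
    (by
      rw [abs_one, one_mul]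
      calc lo ≤ T / (N : ℝ) ^ 2 := by
            rw [hlo]
            apply div_le_div_of_nonneg_left hT0.le (by positivity)
            have : (1 : ℝ) ≤ 3 ^ (K0 + 2) := one_le_pow₀ (by norm_num)
            have h2 : (0 : ℝ) ≤ (N : ℝ) ^ 2 := by positivity
            nlinarith
        _ ≤ N / (N : ℝ) ^ 2 := by gcongr
        _ = (N : ℝ) ^ (-1 : ℝ) := by
            rw [Real.rpow_neg_one]
            field_simp
        _ ≤ (N : ℝ) ^ (-μ) := Real.rpow_le_rpow_of_exponent_le hNR (by linarith))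
    (by
      rw [abs_one, one_mul]
      have e1 : (N : ℝ) ^ (-(((1 : ℕ) : ℝ) + 1) + μ) = (N : ℝ) ^ μ / (N : ℝ) ^ 2 := by
        rw [← Real.rpow_natCast (N : ℝ) 2, ← Real.rpow_sub hNp]
        congr 1
        push_cast
        ring
      rw [e1, hlo, ← div_div]
      refine div_le_div_of_nonneg_right ?_ (by positivity)
      rw [le_div_iff₀ (by positivity)]
      calc (N : ℝ) ^ μ * 3 ^ (K0 + 2) ≤ (N : ℝ) ^ μ * (N : ℝ) ^ μ := by gcongr
        _ = (N : ℝ) ^ (2 * μ) := by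
            rw [← Real.rpow_add hNp, two_mul]
        _ ≤ (N : ℝ) ^ δ0 := Real.rpow_le_rpow_of_exponent_le hNR hμ2
        _ ≤ T := hT1)
  refine le_trans (le_of_eq ?_) key
  congr 1
  have h1 : Finset.Ioc N (2 * N) = Finset.Ioc N (N + N) := by rw [two_mul]
  have h2 := Pool.Agent.Y933.KD.VdC.sum_Ioc_split (fun n => e (fz k0 k1 γ n)) N N 0 (Nat.zero_le _)
  simp only [add_zero, Finset.Ioc_self, Finset.sum_empty, zero_add, Nat.sub_zero] at h2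
  rw [h1, h2]
  refine Finset.sum_congr rfl fun n _ => ?_
  rw [one_mul, fzd_zero]
  have e1 : ((N + 1 + n : ℕ) : ℝ) = (N : ℝ) + 1 + n := by push_cast; ring
  rw [e1]
  rfl

end Pool.Agent.W2helper30.PN
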